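import Pool.Agent.Y762.HK.Core
import Pool.Agent.Y762.FinJ

/-!
The family of the pairs `(k, χ)`: final constants.
-/

open Complex Filter Topology Set MeasureTheory
open H370 (zset mult NN Nd Ns)

set_option autoImplicit false
set_option maxHeartbeats 4000000

namespace Pool.Agent.Y762.HK

open H385 hiding ee ee_norm ee_add SS
open Pool.Agent.H304R3.HK (tc LamK bb one_le_norm_tc)
open Pool.Agent.W354.PK (HCk LK aK bK lck lck_logC goodK)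

theorem hk_fin (cd : (q : ZI) → MulChar (RQ q) ℂ → ZI)
    (pr : (q : ZI) → MulChar (RQ q) ℂ → (ZI →* ℂ))
    (hprim : ∀ (q : ZI) (_ : q ≠ 0) (χ : MulChar (RQ q) ℂ), PrimData q χ (cd q χ) (pr q χ))
    (h ε : ℝ) (hh : 1 / 2 < h) (hh1 : h ≤ 1) (hε : 0 < ε) :
    ∃ C0 : ℝ, 1 ≤ C0 ∧ ∀ (q : ZI) (r K : ℕ) (T : ℝ), q ≠ 0 → 1 ≤ r → 1 ≤ K →
      C0 * (1 + Real.sqrt (Real.log (‖tc q‖ * (r + K)))) ≤ T →
      Real.exp (2 * h * Real.log (‖tc q‖ * (r + K + T))) ≤ ‖tc q‖ ^ 2 * K * T →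
      0 < (Fam q r K).card ∧
      (2 - (cH h + ε)) * ∑ x ∈ Fam q r K, (NN (LK x.1 (pr q x.2)) T (2 * T) : ℝ) ≤
        ∑ x ∈ Fam q r K, (Ns (LK x.1 (pr q x.2)) T (2 * T) : ℝ) ∧
      (3 - (cH h + ε)) * ∑ x ∈ Fam q r K, (NN (LK x.1 (pr q x.2)) T (2 * T) : ℝ) ≤
        2 * ∑ x ∈ Fam q r K, (Nd (LK x.1 (pr q x.2)) T (2 * T) : ℝ) ∧
      (1 - ε) * (T / Real.pi * Real.log (‖tc q‖ * (r + K + T))) * ((Fam q r K).card : ℝ) ≤
        ∑ x ∈ Fam q r K, (NN (LK x.1 (pr q x.2)) T (2 * T) : ℝ) := by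
  obtain ⟨s, e, hs0, hs1, he0, heε, hβ0, hβ1, hconst⟩ :=
    const_choice h ε (by linarith) hh1 hε
  obtain ⟨hγ0, hγπ⟩ := gam_ok h (by linarith) hh1
  have hβh : 2 * (h * (1 - s)) < 2 * h := by nlinarith
  obtain ⟨C0, hC0, H⟩ := hk_core cd pr hprim h (Real.sqrt 2 * h) (2 * (h * (1 - s))) e hh hh1
    hγ0 hγπ (by linarith) hβh he0
  refine ⟨C0, hC0, ?_⟩
  intro q r K T hq hr hK hT hX
  obtain ⟨r0, r1, r2, r3⟩ := H q r K T hq hr hK hT hX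
  have hn1 := one_le_norm_tc hq
  have hK1 : (1 : ℝ) ≤ K := by exact_mod_cast hK
  have hr1 : (1 : ℝ) ≤ r := by exact_mod_cast hr
  have hT1 : 1 ≤ T := by
    refine le_trans ?_ hT
    have := Real.sqrt_nonneg (Real.log (‖tc q‖ * (r + K)))
    nlinarith
  have hS0 : 0 ≤ ∑ x ∈ Fam q r K, (NN (LK x.1 (pr q x.2)) T (2 * T) : ℝ) :=
    Finset.sum_nonneg fun _ _ => Nat.cast_nonneg _
  have e1 : 2 * Rw (Real.sqrt 2 * h) 0 / (2 * (h * (1 - s))) =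
      Rw (Real.sqrt 2 * h) 0 / (h * (1 - s)) := by
    rw [mul_div_mul_left _ _ (by norm_num)]
  rw [e1] at r1 r2
  have h1 := mul_le_mul_of_nonneg_right hconst hS0
  rw [Finset.sum_sub_distrib, ← Finset.mul_sum] at r1
  rw [Finset.sum_sub_distrib, ← Finset.mul_sum, ← Finset.mul_sum] at r2
  refine ⟨r0, by linarith, by linarith, ?_⟩
  refine le_trans ?_ r3
  refine mul_le_mul_of_nonneg_right ?_ (Nat.cast_nonneg _)
  have hlog : 0 ≤ Real.log (‖tc q‖ * (r + K + T)) :=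
    Real.log_nonneg (one_le_mul_of_one_le_of_one_le hn1 (by linarith))
  have h2 : 0 ≤ T / Real.pi * Real.log (‖tc q‖ * (r + K + T)) :=
    mul_nonneg (div_nonneg (by linarith) Real.pi_pos.le) hlog
  exact mul_le_mul_of_nonneg_right (by linarith) h2

/-- 67.25 per cent -/
theorem hk_6725 (cd : (q : ZI) → MulChar (RQ q) ℂ → ZI)
    (pr : (q : ZI) → MulChar (RQ q) ℂ → (ZI →* ℂ))
    (hprim : ∀ (q : ZI) (_ : q ≠ 0) (χ : MulChar (RQ q) ℂ), PrimData q χ (cd q χ) (pr q χ)) :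
    ∃ η C0 : ℝ, 0 < η ∧ η < 1 / 2 ∧ 1 ≤ C0 ∧ ∀ (q : ZI) (r K : ℕ) (T : ℝ), q ≠ 0 → 1 ≤ r → 1 ≤ K →
      C0 * (1 + Real.sqrt (Real.log (‖tc q‖ * (r + K)))) ≤ T →
      Real.exp (2 * (1 - η) * Real.log (‖tc q‖ * (r + K + T))) ≤ ‖tc q‖ ^ 2 * K * T →
      0 < (Fam q r K).card ∧
      0.6725 * ∑ x ∈ Fam q r K, (NN (LK x.1 (pr q x.2)) T (2 * T) : ℝ) ≤
        ∑ x ∈ Fam q r K, (Ns (LK x.1 (pr q x.2)) T (2 * T) : ℝ) ∧
      0.83625 * ∑ x ∈ Fam q r K, (NN (LK x.1 (pr q x.2)) T (2 * T) : ℝ) ≤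
        ∑ x ∈ Fam q r K, (Nd (LK x.1 (pr q x.2)) T (2 * T) : ℝ) := by
  have hd2 := Rw_const_d2
  have hR0 : 0 ≤ Rw 1.414 0 := Rw_nonneg 1.414 (by norm_num) (by linarith [Real.pi_gt_three]) 0
  have hJ0 := I1_nonneg 1.414 (by norm_num) (by linarith [Real.pi_gt_three])
  set R0 : ℝ := Rw 1.414 0 with hR0d
  set J : ℝ := ∫ α in (0 : ℝ)..1, α * Rw 1.414 α with hJd
  obtain ⟨a, ha0, ha1, hac⟩ : ∃ a : ℝ, 0 < a ∧ a < 1 ∧
      1 / (1 - a) * R0 + 2 * (1 - a) * J < 1.3275 := by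
    have hcont : ContinuousAt (fun a : ℝ => 1 / (1 - a) * R0 + 2 * (1 - a) * J) 0 := by
      have h1 : ContinuousAt (fun a : ℝ => 1 / (1 - a)) 0 := by
        refine ContinuousAt.div continuousAt_const (by fun_prop) (by norm_num)
      exact (h1.mul continuousAt_const).add (by fun_prop)
    have h0 : (fun a : ℝ => 1 / (1 - a) * R0 + 2 * (1 - a) * J) 0 < 1.3275 := by
      simp only [sub_zero]
      linarith
    have h1 := hcont.eventually (gt_mem_nhds h0)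
    have h2 : ∀ᶠ a : ℝ in 𝓝[>] 0, a < 1 := by
      filter_upwards [Ioo_mem_nhdsGT (show (0 : ℝ) < 1 by norm_num)] with a ha
      exact ha.2
    have h3 : ∀ᶠ a : ℝ in 𝓝[>] (0 : ℝ), 0 < a := by
      filter_upwards [self_mem_nhdsWithin] with a ha
      exact ha
    obtain ⟨a, h4, h5, h6⟩ := ((h1.filter_mono nhdsWithin_le_nhds).and (h2.and h3)).exists
    exact ⟨a, h6, h5, h4⟩
  obtain ⟨e, he0, hec⟩ : ∃ e : ℝ, 0 < e ∧ 1 / (1 - a) * R0 + 2 * (1 - a) * J + e ≤ 1.3275 :=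
    ⟨1.3275 - (1 / (1 - a) * R0 + 2 * (1 - a) * J), by linarith, by linarith⟩
  obtain ⟨C0, hC0, H⟩ := hk_core cd pr hprim (1 - a / 2) 1.414 (2 * (1 - a)) e (by linarith)
    (by linarith) (by norm_num) (by linarith [Real.pi_gt_three]) (by linarith) (by linarith) he0
  refine ⟨a / 2, C0, by linarith, by linarith, hC0, ?_⟩
  intro q r K T hq hr hK hT hX
  obtain ⟨r0, r1, r2, -⟩ := H q r K T hq hr hK hT hX
  rw [← hR0d, ← hJd] at r1 r2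
  have hS0 : 0 ≤ ∑ x ∈ Fam q r K, (NN (LK x.1 (pr q x.2)) T (2 * T) : ℝ) :=
    Finset.sum_nonneg fun _ _ => Nat.cast_nonneg _
  have e1 : 2 * R0 / (2 * (1 - a)) = 1 / (1 - a) * R0 := by
    rw [mul_div_mul_left _ _ (by norm_num)]
    ring
  rw [e1] at r1 r2
  have h1 := mul_le_mul_of_nonneg_right hec hS0
  rw [Finset.sum_sub_distrib, ← Finset.mul_sum] at r1
  rw [Finset.sum_sub_distrib, ← Finset.mul_sum, ← Finset.mul_sum] at r2
  exact ⟨r0, by linarith, by linarith⟩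

/-- the choice of the primitive characters -/
theorem exists_prim : ∃ (cd : (q : ZI) → MulChar (RQ q) ℂ → ZI)
    (pr : (q : ZI) → MulChar (RQ q) ℂ → (ZI →* ℂ)),
    ∀ (q : ZI) (_ : q ≠ 0) (χ : MulChar (RQ q) ℂ), PrimData q χ (cd q χ) (pr q χ) := by
  classical
  have h : ∀ (q : ZI) (χ : MulChar (RQ q) ℂ), ∃ (d : ZI) (ψ : ZI →* ℂ), q ≠ 0 →
      PrimData q χ d ψ := by
    intro q χ
    by_cases hq : q = 0
    · exact ⟨1, 1, fun h => absurd hq h⟩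
    · obtain ⟨d, ψ, hd⟩ := prim_data q hq χ
      exact ⟨d, ψ, fun _ => hd⟩
  choose cd pr hp using h
  exact ⟨cd, pr, fun q hq χ => hp q χ hq⟩

end Pool.Agent.Y762.HK
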