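import Pool.Agent.Y762.HK.Param
import Pool.Agent.H385R5.HE8c
import Pool.Agent.W354.FK.Param
import Pool.Agent.W354.PK.FinK
import Pool.Agent.W354.GE.FamAbsE
import Pool.Agent.W354.GE.NLowE

/-!
The core estimate for the family of all the pairs `(k, χ)`, `r ≤ k < r + K`, `χ` modulo `q`.
-/

open Complex Filter Topology Set MeasureTheory
open H370 (zset mult NN Nd Ns)

set_option autoImplicit false
set_option maxHeartbeats 4000000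

namespace Pool.Agent.Y762.HK

open H385 hiding ee ee_norm ee_add SS
open Pool.Agent.H304R3.HK (tc LamK bb one_le_norm_tc)
open Pool.Agent.W354.MS (nrm_real)
open Pool.Agent.W354.PK (HCk LK aK bK lck lck_logC goodK)
open Pool.Agent.W354 (LogC GoodE)
open Pool.Agent.W354.E (fam_abstract_E fam_abstract_d_E N_lower_E)
open Pool.Agent.W354.FK (fk_tail)

/-- average of `log (k + T)` -/
theorem log_avg (x : ℝ) (hx : 1 ≤ x) (K : ℕ) :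
    ∑ j ∈ Finset.range K, (Real.log (x + K) - Real.log (x + j)) ≤ K := by
  induction K with
  | zero => simp
  | succ K ih =>
    have hK : (0 : ℝ) ≤ K := Nat.cast_nonneg K
    have h1 : ∀ j ∈ Finset.range K, (Real.log (x + ((K + 1 : ℕ) : ℝ)) - Real.log (x + j)) =
        (Real.log (x + K) - Real.log (x + j)) +
          (Real.log (x + ((K + 1 : ℕ) : ℝ)) - Real.log (x + K)) := by
      intro j _
      ring
    rw [Finset.sum_range_succ, Finset.sum_congr rfl h1, Finset.sum_add_distrib, Finset.sum_const,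
      Finset.card_range, nsmul_eq_mul]
    have h2 : Real.log (x + ((K + 1 : ℕ) : ℝ)) - Real.log (x + K) ≤ 1 / (x + K) := by
      rw [← Real.log_div (by positivity) (by positivity)]
      have h3 : (x + ((K + 1 : ℕ) : ℝ)) / (x + K) = 1 + 1 / (x + K) := by
        push_cast
        field_simp
        ring
      rw [h3]
      have h4 := Real.log_le_sub_one_of_pos (show 0 < 1 + 1 / (x + K) by positivity)
      linarith
    have h3 : ((K : ℝ) + 1) * (1 / (x + K)) ≤ 1 := by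
      rw [mul_one_div, div_le_one (by positivity)]
      linarith
    have h4 : ((K : ℝ) + 1) * (Real.log (x + ((K + 1 : ℕ) : ℝ)) - Real.log (x + K)) ≤
        ((K : ℝ) + 1) * (1 / (x + K)) := mul_le_mul_of_nonneg_left h2 (by positivity)
    push_cast at *
    linarith

/-- the average of the logarithms of the analytic conductors -/
theorem cond_fam (cd : (q : ZI) → MulChar (RQ q) ℂ → ZI)
    (pr : (q : ZI) → MulChar (RQ q) ℂ → (ZI →* ℂ))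
    (hprim : ∀ (q : ZI) (_ : q ≠ 0) (χ : MulChar (RQ q) ℂ), PrimData q χ (cd q χ) (pr q χ))
    (ε : ℝ) (hε : 0 < ε) :
    ∃ C : ℝ, 0 < C ∧ ∀ (q : ZI) (r K : ℕ) (T : ℝ), q ≠ 0 → 1 ≤ K → 1 ≤ T →
      (phiQ q : ℝ) * K / 8 ≤ (Fam q r K).card →
      ∑ x ∈ Fam q r K, (Real.log (‖tc q‖ * (r + K + T)) - lck x.1 ‖tc (cd q x.2)‖ T) ≤
        (ε * Real.log ‖tc q‖ + C) * ((Fam q r K).card : ℝ) := by
  classical
  obtain ⟨C, hC, h⟩ := cond_all cd pr hprim (ε / 8) (by positivity)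
  refine ⟨8 * C + 8, by positivity, ?_⟩
  intro q r K T hq hK hT hF
  have hQ1 : 1 ≤ ‖tc q‖ := one_le_norm_tc hq
  have hT0 : 0 < T := by linarith
  have hr0 : (0 : ℝ) ≤ r := Nat.cast_nonneg r
  have hK1 : (1 : ℝ) ≤ K := by exact_mod_cast hK
  have hc1 : ∀ χ : MulChar (RQ q) ℂ, (1 : ℝ) ≤ ‖tc (cd q χ)‖ :=
    fun χ => one_le_norm_tc ((hprim q hq χ).ne hq)
  have hcq : ∀ χ : MulChar (RQ q) ℂ, ‖tc (cd q χ)‖ ≤ ‖tc q‖ :=
    fun χ => norm_tc_le_of_dvd _ _ hq (hprim q hq χ).dvd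
  set f : ℕ → ℝ := fun k => Real.log ((r : ℝ) + K + T) - Real.log (k + T) with hf
  set g : MulChar (RQ q) ℂ → ℝ := fun χ => Real.log ‖tc q‖ - Real.log ‖tc (cd q χ)‖ with hg
  have hg0 : ∀ χ, 0 ≤ g χ := by
    intro χ
    have := Real.log_le_log (by linarith [hc1 χ]) (hcq χ)
    simp only [hg]
    linarith
  have hf0 : ∀ k ∈ Finset.Ico r (r + K), 0 ≤ f k := by
    intro k hk
    rw [Finset.mem_Ico] at hk
    have h1 : (k : ℝ) ≤ r + K := by exact_mod_cast hk.2.le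
    have h2 : (0 : ℝ) ≤ k := Nat.cast_nonneg k
    have := Real.log_le_log (show 0 < (k : ℝ) + T by linarith)
      (show (k : ℝ) + T ≤ r + K + T by linarith)
    simp only [hf]
    linarith
  have hsplit : ∀ x : ℕ × MulChar (RQ q) ℂ,
      Real.log (‖tc q‖ * (r + K + T)) - lck x.1 ‖tc (cd q x.2)‖ T = f x.1 + g x.2 := by
    intro x
    have h1 := hc1 x.2
    have h2 : (0 : ℝ) ≤ x.1 := Nat.cast_nonneg _
    unfold lck
    rw [Real.log_mul (by linarith) (by linarith), Real.log_mul (by linarith) (by linarith)]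
    simp only [hf, hg]
    ring
  have h1 : ∑ x ∈ Fam q r K, (Real.log (‖tc q‖ * (r + K + T)) - lck x.1 ‖tc (cd q x.2)‖ T) ≤
      ∑ x ∈ (Finset.Ico r (r + K)) ×ˢ AllC q, (f x.1 + g x.2) := by
    rw [Finset.sum_congr rfl fun x _ => hsplit x]
    unfold Fam
    refine Finset.sum_le_sum_of_subset_of_nonneg (Finset.filter_subset _ _) ?_
    intro x hx _
    rw [Finset.mem_product] at hx
    exact add_nonneg (hf0 _ hx.1) (hg0 _)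
  rw [Finset.sum_add_distrib, Finset.sum_product, Finset.sum_product] at h1
  simp only [Finset.sum_const, nsmul_eq_mul, Nat.card_Ico] at h1
  rw [← Finset.mul_sum, card_AllC q hq] at h1
  have h2 : ∑ k ∈ Finset.Ico r (r + K), f k ≤ K := by
    rw [Finset.sum_Ico_eq_sum_range]
    have e : r + K - r = K := by omega
    rw [e]
    refine le_trans (le_of_eq ?_) (log_avg (r + T) (by linarith) K)
    refine Finset.sum_congr rfl fun j _ => ?_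
    simp only [hf]
    push_cast
    congr 2
    · ring
    · ring
  have h3 := h q hq
  change ∑ χ ∈ AllC q, g χ ≤ _ at h3
  have e : r + K - r = K := by omega
  rw [e] at h1
  have hφ : (0 : ℝ) ≤ phiQ q := Nat.cast_nonneg _
  have hlq : 0 ≤ Real.log ‖tc q‖ := Real.log_nonneg hQ1
  have h4 : (phiQ q : ℝ) * K ≤ 8 * ((Fam q r K).card : ℝ) := by linarith
  calc _ ≤ (phiQ q : ℝ) * ∑ k ∈ Finset.Ico r (r + K), f k + K * ∑ χ ∈ AllC q, g χ := h1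
    _ ≤ (phiQ q : ℝ) * K + K * ((ε / 8 * Real.log ‖tc q‖ + C) * phiQ q) := by gcongr
    _ = (ε / 8 * Real.log ‖tc q‖ + C + 1) * ((phiQ q : ℝ) * K) := by ring
    _ ≤ (ε / 8 * Real.log ‖tc q‖ + C + 1) * (8 * ((Fam q r K).card : ℝ)) :=
        mul_le_mul_of_nonneg_left h4 (by positivity)
    _ = _ := by ring

/-- from the height condition -/
theorem hk_height (LL c : ℝ) (hc : 0 < c) : ∃ C0 : ℝ, 1 ≤ C0 ∧ ∀ (Q r K T : ℝ), 1 ≤ Q → 1 ≤ r →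
    1 ≤ K → C0 * (1 + Real.sqrt (Real.log (Q * (r + K)))) ≤ T →
    LL ≤ Real.log (Q * (r + K + T)) ∧ 1 ≤ T ∧ Real.log T ≤ Real.log (Q * (r + K + T)) ∧
      4 * Real.sqrt (Real.log (Q * (r + K + T))) ≤ c * T ∧
      Real.log Q ≤ Real.log (Q * (r + K + T)) := by
  obtain ⟨C0, hC01, hheight⟩ := he_height LL c hc
  refine ⟨max C0 (max 2 (Real.exp LL)), le_max_of_le_left hC01, ?_⟩
  intro Q r K T hQ1 hr1 hK1 hT
  have hQ0 : 0 < Q := by linarith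
  set Q' : ℝ := Q * (r + K) with hQ'
  have hQ'1 : 1 ≤ Q' := by
    rw [hQ']
    nlinarith
  have hsq := Real.sqrt_nonneg (Real.log Q')
  have hTC : max C0 (max 2 (Real.exp LL)) ≤ T := by
    refine le_trans ?_ hT
    have : 1 ≤ max C0 (max 2 (Real.exp LL)) := le_max_of_le_left hC01
    nlinarith
  have hT' : C0 * (1 + Real.sqrt (Real.log Q')) ≤ T := by
    refine le_trans ?_ hT
    exact mul_le_mul_of_nonneg_right (le_max_left _ _) (by linarith)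
  have hT2 : 2 ≤ T := ((le_max_left _ _).trans (le_max_right _ _)).trans hTC
  have hTe : Real.exp LL ≤ T := ((le_max_right _ _).trans (le_max_right _ _)).trans hTC
  obtain ⟨-, hT1, hκT'⟩ := hheight Q' T hQ'1 hT'
  have hT0 : 0 < T := by linarith
  have hℒle : Real.log (Q * (r + K + T)) ≤ Real.log (Q' * T) := by
    rw [hQ']
    refine Real.log_le_log (by positivity) ?_
    rw [mul_assoc]
    refine mul_le_mul_of_nonneg_left ?_ hQ0.le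
    nlinarith
  have hlogT : Real.log T ≤ Real.log (Q * (r + K + T)) := by
    refine Real.log_le_log hT0 ?_
    nlinarith
  refine ⟨?_, hT1, hlogT, ?_, ?_⟩
  · refine le_trans ?_ hlogT
    rw [Real.le_log_iff_exp_le hT0]
    exact hTe
  · exact (mul_le_mul_of_nonneg_left (Real.sqrt_le_sqrt hℒle) (by norm_num)).trans hκT'
  · refine Real.log_le_log hQ0 ?_
    nlinarith

/-- the number of zeros, for one member of the family -/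
theorem low_one (C2 : ℝ) (hC2 : 0 < C2) (T κ ℒ l Nz : ℝ) (hT0 : 0 < T) (hκ0 : 0 ≤ κ)
    (hℒ0 : 0 < ℒ) (hn : 0 ≤ l) (hl : l ≤ ℒ) (p6 : ℒ ^ 2 * Real.exp (-κ ^ 2 / 2) ≤ 1)
    (h : T / (2 * Real.pi) * (2 * l) - C2 * (T + κ * l + T * l ^ 2 * Real.exp (-κ ^ 2 / 2)) ≤
      Nz) : 2 * (T / (2 * Real.pi) * l - C2 * (T + κ * ℒ)) ≤ Nz := by
  refine le_trans ?_ h
  have a3 : T * l ^ 2 * Real.exp (-κ ^ 2 / 2) ≤ T := by
    have b1 : l ^ 2 ≤ ℒ ^ 2 := pow_le_pow_left₀ hn hl 2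
    have b2 : l ^ 2 * Real.exp (-κ ^ 2 / 2) ≤ 1 :=
      (mul_le_mul_of_nonneg_right b1 (Real.exp_pos _).le).trans p6
    calc _ = T * (l ^ 2 * Real.exp (-κ ^ 2 / 2)) := by ring
      _ ≤ T * 1 := mul_le_mul_of_nonneg_left b2 hT0.le
      _ = T := mul_one T
  have a4 : κ * l ≤ κ * ℒ := mul_le_mul_of_nonneg_left hl hκ0
  have a5 : C2 * (T + κ * l + T * l ^ 2 * Real.exp (-κ ^ 2 / 2)) ≤ 2 * C2 * (T + κ * ℒ) := by
    have hκℒ : 0 ≤ κ * ℒ := by positivity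
    calc _ ≤ C2 * (T + κ * ℒ + T) := mul_le_mul_of_nonneg_left (by linarith) hC2.le
      _ ≤ C2 * (2 * (T + κ * ℒ)) := mul_le_mul_of_nonneg_left (by linarith) hC2.le
      _ = _ := by ring
  linarith

/-- membership facts -/
theorem fam_facts (cd : (q : ZI) → MulChar (RQ q) ℂ → ZI)
    (pr : (q : ZI) → MulChar (RQ q) ℂ → (ZI →* ℂ))
    (hprim : ∀ (q : ZI) (_ : q ≠ 0) (χ : MulChar (RQ q) ℂ), PrimData q χ (cd q χ) (pr q χ))
    (q : ZI) (hq : q ≠ 0) (r K : ℕ) (T : ℝ) (hr : 1 ≤ r) (hT : 1 ≤ T) :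
    ∀ x ∈ Fam q r K, 1 ≤ x.1 ∧ HCk x.1 (cd q x.2) (pr q x.2) ∧ 1 ≤ ‖tc (cd q x.2)‖ ∧
      lck x.1 ‖tc (cd q x.2)‖ T ≤ Real.log (‖tc q‖ * (r + K + T)) := by
  intro x hx
  obtain ⟨⟨h1, h2⟩, h3⟩ := (mem_Fam q hq r K x).1 hx
  have hc1 : (1 : ℝ) ≤ ‖tc (cd q x.2)‖ := one_le_norm_tc ((hprim q hq x.2).ne hq)
  have hcq : ‖tc (cd q x.2)‖ ≤ ‖tc q‖ := norm_tc_le_of_dvd _ _ hq (hprim q hq x.2).dvd
  refine ⟨by omega, (hprim q hq x.2).hck hq x.1 h3, hc1, ?_⟩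
  have h4 : (x.1 : ℝ) ≤ r + K := by exact_mod_cast h2.le
  have h5 : (0 : ℝ) ≤ x.1 := Nat.cast_nonneg _
  unfold lck
  refine Real.log_le_log (by positivity) ?_
  exact mul_le_mul hcq (by linarith) (by positivity) (by linarith)

/-- lower bound for the number of zeros -/
theorem hk_low' (cd : (q : ZI) → MulChar (RQ q) ℂ → ZI)
    (pr : (q : ZI) → MulChar (RQ q) ℂ → (ZI →* ℂ))
    (hprim : ∀ (q : ZI) (_ : q ≠ 0) (χ : MulChar (RQ q) ℂ), PrimData q χ (cd q χ) (pr q χ))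
    (A : ℝ) (hA1 : 1 ≤ A)
    (hgood : ∀ (k : ℕ) (q : GaussianInt) (χ : GaussianInt →* ℂ), 1 ≤ k → HCk k q χ →
      GoodE 2 A (lck k ‖tc q‖) (LK k χ) (aK k χ)) :
    ∃ C2 : ℝ, 0 < C2 ∧ ∀ ε1 : ℝ, 0 < ε1 → ∃ C3 : ℝ, 0 < C3 ∧
      ∀ (q : ZI) (r K : ℕ) (T κ ℒ F : ℝ), q ≠ 0 → 1 ≤ r → 1 ≤ K →
      1 ≤ T → 3 ≤ κ → 8 * κ ≤ T → ℒ = Real.log (‖tc q‖ * (r + K + T)) → 0 < ℒ →
      Real.log ‖tc q‖ ≤ ℒ → C3 ≤ ε1 / 2 * ℒ → F = ((Fam q r K).card : ℝ) → 0 < F →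
      (phiQ q : ℝ) * K / 8 ≤ F → ℒ ^ 2 * Real.exp (-κ ^ 2 / 2) ≤ 1 →
      T / (2 * Real.pi) * ℒ * (1 - ε1) - C2 * (T + κ * ℒ) ≤
        (∑ x ∈ Fam q r K, (1 / F) * (NN (LK x.1 (pr q x.2)) T (2 * T) : ℝ)) / 2 := by
  classical
  obtain ⟨C2, hC2, hlow⟩ := N_lower_E 2 A (by norm_num) hA1
  refine ⟨C2, hC2, fun ε1 hε1 => ?_⟩
  obtain ⟨C3, hC3, hcond3⟩ := cond_fam cd pr hprim (ε1 / 2) (by positivity)
  refine ⟨C3, hC3, ?_⟩
  intro q r K T κ ℒ F hq hr hK hT1 p1 hκ8 hℒd hℒ0 hlq hC3ℒ hFd hF0 q3 p6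
  have hT0 : 0 < T := by linarith
  have hκ0 : 0 ≤ κ := by linarith
  have hcr0 : 0 ≤ 1 / F := div_nonneg zero_le_one hF0.le
  have hff := fam_facts cd pr hprim q hq r K T hr hT1
  have hpt : ∀ x ∈ Fam q r K,
      2 * (T / (2 * Real.pi) * (ℒ - (ℒ - lck x.1 ‖tc (cd q x.2)‖ T)) - C2 * (T + κ * ℒ)) ≤
      (NN (LK x.1 (pr q x.2)) T (2 * T) : ℝ) := by
    intro x hx
    obtain ⟨g1, g2, g3, g4⟩ := hff x hx
    rw [← hℒd] at g4
    have hl := hlow (lck x.1 ‖tc (cd q x.2)‖) (LK x.1 (pr q x.2)) (aK x.1 (pr q x.2))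
      (lck_logC _ g3) (hgood _ _ _ g1 g2) T κ p1 hκ8
    have hn : 0 ≤ lck x.1 ‖tc (cd q x.2)‖ T := (lck_logC _ g3).nonneg hT1
    have e1 : ℒ - (ℒ - lck x.1 ‖tc (cd q x.2)‖ T) = lck x.1 ‖tc (cd q x.2)‖ T := by ring
    rw [e1]
    exact low_one C2 hC2 T κ ℒ _ _ hT0 hκ0 hℒ0 hn g4 p6 hl
  have hsum := Finset.sum_le_sum fun x hx => mul_le_mul_of_nonneg_left (hpt x hx) hcr0
  have hcs := hcond3 q r K T hq hK hT1 (by rw [← hFd]; exact q3)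
  rw [← hℒd, ← hFd] at hcs
  obtain ⟨Sc, hSc⟩ : ∃ Sc : ℝ, Sc = ∑ x ∈ Fam q r K, (ℒ - lck x.1 ‖tc (cd q x.2)‖ T) := ⟨_, rfl⟩
  rw [← hSc] at hcs
  have e2 : ∑ x ∈ Fam q r K, (1 / F) *
      (2 * (T / (2 * Real.pi) * (ℒ - (ℒ - lck x.1 ‖tc (cd q x.2)‖ T)) - C2 * (T + κ * ℒ))) =
      2 * (T / (2 * Real.pi) * (ℒ - Sc / F) - C2 * (T + κ * ℒ)) := by
    rw [← Finset.mul_sum, ← Finset.mul_sum, Finset.sum_sub_distrib, ← Finset.mul_sum,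
      Finset.sum_sub_distrib, ← hSc, Finset.sum_const, Finset.sum_const, nsmul_eq_mul,
      nsmul_eq_mul, ← hFd]
    exact he_aux F _ ℒ Sc _ hF0.ne'
  rw [e2] at hsum
  have hSc2 : Sc / F ≤ ε1 * ℒ := by
    rw [div_le_iff₀ hF0]
    refine hcs.trans (mul_le_mul_of_nonneg_right ?_ hF0.le)
    have h4 : ε1 / 2 * Real.log ‖tc q‖ ≤ ε1 / 2 * ℒ := mul_le_mul_of_nonneg_left hlq (by positivity)
    linarith
  have h5 : T / (2 * Real.pi) * ℒ * (1 - ε1) ≤ T / (2 * Real.pi) * (ℒ - Sc / F) := by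
    have : T / (2 * Real.pi) * ℒ * (1 - ε1) = T / (2 * Real.pi) * (ℒ - ε1 * ℒ) := by ring
    rw [this]
    exact mul_le_mul_of_nonneg_left (by linarith) (by positivity)
  linarith

/-- the final inequality for the number of zeros -/
theorem low_final (C2 ε ε1 T κ ℒ F SN : ℝ) (hC2 : 0 < C2) (hε : 0 < ε) (hε1 : ε1 ≤ ε / 4)
    (hT0 : 0 < T) (hℒ0 : 0 < ℒ) (hF0 : 0 < F) (h1 : 32 * C2 ≤ ε * ℒ) (h2 : C2 * κ ≤ ε / 32 * T)
    (h : T / (2 * Real.pi) * ℒ * (1 - ε1) - C2 * (T + κ * ℒ) ≤ SN / 2) :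
    (1 - ε) * (T / Real.pi * ℒ) * F ≤ F * SN := by
  have b1 : (1 - ε) * (T / Real.pi * ℒ) ≤ SN := by
    have hpi := Real.pi_pos
    have hpi4 := Real.pi_lt_four
    have e0 : T / (2 * Real.pi) * ℒ = (T / Real.pi * ℒ) / 2 := by
      field_simp
    rw [e0] at h
    obtain ⟨M, hM⟩ : ∃ M : ℝ, M = T / Real.pi * ℒ := ⟨_, rfl⟩
    rw [← hM] at h ⊢
    have hM0 : 0 ≤ M := by rw [hM]; positivity
    have hTM : T * ℒ ≤ 4 * M := by
      have : T / 4 ≤ T / Real.pi := div_le_div_of_nonneg_left hT0.le hpi (by linarith)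
      have h2 := mul_le_mul_of_nonneg_right this hℒ0.le
      rw [hM]
      linarith
    have c1 : C2 * T ≤ ε / 32 * (T * ℒ) := by
      have h4 := mul_le_mul_of_nonneg_right h1 hT0.le
      linarith
    have c2 : C2 * (κ * ℒ) ≤ ε / 32 * (T * ℒ) := by
      have h4 := mul_le_mul_of_nonneg_right h2 hℒ0.le
      linarith
    have c3 : ε1 * M ≤ ε / 4 * M := mul_le_mul_of_nonneg_right hε1 hM0
    have c4 : ε / 32 * (T * ℒ) ≤ ε / 32 * (4 * M) :=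
      mul_le_mul_of_nonneg_left hTM (by positivity)
    have c5 : 0 ≤ ε * M := by positivity
    have c6 : C2 * (T + κ * ℒ) = C2 * T + C2 * (κ * ℒ) := by ring
    rw [c6] at h
    have c7 : M / 2 * (1 - ε1) = M / 2 - ε1 * M / 2 := by ring
    rw [c7] at h
    linarith
  calc (1 - ε) * (T / Real.pi * ℒ) * F ≤ SN * F := mul_le_mul_of_nonneg_right b1 hF0.le
    _ = F * SN := mul_comm _ _

/-- the mean square and its majorant for the family -/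
theorem hk_ms (cd : (q : ZI) → MulChar (RQ q) ℂ → ZI)
    (pr : (q : ZI) → MulChar (RQ q) ℂ → (ZI →* ℂ))
    (hprim : ∀ (q : ZI) (_ : q ≠ 0) (χ : MulChar (RQ q) ℂ), PrimData q χ (cd q χ) (pr q χ))
    (h γ β ε1 : ℝ) (hh : 1 / 2 < h) (hh1 : h ≤ 1) (h0 : 0 < γ) (hπ : γ < Real.pi) (hβ : 0 < β)
    (hβ1 : β < 2 * h) (hε : 0 < ε1) :
    ∃ L0 εs : ℝ, 1 ≤ L0 ∧ 0 < εs ∧ ∀ (q : ZI) (r K : ℕ) (T κ ℒ : ℝ), q ≠ 0 → 1 ≤ r →
      1 ≤ K → 1 ≤ T → L0 ≤ ℒ → ℒ = Real.log (‖tc q‖ * (r + K + T)) → Real.log ‖tc q‖ ≤ ℒ →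
      Real.exp (2 * h * ℒ) ≤ ‖tc q‖ ^ 2 * K * T → 1 ≤ κ → T ≤ Real.exp (κ ^ 2) → κ ≤ εs * T →
      0 < (Fam q r K).card ∧ (phiQ q : ℝ) * K / 8 ≤ (Fam q r K).card ∧
      ∃ (Y : ℝ → ℝ) (y1 y2 : ℝ), 0 ≤ y1 ∧ 0 ≤ y2 ∧
        Real.sqrt y1 + Real.sqrt y2 ≤ ε1 * ℒ ∧
        (∀ u ∈ Set.Icc 0 (β * ℒ), Y u ≤ T * (y1 * (u + 1) + y2)) ∧
        (2 / (Real.sqrt Real.pi * (β * ℒ))) *
          (∫ u in (0 : ℝ)..(β * ℒ), Rw γ (u / (β * ℒ)) * Y u) ≤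
          T / (2 * Real.pi) * ℒ * (2 * β * (∫ α in (0 : ℝ)..1, α * Rw γ α) + ε1) ∧
        IntervalIntegrable Y volume 0 (β * ℒ) ∧
        ∀ u ∈ Set.Icc 0 (β * ℒ), ∫ t : ℝ, ∑ x ∈ Fam q r K, (1 / ((Fam q r K).card : ℝ)) *
          ‖∑' n : ℕ, aK x.1 (pr q x.2) n * ((Real.sqrt n : ℂ)⁻¹ * bt T u t (Real.log n))‖ ^ 2 ≤
          Y u := by
  classical
  obtain ⟨CS0, hCS0, hS, hcK, hlam⟩ := selb_cK
  set J0 : ℝ := ∫ α in (0 : ℝ)..1, α * Rw γ α with hJ0d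
  have hJ00 : 0 ≤ J0 := I1_nonneg γ h0 hπ
  have hβ2 : β < 2 := by linarith
  obtain ⟨C5, hC5, hint⟩ := full_ms
  obtain ⟨δ, hδ, hδ1, hδ2⟩ : ∃ δ : ℝ, 0 < δ ∧ δ ≤ 1 ∧ 2 * β * J0 * δ ≤ ε1 / 4 := by
    refine ⟨min 1 (ε1 / 4 / (2 * β * J0 + 1)), lt_min one_pos (by positivity), min_le_left _ _, ?_⟩
    calc 2 * β * J0 * min 1 (ε1 / 4 / (2 * β * J0 + 1)) ≤
        (2 * β * J0 + 1) * (ε1 / 4 / (2 * β * J0 + 1)) := by
          gcongr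
          · linarith
          · exact min_le_right _ _
      _ = ε1 / 4 := by field_simp
  obtain ⟨L1, hL1, hpoint⟩ := YH_point cK CS0 hS ε1 C5 hε hC5 δ hδ hδ1
  obtain ⟨L2, η2, hL2, hη2, hYint⟩ := YH_integral cK CS0 hS γ β ε1 C5 h0 hπ hβ hβ2 hε hC5 δ
    hδ hδ1 hδ2
  set s : ℝ := (2 * h - β) / 4 with hs
  have hs0 : 0 < s := by rw [hs]; linarith
  have hβs : β = 2 * h - 4 * s := by rw [hs]; ring
  obtain ⟨L3, hL3, htail⟩ := fk_tail s hs0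
  set εs : ℝ := min (1 / 4) η2 with hεs
  have hεs0 : 0 < εs := lt_min (by norm_num) hη2
  have hεs1 : εs ≤ 1 / 4 := min_le_left _ _
  have hεs2 : εs ≤ η2 := min_le_right _ _
  obtain ⟨L4, hL4, hpar⟩ := hk_param h s (εs / 8) hh hh1 hs0 (by positivity)
  refine ⟨L1 + L2 + L3 + L4, εs, by linarith, hεs0, ?_⟩
  intro q r K T κ ℒ hq hr hK hT1 hL hℒd hlq hX hκ1 hκ2 hκs
  have hT0 : 0 < T := by linarith
  have hℒL1 : L1 ≤ ℒ := by linarith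
  have hℒL2 : L2 ≤ ℒ := by linarith
  have hℒL3 : L3 ≤ ℒ := by linarith
  have hℒL4 : L4 ≤ ℒ := by linarith
  have hℒ0 : 0 < ℒ := by linarith
  obtain ⟨N, hN1, hNb, hN⟩ := htail (β * ℒ) ℒ hℒL3 (by positivity)
    (mul_le_mul_of_nonneg_right hβ2.le hℒ0.le)
  have hNb' : (N : ℝ) ≤ 2 * Real.exp ((2 * h - 4 * s) * ℒ + s * ℒ) := by
    rw [← hβs]
    exact hNb
  obtain ⟨q1, q2, q3, q4, q5⟩ := hpar q r K N T ℒ hq hK hT1 hℒL4 hℒd hX hN1 hNb'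
  refine ⟨q4, q3, ?_⟩
  obtain ⟨F, hFd⟩ : ∃ F : ℝ, F = ((Fam q r K).card : ℝ) := ⟨_, rfl⟩
  have hF0 : 0 < F := by rw [hFd]; exact_mod_cast q4
  have hφ0 : (0 : ℝ) ≤ phiQ q := Nat.cast_nonneg _
  have hρ : (phiQ q : ℝ) * K / 4 ≤ (1 + εs) * ((Fam q r K).card : ℝ) := by
    refine q2.trans ?_
    refine mul_le_mul_of_nonneg_right ?_ (Nat.cast_nonneg _)
    linarith
  have hODb : (phiQ q : ℝ) * Lg N ^ 2 * OD q N T K ≤ εs * T * ((Fam q r K).card : ℝ) := by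
    calc (phiQ q : ℝ) * Lg N ^ 2 * OD q N T K = (phiQ q : ℝ) * (Lg N ^ 2 * OD q N T K) := by ring
      _ ≤ (phiQ q : ℝ) * (εs / 8 * (T * K)) := mul_le_mul_of_nonneg_left q1 hφ0
      _ = εs * T * ((phiQ q : ℝ) * K / 8) := by ring
      _ ≤ _ := mul_le_mul_of_nonneg_left q3 (by positivity)
  have hκY0 : 0 ≤ εs * T := by positivity
  have hκY1 : εs * T ≤ T := by nlinarith
  have hκY2 : εs * T ≤ η2 * T := mul_le_mul_of_nonneg_right hεs2 hT0.le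
  have hnq1 : 1 ≤ nrm q := nrm_pos hq
  have hlogn : Real.log ((nrm q : ℕ) : ℝ) ≤ 2 * ℒ := by
    rw [nrm_real, Real.log_pow]
    push_cast
    linarith
  obtain ⟨y1, y2, hy1, hy2, m2', m5⟩ := hpoint (nrm q) T (εs * T) ℒ hnq1 hT1 hℒL1 hlogn hκY0 hκY1
  have m4 := hYint (nrm q) T (εs * T) ℒ hnq1 hT1 hℒL2 hlogn hκY0 hκY2
  refine ⟨YH cK δ C5 (nrm q) T (εs * T), y1, y2, hy1, hy2, m5, fun u hu => m2' u hu.1, m4,
    (YH_cont _ CS0 hS _ _ _ _ _).intervalIntegrable _ _, ?_⟩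
  intro u hu
  exact hint q r K N (cd q) (pr q) T κ εs δ u hq (hprim q hq) hN1 hκ1 hT1 hκ2 hu.1 hδ
    hεs0.le (by linarith) (hN u hu) q4 hκs hρ hODb

/-- the core estimate -/
theorem hk_core (cd : (q : ZI) → MulChar (RQ q) ℂ → ZI)
    (pr : (q : ZI) → MulChar (RQ q) ℂ → (ZI →* ℂ))
    (hprim : ∀ (q : ZI) (_ : q ≠ 0) (χ : MulChar (RQ q) ℂ), PrimData q χ (cd q χ) (pr q χ))
    (h γ β ε : ℝ) (hh : 1 / 2 < h) (hh1 : h ≤ 1) (h0 : 0 < γ) (hπ : γ < Real.pi) (hβ : 0 < β)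
    (hβ1 : β < 2 * h) (hε : 0 < ε) :
    ∃ C0 : ℝ, 1 ≤ C0 ∧ ∀ (q : ZI) (r K : ℕ) (T : ℝ), q ≠ 0 → 1 ≤ r → 1 ≤ K →
      C0 * (1 + Real.sqrt (Real.log (‖tc q‖ * (r + K)))) ≤ T →
      Real.exp (2 * h * Real.log (‖tc q‖ * (r + K + T))) ≤ ‖tc q‖ ^ 2 * K * T →
      0 < (Fam q r K).card ∧
      (∑ x ∈ Fam q r K, (2 * (NN (LK x.1 (pr q x.2)) T (2 * T) : ℝ) -
          (Ns (LK x.1 (pr q x.2)) T (2 * T) : ℝ)) ≤
        (2 * Rw γ 0 / β + β * (∫ α in (0 : ℝ)..1, α * Rw γ α) + ε) *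
        ∑ x ∈ Fam q r K, (NN (LK x.1 (pr q x.2)) T (2 * T) : ℝ)) ∧
      (∑ x ∈ Fam q r K, (3 * (NN (LK x.1 (pr q x.2)) T (2 * T) : ℝ) -
          2 * (Nd (LK x.1 (pr q x.2)) T (2 * T) : ℝ)) ≤
        (2 * Rw γ 0 / β + β * (∫ α in (0 : ℝ)..1, α * Rw γ α) + ε) *
        ∑ x ∈ Fam q r K, (NN (LK x.1 (pr q x.2)) T (2 * T) : ℝ)) ∧
      (1 - ε) * (T / Real.pi * Real.log (‖tc q‖ * (r + K + T))) * ((Fam q r K).card : ℝ) ≤
        ∑ x ∈ Fam q r K, (NN (LK x.1 (pr q x.2)) T (2 * T) : ℝ) := by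
  classical
  obtain ⟨A, hA1, hgood⟩ := goodK
  have hgood' : ∀ (k : ℕ) (q : GaussianInt) (χ : GaussianInt →* ℂ), 1 ≤ k → HCk k q χ →
      GoodE 2 A (lck k ‖tc q‖) (LK k χ) (aK k χ) := fun k q χ hk H => (hgood k q χ hk H).2.2.2
  obtain ⟨C1, hC1, hfam⟩ := fam_abstract_E γ h0 hπ 2 A (by norm_num) hA1
  obtain ⟨C1', hC1', hfam'⟩ := fam_abstract_d_E γ h0 hπ 2 A (by norm_num) hA1
  set J0 : ℝ := ∫ α in (0 : ℝ)..1, α * Rw γ α with hJ0d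
  have hJ00 : 0 ≤ J0 := I1_nonneg γ h0 hπ
  have hR0 : 0 ≤ Rw γ 0 := Rw_nonneg γ h0 hπ 0
  set CC : ℝ := max C1 C1' with hCC
  have hCC0 : 0 < CC := lt_max_of_lt_left hC1
  have hβ2 : β < 2 := by linarith
  -- the constant of the lower bound does not depend on its parameter
  obtain ⟨C2, hC2, hlowall⟩ : ∃ C2 : ℝ, 0 < C2 ∧ ∀ ε1 : ℝ, 0 < ε1 → ∃ C3 : ℝ, 0 < C3 ∧
      ∀ (q : ZI) (r K : ℕ) (T κ ℒ F : ℝ), q ≠ 0 → 1 ≤ r → 1 ≤ K →
      1 ≤ T → 3 ≤ κ → 8 * κ ≤ T → ℒ = Real.log (‖tc q‖ * (r + K + T)) → 0 < ℒ →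
      Real.log ‖tc q‖ ≤ ℒ → C3 ≤ ε1 / 2 * ℒ → F = ((Fam q r K).card : ℝ) → 0 < F →
      (phiQ q : ℝ) * K / 8 ≤ F → ℒ ^ 2 * Real.exp (-κ ^ 2 / 2) ≤ 1 →
      T / (2 * Real.pi) * ℒ * (1 - ε1) - C2 * (T + κ * ℒ) ≤
        (∑ x ∈ Fam q r K, (1 / F) * (NN (LK x.1 (pr q x.2)) T (2 * T) : ℝ)) / 2 :=
    hk_low' cd pr hprim A hA1 hgood'
  obtain ⟨ε1a, L0, hε1a, hL0, hnum⟩ := cyc_num (4 * Rw γ 0) (2 * β * J0) β (2 * ε) CC C2
    (by positivity) (by positivity) hβ (by positivity) hCC0 hC2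
  -- a smaller parameter
  set ε1 : ℝ := min ε1a (ε / 4) with hε1d
  have hε1 : 0 < ε1 := lt_min hε1a (by positivity)
  have hε1le : ε1 ≤ ε1a := min_le_left _ _
  have hε1ε : ε1 ≤ ε / 4 := min_le_right _ _
  obtain ⟨C3, hC3, hlow⟩ := hlowall ε1 hε1
  obtain ⟨L1, εs, hL1, hεs0, hms⟩ := hk_ms cd pr hprim h γ β ε1 hh hh1 h0 hπ hβ hβ1 hε1
  obtain ⟨C0, hC01, hheight⟩ := hk_height (L0 + L1 + 1 / β + 2 * C3 / ε1 + 32 * C2 / ε)
    (min (min (min ε1 εs) (1 / 8)) (ε / (32 * (C2 + 1)))) (by positivity)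
  refine ⟨C0, hC01, ?_⟩
  intro q r K T hq hr hK hT hX
  obtain ⟨ℒ, hℒd⟩ : ∃ ℒ : ℝ, ℒ = Real.log (‖tc q‖ * (r + K + T)) := ⟨_, rfl⟩
  obtain ⟨hLL, hT1, hlogT, hκT, hlq⟩ := hheight ‖tc q‖ r K T (one_le_norm_tc hq)
    (by exact_mod_cast hr) (by exact_mod_cast hK) hT
  rw [← hℒd] at hLL hlogT hκT hlq hX ⊢
  clear hheight hT hlowall
  have hT0 : 0 < T := by linarith
  have hβi : 0 < 1 / β := by positivity
  have hCi : 0 < 2 * C3 / ε1 := by positivity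
  have hCj : 0 < 32 * C2 / ε := by positivity
  have hℒL0 : L0 ≤ ℒ := by linarith
  have hℒ1 : 1 ≤ ℒ := hL0.trans hℒL0
  have hℒL1 : L1 ≤ ℒ := by linarith
  have hℒC3 : C3 ≤ ε1 / 2 * ℒ := by
    have h1 : 2 * C3 / ε1 ≤ ℒ := by linarith
    rw [div_le_iff₀ hε1] at h1
    linarith
  have hℒC2 : 32 * C2 ≤ ε * ℒ := by
    have h1 : 32 * C2 / ε ≤ ℒ := by linarith
    rw [div_le_iff₀ hε] at h1
    linarith
  have hΛ1 : 1 ≤ β * ℒ := by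
    have : 1 / β ≤ ℒ := by linarith
    rw [div_le_iff₀ hβ] at this
    linarith
  have hℒ0 : 0 < ℒ := by linarith
  obtain ⟨κ, hκd⟩ : ∃ κ : ℝ, κ = 4 * Real.sqrt ℒ := ⟨_, rfl⟩
  rw [← hκd] at hκT
  have hTℒ : T ≤ Real.exp ℒ := by
    calc T = Real.exp (Real.log T) := (Real.exp_log hT0).symm
      _ ≤ _ := Real.exp_le_exp.mpr hlogT
  obtain ⟨p1, p2, p3, p4, p5, p6⟩ := he_param β ℒ T κ hβ2 hℒ1 hκd hTℒ
  have hκ0 : 0 ≤ κ := le_trans (by norm_num) p1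
  have hκ1 : κ ≤ ε1 * T := hκT.trans (by
    refine mul_le_mul_of_nonneg_right ?_ hT0.le
    exact ((min_le_left _ _).trans (min_le_left _ _)).trans (min_le_left _ _))
  have hκs : κ ≤ εs * T := hκT.trans (by
    refine mul_le_mul_of_nonneg_right ?_ hT0.le
    exact ((min_le_left _ _).trans (min_le_left _ _)).trans (min_le_right _ _))
  have hκ8 : 8 * κ ≤ T := by
    have : κ ≤ 1 / 8 * T := hκT.trans (by
      refine mul_le_mul_of_nonneg_right ?_ hT0.le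
      exact (min_le_left _ _).trans (min_le_right _ _))
    linarith
  have hκC2 : C2 * κ ≤ ε / 32 * T := by
    have h1 : κ ≤ ε / (32 * (C2 + 1)) * T := hκT.trans (by
      refine mul_le_mul_of_nonneg_right ?_ hT0.le
      exact min_le_right _ _)
    calc C2 * κ ≤ (C2 + 1) * (ε / (32 * (C2 + 1)) * T) := by
          refine mul_le_mul (by linarith) h1 hκ0 (by linarith)
      _ = ε / 32 * T := by field_simp
  obtain ⟨q4, q3, Y, y1, y2, hy1, hy2, m5, m2, m4, m3, m1⟩ := hms q r K T κ ℒ hq hr hK hT1 hℒL1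
    hℒd hlq hX (le_trans (by norm_num) p1) p4 hκs
  obtain ⟨F, hFd⟩ : ∃ F : ℝ, F = ((Fam q r K).card : ℝ) := ⟨_, rfl⟩
  rw [← hFd] at m1 q3 ⊢
  have hF0 : 0 < F := by rw [hFd]; exact_mod_cast q4
  have hcr0 : 0 ≤ 1 / F := div_nonneg zero_le_one hF0.le
  have hW : ∑ _x ∈ Fam q r K, (1 / F) = 1 := by
    rw [Finset.sum_const, nsmul_eq_mul, ← hFd]
    exact mul_one_div_cancel hF0.ne'
  have hff := fam_facts cd pr hprim q hq r K T hr hT1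
  have hdata : ∀ x ∈ Fam q r K, 0 ≤ (1 / F) ∧ LogC (lck x.1 ‖tc (cd q x.2)‖) ∧
      GoodE 2 A (lck x.1 ‖tc (cd q x.2)‖) (LK x.1 (pr q x.2)) (aK x.1 (pr q x.2)) ∧
      lck x.1 ‖tc (cd q x.2)‖ T ≤ ℒ := by
    intro x hx
    obtain ⟨g1, g2, g3, g4⟩ := hff x hx
    rw [← hℒd] at g4
    exact ⟨hcr0, lck_logC _ g3, hgood' _ _ _ g1 g2, g4⟩
  have k1 := hfam (Fam q r K) (fun _ => 1 / F) (fun x => lck x.1 ‖tc (cd q x.2)‖)
    (fun x => LK x.1 (pr q x.2)) (fun x => aK x.1 (pr q x.2)) T κ (β * ℒ) ℒ y1 y2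
    Y hdata p1 hκ8 p3 hΛ1 hℒ1 p5 hy1 hy2 m1 m2 m3
  have k2 := hfam' (Fam q r K) (fun _ => 1 / F) (fun x => lck x.1 ‖tc (cd q x.2)‖)
    (fun x => LK x.1 (pr q x.2)) (fun x => aK x.1 (pr q x.2)) T κ (β * ℒ) ℒ y1 y2
    Y hdata p1 hκ8 p3 hΛ1 hℒ1 p5 hy1 hy2 m1 m2 m3
  have hNlow := hlow q r K T κ ℒ F hq hr hK hT1 p1 hκ8 hℒd hℒ0 hlq hℒC3 hFd hF0 q3 p6
  clear hlow hms hfam hfam' hdata m1 m2 m3 hff hgood hgood'
  obtain ⟨SN, hSN⟩ : ∃ SN : ℝ, SN = ∑ x ∈ Fam q r K, (1 / F) *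
    (NN (LK x.1 (pr q x.2)) T (2 * T) : ℝ) := ⟨_, rfl⟩
  rw [← hSN] at hNlow
  have hFS : F * SN = ∑ x ∈ Fam q r K, (NN (LK x.1 (pr q x.2)) T (2 * T) : ℝ) := by
    rw [hSN, ← Finset.mul_sum, ← mul_assoc, mul_one_div_cancel hF0.ne', one_mul]
  have hTℒ0 : 0 ≤ T / (2 * Real.pi) * ℒ := by
    have := Real.pi_pos
    exact mul_nonneg (div_nonneg hT0.le (by positivity)) hℒ0.le
  have hNlowa : T / (2 * Real.pi) * ℒ * (1 - ε1a) - C2 * (T + κ * ℒ) ≤ SN / 2 := by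
    refine le_trans ?_ hNlow
    exact sub_le_sub_right (mul_le_mul_of_nonneg_left (sub_le_sub_left hε1le 1) hTℒ0) _
  have m4a : (2 / (Real.sqrt Real.pi * (β * ℒ))) *
      (∫ u in (0 : ℝ)..(β * ℒ), Rw γ (u / (β * ℒ)) * Y u) ≤
      T / (2 * Real.pi) * ℒ * (2 * β * J0 + ε1a) := by
    refine m4.trans ?_
    exact mul_le_mul_of_nonneg_left (add_le_add_right hε1le _) hTℒ0
  have hκ1a : κ ≤ ε1a * T := hκ1.trans (mul_le_mul_of_nonneg_right hε1le hT0.le)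
  have m5a : Real.sqrt y1 + Real.sqrt y2 ≤ ε1a * ℒ :=
    m5.trans (mul_le_mul_of_nonneg_right hε1le hℒ0.le)
  have core : ∀ (D SM : ℝ), 0 < D → D ≤ CC →
      SM ≤ (∑ _x ∈ Fam q r K, (1 / F)) * (2 * ℒ) ^ 2 * Rw γ 0 * T /
          (2 * Real.pi * (β * ℒ)) +
        (2 / (Real.sqrt Real.pi * (β * ℒ))) *
          (∫ u in (0 : ℝ)..(β * ℒ), Rw γ (u / (β * ℒ)) * Y u) +
        D * ((∑ _x ∈ Fam q r K, (1 / F)) *
          (ℒ ^ 2 * κ / (β * ℒ) + ℒ * T / (β * ℒ) + κ * ℒ) +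
          Real.sqrt (∑ _x ∈ Fam q r K, (1 / F)) * ℒ * T *
            (Real.sqrt y1 + Real.sqrt y2) / (β * ℒ)) →
      F * SM ≤ (2 * Rw γ 0 / β + β * J0 + ε) *
        ∑ x ∈ Fam q r K, (NN (LK x.1 (pr q x.2)) T (2 * T) : ℝ) := by
    intro D SM hD hDC hSM
    rw [hW, Real.sqrt_one, one_mul, one_mul, one_mul] at hSM
    have h1 : SM ≤ (4 * Rw γ 0 / β + 2 * β * J0 + 2 * ε) * (SN / 2) := by
      refine hnum T ℒ κ (Real.sqrt y1 + Real.sqrt y2) _ SM _ hT0 hℒL0 hκ0 hκ1a m5a m4a ?_ hNlowa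
      refine hSM.trans ?_
      have hb : 0 ≤ (ℒ ^ 2 * κ / (β * ℒ) + ℒ * T / (β * ℒ) + κ * ℒ) +
          ℒ * T * (Real.sqrt y1 + Real.sqrt y2) / (β * ℒ) := by positivity
      have h2 := mul_le_mul_of_nonneg_right hDC hb
      have e : (2 * ℒ) ^ 2 * Rw γ 0 * T = ℒ ^ 2 * (4 * Rw γ 0) * T := by ring
      rw [e]
      exact add_le_add_right h2 _
    have h2 : (4 * Rw γ 0 / β + 2 * β * J0 + 2 * ε) * (SN / 2) =
        (2 * Rw γ 0 / β + β * J0 + ε) * SN := by ring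
    rw [h2] at h1
    calc F * SM ≤ F * ((2 * Rw γ 0 / β + β * J0 + ε) * SN) :=
          mul_le_mul_of_nonneg_left h1 hF0.le
      _ = (2 * Rw γ 0 / β + β * J0 + ε) * (F * SN) := by ring
      _ = _ := by rw [hFS]
  refine ⟨q4, ?_, ?_, ?_⟩
  · have := core C1 _ hC1 (le_max_left _ _) k1
    refine le_trans (le_of_eq ?_) this
    rw [← Finset.mul_sum, ← mul_assoc, mul_one_div_cancel hF0.ne', one_mul]
  · have := core C1' _ hC1' (le_max_right _ _) k2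
    refine le_trans (le_of_eq ?_) this
    rw [← Finset.mul_sum, ← mul_assoc, mul_one_div_cancel hF0.ne', one_mul]
  · rw [← hFS]
    exact low_final C2 ε ε1 T κ ℒ F SN hC2 hε hε1ε hT0 hℒ0 hF0 hℒC2 hκC2 hNlow

end Pool.Agent.Y762.HK
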