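import Pool.Agent.Y762.HK.CountD
import Pool.Agent.H304R3.HK.LgB

/-!
Sums over Gaussian integers by cells, and the number of divisors of a Gaussian integer.
-/

open Finset

set_option autoImplicit false
set_option maxHeartbeats 4000000

namespace Pool.Agent.Y762.HK

open H385 (ZI im1 BX nrm)
open Pool.Agent.H304R3.HK (tc tc_star_mul tc_ne_zero one_le_norm_tc bb CS UH lg_bb)
open Pool.Agent.W354.MS (nrm_real ne_zero_of_nrm tc_sub uu uu_norm)

theorem mi_anti {M x y : ℝ} (hx : 0 ≤ x) (hxy : x ≤ y) : mi M y ≤ mi M x := by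
  unfold mi
  by_cases h1 : x = 0
  · rw [if_pos h1]
    split_ifs
    · exact le_rfl
    · exact min_le_left _ _
  · have hx0 : 0 < x := lt_of_le_of_ne hx (Ne.symm h1)
    have hy0 : 0 < y := lt_of_lt_of_le hx0 hxy
    rw [if_neg h1, if_neg hy0.ne']
    exact min_le_min_left _ (inv_anti₀ hx0 hxy)

/-- the coordinates of `q w / |q|` -/
noncomputable def cx (q w : ZI) : ℝ := ((q * w).re : ℝ) / ‖tc q‖

/-- the coordinates of `q w / |q|` -/
noncomputable def cy (q w : ZI) : ℝ := ((q * w).im : ℝ) / ‖tc q‖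

theorem nrm_mul' (a b : ZI) : (nrm (a * b) : ℝ) = nrm a * nrm b := by
  have h := H385.HE4.nrm_cast (a * b)
  have h1 := nrm_int a
  have h2 := nrm_int b
  have h3 : ((nrm (a * b) : ℕ) : ℤ) = (nrm a : ℤ) * nrm b := by
    rw [nrm_int, h1, h2]
    simp only [Zsqrtd.re_mul, Zsqrtd.im_mul]
    ring
  exact_mod_cast h3

theorem cxy (q w : ZI) (hq : q ≠ 0) : cx q w ^ 2 + cy q w ^ 2 = ‖tc w‖ ^ 2 := by
  have hq0 := tc_pos hq
  have h1 : ((q * w).re : ℝ) ^ 2 + ((q * w).im : ℝ) ^ 2 = ‖tc q‖ ^ 2 * ‖tc w‖ ^ 2 := by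
    rw [← nrm_real, ← nrm_real, ← nrm_mul']
    have := nrm_int (q * w)
    exact_mod_cast this.symm
  unfold cx cy
  rw [div_pow, div_pow, ← add_div, h1]
  field_simp

theorem cx_le (q w : ZI) (hq : q ≠ 0) : |cx q w| ≤ ‖tc w‖ := by
  have h := cxy q w hq
  refine abs_le_of_sq_le_sq ?_ (norm_nonneg _)
  nlinarith [sq_nonneg (cy q w)]

theorem cy_le (q w : ZI) (hq : q ≠ 0) : |cy q w| ≤ ‖tc w‖ := by
  have h := cxy q w hq
  refine abs_le_of_sq_le_sq ?_ (norm_nonneg _)
  nlinarith [sq_nonneg (cx q w)]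

/-- the cell of a Gaussian integer -/
noncomputable def cell (q w : ZI) : (ℤ × ℤ) × (ℤ × ℤ) :=
  ((⌊cx q w⌋, ⌊cy q w⌋), (w.re % 2, w.im % 2))

theorem cell_inj (q : ZI) (hq : q ≠ 0) : Function.Injective (cell q) := by
  intro w w' h
  unfold cell at h
  simp only [Prod.mk.injEq] at h
  obtain ⟨⟨h1, h2⟩, h3, h4⟩ := h
  have e1 := Int.abs_sub_lt_one_of_floor_eq_floor h1
  have e2 := Int.abs_sub_lt_one_of_floor_eq_floor h2
  have hq0 := tc_pos hq
  have ex : cx q w - cx q w' = cx q (w - w') := by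
    unfold cx
    rw [mul_sub, Zsqrtd.re_sub]
    push_cast
    ring
  have ey : cy q w - cy q w' = cy q (w - w') := by
    unfold cy
    rw [mul_sub, Zsqrtd.im_sub]
    push_cast
    ring
  rw [ex] at e1
  rw [ey] at e2
  have h5 := cxy q (w - w') hq
  have h6 : ‖tc (w - w')‖ ^ 2 < 2 := by
    rw [← h5]
    have a1 : cx q (w - w') ^ 2 < 1 := by
      rw [← sq_abs]
      nlinarith [abs_nonneg (cx q (w - w'))]
    have a2 : cy q (w - w') ^ 2 < 1 := by
      rw [← sq_abs]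
      nlinarith [abs_nonneg (cy q (w - w'))]
    linarith
  rw [← nrm_real] at h6
  have h7 : nrm (w - w') < 2 := by exact_mod_cast h6
  have h8 := nrm_int (w - w')
  rw [Zsqrtd.re_sub, Zsqrtd.im_sub] at h8
  obtain ⟨x, hx⟩ : ∃ x, w.re - w'.re = 2 * x := ⟨(w.re - w'.re) / 2, by omega⟩
  obtain ⟨y, hy⟩ : ∃ y, w.im - w'.im = 2 * y := ⟨(w.im - w'.im) / 2, by omega⟩
  rw [hx, hy] at h8
  have h9 : 4 * (x ^ 2 + y ^ 2) < 2 := by
    have : ((nrm (w - w') : ℕ) : ℤ) < 2 := by exact_mod_cast h7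
    linarith
  have hx0 : x = 0 := by
    have : x ^ 2 = 0 := by nlinarith [sq_nonneg x, sq_nonneg y]
    exact pow_eq_zero_iff (two_ne_zero) |>.1 this
  have hy0 : y = 0 := by
    have : y ^ 2 = 0 := by nlinarith [sq_nonneg x, sq_nonneg y]
    exact pow_eq_zero_iff (two_ne_zero) |>.1 this
  ext
  · rw [hx0] at hx; linarith
  · rw [hy0] at hy; linarith

/-- the bound of a term of the sum by its cell -/
theorem term_cell (q : ZI) (hq : q ≠ 0) {M Y : ℝ} (hM : 0 ≤ M) (hY : 0 < Y) (w : ZI)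
    (hw : w ≠ 0) :
    1 / ‖tc w‖ * mi M (|((q * w).im : ℝ)| / Y) ≤
      (3 / (|((⌊cx q w⌋ : ℤ) : ℝ)| + 1)) *
        (M * (if |⌊cy q w⌋| ≤ 1 then 1 else 0) + (3 * Y / ‖tc q‖) / (|((⌊cy q w⌋ : ℤ) : ℝ)| + 1)) := by
  have hq0 := tc_pos hq
  have hw1 := one_le_norm_tc hw
  have hw0 : 0 < ‖tc w‖ := by linarith
  have fl : ∀ x : ℝ, |((⌊x⌋ : ℤ) : ℝ)| ≤ |x| + 1 := by
    intro x
    have h1 := Int.floor_le x
    have h2 := Int.lt_floor_add_one x
    rw [abs_le]
    constructor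
    · have := neg_abs_le x
      linarith
    · have := le_abs_self x
      linarith
  have hx : 1 / ‖tc w‖ ≤ 3 / (|((⌊cx q w⌋ : ℤ) : ℝ)| + 1) := by
    rw [div_le_div_iff₀ hw0 (by positivity)]
    have h1 := fl (cx q w)
    have h2 := cx_le q w hq
    linarith
  have him : |((q * w).im : ℝ)| = ‖tc q‖ * |cy q w| := by
    unfold cy
    rw [abs_div, abs_of_pos hq0]
    field_simp
  have hmi0 : 0 ≤ mi M (|((q * w).im : ℝ)| / Y) := mi_nonneg hM (by positivity)
  have hb : mi M (|((q * w).im : ℝ)| / Y) ≤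
      M * (if |⌊cy q w⌋| ≤ 1 then 1 else 0) + (3 * Y / ‖tc q‖) / (|((⌊cy q w⌋ : ℤ) : ℝ)| + 1) := by
    have hsec : 0 ≤ (3 * Y / ‖tc q‖) / (|((⌊cy q w⌋ : ℤ) : ℝ)| + 1) := by positivity
    by_cases h1 : |⌊cy q w⌋| ≤ 1
    · rw [if_pos h1, mul_one]
      have := mi_le M (|((q * w).im : ℝ)| / Y)
      linarith
    · rw [if_neg h1, mul_zero, zero_add]
      have h2 : 2 ≤ |⌊cy q w⌋| := by omega
      have h3 : (2 : ℝ) ≤ |((⌊cy q w⌋ : ℤ) : ℝ)| := by
        rw [← Int.cast_abs]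
        exact_mod_cast h2
      have h4 := fl (cy q w)
      have h5 : 1 ≤ |cy q w| := by linarith
      have h6 : 0 < |((q * w).im : ℝ)| / Y := by
        rw [him]
        positivity
      refine (mi_le_inv h6).trans ?_
      rw [him, one_div_div, div_div,
        div_le_div_iff₀ (by positivity) (by positivity)]
      have h7 : |((⌊cy q w⌋ : ℤ) : ℝ)| + 1 ≤ 3 * |cy q w| := by linarith
      have h8 : Y * (‖tc q‖ * (|((⌊cy q w⌋ : ℤ) : ℝ)| + 1)) ≤ Y * (‖tc q‖ * (3 * |cy q w|)) := by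
        gcongr
      linarith
  exact mul_le_mul hx hb hmi0 (by positivity)

/-- the sum over all the cells -/
theorem cells_im : ∃ C : ℝ, 0 < C ∧ ∀ (q : ZI) (R : ℕ) (M Y : ℝ), q ≠ 0 → 1 ≤ R → 0 ≤ M →
    0 < Y → ∑ w ∈ BX R, 1 / ‖tc w‖ * mi M (|((q * w).im : ℝ)| / Y) ≤
      C * Lg R ^ 2 * (M + Y / ‖tc q‖) := by
  classical
  refine ⟨4 * (3 * 6 * (3 + 3 * 6)), by norm_num, ?_⟩
  intro q R M Y hq hR hM hY
  have hq0 := tc_pos hq
  have hR0 : (1 : ℝ) ≤ R := by exact_mod_cast hR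
  have hL := Lg_one hR
  set I : Finset ℤ := Icc (-((R : ℤ) + 1)) (R + 1) with hI
  set E : Finset ℤ := {0, 1} with hE
  set F : ℤ × ℤ → ℝ := fun p => (3 / (|(p.1 : ℝ)| + 1)) *
        (M * (if |p.2| ≤ 1 then 1 else 0) + (3 * Y / ‖tc q‖) / (|(p.2 : ℝ)| + 1)) with hF
  have hF0 : ∀ p, 0 ≤ F p := by
    intro p
    simp only [hF]
    have : (0 : ℝ) ≤ (if |p.2| ≤ 1 then 1 else 0) := by split_ifs <;> norm_num
    positivity
  have h1 : ∑ w ∈ BX R, 1 / ‖tc w‖ * mi M (|((q * w).im : ℝ)| / Y) ≤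
      ∑ w ∈ BX R, (fun c : (ℤ × ℤ) × (ℤ × ℤ) => F c.1) (cell q w) := by
    refine Finset.sum_le_sum fun w hw => ?_
    rw [H385.HE4.mem_BX] at hw
    exact term_cell q hq hM hY w (ne_zero_of_nrm hw.1)
  refine h1.trans ?_
  have hsq : ∀ w ∈ BX R, ‖tc w‖ ≤ R := by
    intro w hw
    have h2 := (norm_BX hw).2
    refine h2.trans ?_
    rw [Real.sqrt_le_left (by linarith)]
    nlinarith
  rw [← Finset.sum_image (f := fun c : (ℤ × ℤ) × (ℤ × ℤ) => F c.1)
    (fun w _ w' _ h => cell_inj q hq h)]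
  have h2 : (BX R).image (cell q) ⊆ (I ×ˢ I) ×ˢ (E ×ˢ E) := by
    intro c hc
    rw [mem_image] at hc
    obtain ⟨w, hw, rfl⟩ := hc
    have h3 := hsq w hw
    have h4 := (cx_le q w hq).trans h3
    have h5 := (cy_le q w hq).trans h3
    have h6 : ∀ x : ℝ, |x| ≤ R → ⌊x⌋ ∈ I := by
      intro x hx
      rw [hI, mem_Icc]
      obtain ⟨a1, a2⟩ := abs_le.1 hx
      constructor
      · apply Int.le_floor.2
        push_cast
        linarith
      · have := Int.floor_le x
        have h7 : ((⌊x⌋ : ℤ) : ℝ) ≤ ((R : ℤ) : ℝ) := by push_cast; linarith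
        have h8 : ⌊x⌋ ≤ (R : ℤ) := by exact_mod_cast h7
        omega
    unfold cell
    simp only [mem_product]
    refine ⟨⟨h6 _ h4, h6 _ h5⟩, ?_, ?_⟩
    · rw [hE]
      simp only [mem_insert, mem_singleton]
      omega
    · rw [hE]
      simp only [mem_insert, mem_singleton]
      omega
  refine (Finset.sum_le_sum_of_subset_of_nonneg h2 (fun c _ _ => hF0 c.1)).trans ?_
  rw [Finset.sum_product]
  simp only [Finset.sum_const, nsmul_eq_mul, card_product]
  have hEc : (E.card : ℝ) = 2 := by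
    have : E.card = 2 := by rw [hE]; decide
    exact_mod_cast this
  rw [← Finset.mul_sum]
  push_cast
  rw [hEc, Finset.sum_product]
  have hs := sumZ I (R + 1) (fun j hj => by
    rw [hI, mem_Icc] at hj
    push_cast
    exact abs_le.2 hj)
  have hlog : 2 * (1 + Real.log (((R + 1 : ℕ) : ℝ) + 1)) ≤ 6 * Lg R := by
    have := log_le_Lg hR (((R + 1 : ℕ) : ℝ) + 1) (by positivity) (by push_cast; linarith)
    linarith
  have hs' := hs.trans hlog
  set S : ℝ := ∑ j ∈ I, (1 : ℝ) / (|(j : ℝ)| + 1) with hS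
  have hS0 : 0 ≤ S := Finset.sum_nonneg fun _ _ => by positivity
  have h3 : ∑ j ∈ I, ∑ l ∈ I, F (j, l) = (3 * S) *
      (M * ∑ l ∈ I, (if |l| ≤ 1 then 1 else 0) + (3 * Y / ‖tc q‖) * S) := by
    simp only [hF]
    rw [hS]
    have e1 : ∀ j ∈ I, ∑ l ∈ I, (3 / (|(j : ℝ)| + 1)) *
        (M * (if |l| ≤ 1 then 1 else 0) + (3 * Y / ‖tc q‖) / (|(l : ℝ)| + 1)) =
        (3 / (|(j : ℝ)| + 1)) * (M * ∑ l ∈ I, (if |l| ≤ 1 then 1 else 0) +
          (3 * Y / ‖tc q‖) * ∑ l ∈ I, (1 : ℝ) / (|(l : ℝ)| + 1)) := by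
      intro j _
      rw [← Finset.mul_sum, Finset.sum_add_distrib, Finset.mul_sum, Finset.mul_sum]
      congr 2
      exact Finset.sum_congr rfl fun l _ => by ring
    rw [Finset.sum_congr rfl e1, ← Finset.sum_mul]
    congr 1
    rw [Finset.mul_sum]
    exact Finset.sum_congr rfl fun j _ => by ring
  have h4 : ∑ l ∈ I, (if |l| ≤ 1 then (1 : ℝ) else 0) ≤ 3 := by
    rw [← Finset.sum_filter, Finset.sum_const, nsmul_eq_mul, mul_one]
    have : I.filter (fun l => |l| ≤ 1) ⊆ {-1, 0, 1} := by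
      intro l hl
      rw [mem_filter] at hl
      have := abs_le.1 hl.2
      simp only [mem_insert, mem_singleton]
      omega
    have h5 := Finset.card_le_card this
    have h6 : ({-1, 0, 1} : Finset ℤ).card = 3 := by decide
    rw [h6] at h5
    exact_mod_cast h5
  rw [h3]
  have h5 : 0 ≤ Y / ‖tc q‖ := by positivity
  have hL0 : 0 ≤ Lg R := by linarith
  have h6 : M * ∑ l ∈ I, (if |l| ≤ 1 then (1 : ℝ) else 0) + (3 * Y / ‖tc q‖) * S ≤
      (3 + 3 * 6) * Lg R * (M + Y / ‖tc q‖) := by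
    have a1 := mul_le_mul_of_nonneg_left h4 hM
    have a2 : (3 * Y / ‖tc q‖) * S ≤ (3 * Y / ‖tc q‖) * (6 * Lg R) :=
      mul_le_mul_of_nonneg_left hs' (by positivity)
    have a3 : M * 3 ≤ (3 + 3 * 6) * Lg R * M := by nlinarith
    have a4 : (3 * Y / ‖tc q‖) * (6 * Lg R) = 18 * Lg R * (Y / ‖tc q‖) := by ring
    have a5 : 0 ≤ Lg R * (Y / ‖tc q‖) := by positivity
    nlinarith
  have h7 : 0 ≤ M * ∑ l ∈ I, (if |l| ≤ 1 then (1 : ℝ) else 0) + (3 * Y / ‖tc q‖) * S := by
    have : 0 ≤ ∑ l ∈ I, (if |l| ≤ 1 then (1 : ℝ) else 0) :=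
      Finset.sum_nonneg fun _ _ => by split_ifs <;> norm_num
    positivity
  calc 2 * 2 * ((3 * S) * (M * ∑ l ∈ I, (if |l| ≤ 1 then (1 : ℝ) else 0) +
        (3 * Y / ‖tc q‖) * S)) ≤ 2 * 2 * ((3 * (6 * Lg R)) * ((3 + 3 * 6) * Lg R *
          (M + Y / ‖tc q‖))) := by
        refine mul_le_mul_of_nonneg_left ?_ (by norm_num)
        refine mul_le_mul ?_ h6 h7 (by positivity)
        linarith
    _ = _ := by ring

theorem norm_tc_im1_mul (q : ZI) : ‖tc (im1 * q)‖ = ‖tc q‖ := norm_im1 q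

theorem cells_re : ∃ C : ℝ, 0 < C ∧ ∀ (q : ZI) (R : ℕ) (M Y : ℝ), q ≠ 0 → 1 ≤ R → 0 ≤ M →
    0 < Y → ∑ w ∈ BX R, 1 / ‖tc w‖ * mi M (|((q * w).re : ℝ)| / Y) ≤
      C * Lg R ^ 2 * (M + Y / ‖tc q‖) := by
  obtain ⟨C, hC, h⟩ := cells_im
  refine ⟨C, hC, ?_⟩
  intro q R M Y hq hR hM hY
  have h1 := h (im1 * q) R M Y (im1_ne hq) hR hM hY
  rw [norm_tc_im1_mul] at h1
  refine le_trans (le_of_eq ?_) h1
  refine Finset.sum_congr rfl fun w _ => ?_
  have e : (im1 * q * w).im = (q * w).re := by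
    unfold im1
    simp only [Zsqrtd.re_mul, Zsqrtd.im_mul]
    ring
  rw [e]

/-! ### divisors -/

/-- the trivial character -/
noncomputable def h0 : ZI →* ℂ where
  toFun a := if a = 0 then 0 else 1
  map_one' := by simp
  map_mul' a b := by
    by_cases ha : a = 0
    · simp [ha]
    · by_cases hb : b = 0
      · simp [hb]
      · simp [ha, hb]

theorem h0_uh : UH h0 where
  h0 := by simp [h0]
  hb a := by
    show ‖(if a = 0 then (0 : ℂ) else 1)‖ ≤ 1
    split_ifs <;> simp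
  hi := by
    show (if (⟨0, 1⟩ : ZI) = 0 then (0 : ℂ) else 1) = 1
    rw [if_neg (by decide)]

open Classical in
/-- the number of Gaussian integers of norm `n` -/
theorem card_norm (n R : ℕ) (hn : 1 ≤ n) :
    (((BX R).filter (fun a => nrm a = n)).card : ℝ) ≤ 4 * n.divisors.card := by
  have h1 := (lg_bb h0 h0_uh).bd n
  have h2 : bb h0 n = (1 / 4 : ℂ) * ((CS n).card : ℂ) := by
    unfold bb
    congr 1
    rw [Finset.sum_congr rfl (g := fun _ => (1 : ℂ)), Finset.sum_const, nsmul_eq_mul, mul_one]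
    intro p hp
    unfold CS at hp
    rw [mem_filter] at hp
    show (if (⟨p.1, p.2⟩ : ZI) = 0 then (0 : ℂ) else 1) = 1
    rw [if_neg]
    intro h
    have e1 : p.1 = 0 := congrArg Zsqrtd.re h
    have e2 : p.2 = 0 := congrArg Zsqrtd.im h
    have e3 := hp.2
    rw [e1, e2] at e3
    simp only [ne_eq, OfNat.ofNat_ne_zero, not_false_eq_true, zero_pow, add_zero] at e3
    omega
  rw [h2, norm_mul, Complex.norm_natCast] at h1
  have h3 : ‖(1 / 4 : ℂ)‖ = 1 / 4 := by norm_num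
  rw [h3] at h1
  have h4 : ((BX R).filter (fun a => nrm a = n)).card ≤ (CS n).card := by
    refine Finset.card_le_card_of_injOn (fun a => (a.re, a.im)) ?_ ?_
    · intro a ha
      rw [mem_coe, mem_filter] at ha
      have h5 := nrm_int a
      rw [ha.2] at h5
      have h6 : ∀ x : ℤ, |x| ≤ x ^ 2 := by
        intro x
        rcases eq_or_ne x 0 with h | h
        · subst h; simp
        · have : 1 ≤ |x| := Int.one_le_abs h
          rw [← sq_abs]
          nlinarith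
      have h7 := abs_le.1 (h6 a.re)
      have h8 := abs_le.1 (h6 a.im)
      have h9 := sq_nonneg a.re
      have h10 := sq_nonneg a.im
      show (a.re, a.im) ∈ CS n
      unfold CS
      rw [mem_filter, mem_product, mem_Icc, mem_Icc]
      refine ⟨⟨⟨?_, ?_⟩, ?_, ?_⟩, h5.symm⟩ <;> simp only <;> linarith
    · intro a _ b _ hab
      have hab' : (a.re, a.im) = (b.re, b.im) := hab
      rw [Prod.mk.injEq] at hab'
      ext
      · exact hab'.1
      · exact hab'.2
  have h5 : (((BX R).filter (fun a => nrm a = n)).card : ℝ) ≤ (CS n).card := by exact_mod_cast h4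
  linarith

theorem star_ne {a : ZI} (ha : a ≠ 0) : star a ≠ 0 := by
  intro h
  apply ha
  have := congrArg star h
  rwa [star_star, star_zero] at this

open Classical in
/-- the number of the pairs `(e, d)` with `e * star d = w` -/
theorem card_pairs (w : ZI) (hw : w ≠ 0) (R : ℕ) :
    ((((BX R) ×ˢ (BX R)).filter (fun p => p.1 * star p.2 = w)).card : ℝ) ≤
      4 * ((nrm w).divisors.card : ℝ) ^ 2 := by
  have hw1 := nrm_pos hw
  have h1 : (((BX R) ×ˢ (BX R)).filter (fun p => p.1 * star p.2 = w)).card ≤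
      ((BX R).filter (fun e => e ∣ w)).card := by
    refine Finset.card_le_card_of_injOn (fun p => p.1) ?_ ?_
    · intro p hp
      rw [mem_coe, mem_filter, mem_product] at hp
      show p.1 ∈ (BX R).filter (fun e => e ∣ w)
      rw [mem_filter]
      exact ⟨hp.1.1, ⟨_, hp.2.symm⟩⟩
    · intro p hp p' hp' h
      rw [mem_coe, mem_filter, mem_product] at hp hp'
      have h' : p.1 = p'.1 := h
      have e1 := hp.2.trans hp'.2.symm
      rw [h'] at e1
      have e2 : p'.1 ≠ 0 := (norm_BX hp'.1.1).1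
      have e3 := mul_left_cancel₀ e2 e1
      have e4 : p.2 = p'.2 := by
        have := congrArg star e3
        rwa [star_star, star_star] at this
      exact Prod.ext h' e4
  have hmaps : ∀ e ∈ (BX R).filter (fun e => e ∣ w), nrm e ∈ (nrm w).divisors := by
    intro e he
    rw [mem_filter] at he
    obtain ⟨f, hf⟩ := he.2
    rw [Nat.mem_divisors]
    refine ⟨⟨nrm f, ?_⟩, by omega⟩
    have := nrm_mul' e f
    rw [← hf] at this
    exact_mod_cast this
  have h2 : (((BX R).filter (fun e => e ∣ w)).card : ℝ) ≤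
      ∑ n ∈ (nrm w).divisors, (4 * ((nrm w).divisors.card : ℝ)) := by
    rw [Finset.card_eq_sum_card_fiberwise hmaps]
    push_cast
    refine Finset.sum_le_sum fun n hn => ?_
    have hn1 : 1 ≤ n := Nat.pos_of_mem_divisors hn
    have h3 : (((BX R).filter (fun e => e ∣ w)).filter (fun e => nrm e = n)).card ≤
        ((BX R).filter (fun e => nrm e = n)).card := by
      refine Finset.card_le_card ?_
      intro e he
      rw [mem_filter, mem_filter] at he
      rw [mem_filter]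
      exact ⟨he.1.1, he.2⟩
    have h4 := card_norm n R hn1
    have h5 : (n.divisors.card : ℝ) ≤ (nrm w).divisors.card := by
      have : n.divisors ⊆ (nrm w).divisors :=
        Nat.divisors_subset_of_dvd (by omega) (Nat.dvd_of_mem_divisors hn)
      exact_mod_cast Finset.card_le_card this
    have h6 : ((((BX R).filter (fun e => e ∣ w)).filter (fun e => nrm e = n)).card : ℝ) ≤
        (((BX R).filter (fun e => nrm e = n)).card : ℝ) := by exact_mod_cast h3
    linarith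
  rw [Finset.sum_const, nsmul_eq_mul] at h2
  have h3 : ((((BX R) ×ˢ (BX R)).filter (fun p => p.1 * star p.2 = w)).card : ℝ) ≤
      (((BX R).filter (fun e => e ∣ w)).card : ℝ) := by exact_mod_cast h1
  refine h3.trans (h2.trans (le_of_eq ?_))
  ring

end Pool.Agent.Y762.HK
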