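import Pool.Agent.Y762.HK.Pair

/-!
The off-diagonal pairs with a given difference.
-/

open Finset

set_option autoImplicit false
set_option maxHeartbeats 4000000

namespace Pool.Agent.Y762.HK

open H385 (ZI im1 BX nrm)
open Pool.Agent.H304R3.HK (tc tc_star_mul tc_ne_zero one_le_norm_tc)
open Pool.Agent.W354.MS (nrm_real ne_zero_of_nrm tc_sub uu uu_norm)

/-- distance of the logarithms of the norms -/
noncomputable def xx (a b : ZI) : ℝ := |Real.log (nrm a) - Real.log (nrm b)|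

/-- distance of the directions -/
noncomputable def yy (a b : ZI) : ℝ := ‖uu a - uu b‖

theorem xx_nonneg (a b : ZI) : 0 ≤ xx a b := abs_nonneg _

theorem yy_nonneg (a b : ZI) : 0 ≤ yy a b := norm_nonneg _

theorem xx_comm (a b : ZI) : xx a b = xx b a := abs_sub_comm _ _

theorem yy_comm (a b : ZI) : yy a b = yy b a := norm_sub_rev _ _

/-- the term of a pair -/
noncomputable def tm (T K : ℝ) (a b : ZI) : ℝ :=
  mi T (xx a b) * mi K (yy a b) / (‖tc a‖ * ‖tc b‖)

theorem tm_comm (T K : ℝ) (a b : ZI) : tm T K a b = tm T K b a := by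
  unfold tm
  rw [xx_comm, yy_comm, mul_comm ‖tc a‖]

theorem tm_nonneg {T K : ℝ} (hT : 0 ≤ T) (hK : 0 ≤ K) (a b : ZI) : 0 ≤ tm T K a b := by
  unfold tm
  have := mi_nonneg hT (xx_nonneg a b)
  have := mi_nonneg hK (yy_nonneg a b)
  positivity

theorem tm_le {T K : ℝ} (hT : 0 ≤ T) (hK : 0 ≤ K) {a b : ZI} (ha : a ≠ 0) (hb : b ≠ 0)
    (hne : a ≠ b) (hab : ‖tc b‖ ≤ ‖tc a‖) :
    tm T K a b ≤ 2 / (‖tc (a - b)‖ * ‖tc b‖) * (mi T (xx a b) + mi K (yy a b)) := by
  have hA := tc_pos ha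
  have hB := tc_pos hb
  have hd : 0 < ‖tc (a - b)‖ := tc_pos (sub_ne_zero.2 hne)
  have h1 := dist_le ha hb hab
  change ‖tc (a - b)‖ ≤ ‖tc a‖ * (xx a b + yy a b) at h1
  have hx := xx_nonneg a b
  have hy := yy_nonneg a b
  have hxy : 0 < xx a b + yy a b := by
    by_contra hcon
    have h2 : xx a b + yy a b ≤ 0 := not_lt.1 hcon
    have h3 : ‖tc a‖ * (xx a b + yy a b) ≤ 0 := mul_nonpos_of_nonneg_of_nonpos hA.le h2
    linarith
  have h2 := mi_prod hT hK hx hy hxy
  have h3 := mi_nonneg hT hx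
  have h4 := mi_nonneg hK hy
  unfold tm
  calc mi T (xx a b) * mi K (yy a b) / (‖tc a‖ * ‖tc b‖) ≤
      (2 / (xx a b + yy a b) * (mi T (xx a b) + mi K (yy a b))) / (‖tc a‖ * ‖tc b‖) := by
        gcongr
    _ = 2 / (‖tc a‖ * (xx a b + yy a b) * ‖tc b‖) * (mi T (xx a b) + mi K (yy a b)) := by
        field_simp
    _ ≤ _ := by
        gcongr

/-- the points `b` for a given difference -/
noncomputable def Sd (N : ℕ) (d : ZI) : Finset ZI :=
  @Finset.filter _ (fun b => b + d ∈ BX N ∧ ‖tc b‖ ≤ ‖tc (b + d)‖) (Classical.decPred _) (BX N)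

theorem mem_Sd (N : ℕ) (d b : ZI) :
    b ∈ Sd N d ↔ b ∈ BX N ∧ b + d ∈ BX N ∧ ‖tc b‖ ≤ ‖tc (b + d)‖ := by
  unfold Sd
  exact @Finset.mem_filter _ _ (Classical.decPred _) _ _

theorem norm_BX {N : ℕ} {a : ZI} (ha : a ∈ BX N) : a ≠ 0 ∧ ‖tc a‖ ≤ Real.sqrt N := by
  rw [H385.HE4.mem_BX] at ha
  refine ⟨ne_zero_of_nrm ha.1, ?_⟩
  apply Real.le_sqrt_of_sq_le
  rw [← nrm_real]
  exact_mod_cast ha.2

/-- one plus the logarithm -/
noncomputable def Lg (N : ℕ) : ℝ := 1 + Real.log N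

theorem Lg_one {N : ℕ} (_hN : 1 ≤ N) : 1 ≤ Lg N := by
  unfold Lg
  have := Real.log_natCast_nonneg N
  linarith

theorem log_le_Lg {N : ℕ} (hN : 1 ≤ N) (x : ℝ) (hx : 0 < x) (h : x ≤ 4 * N) :
    1 + Real.log x ≤ 3 * Lg N := by
  have hN0 : (0 : ℝ) < N := by exact_mod_cast hN
  have h1 : Real.log x ≤ Real.log (4 * N) := Real.log_le_log hx h
  rw [Real.log_mul (by norm_num) hN0.ne'] at h1
  have h2 : Real.log 4 = 2 * Real.log 2 := by
    rw [show (4 : ℝ) = 2 ^ 2 by norm_num, Real.log_pow]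
    push_cast
    ring
  have h3 := Real.log_two_lt_d9
  have h4 := Real.log_natCast_nonneg N
  unfold Lg
  linarith

theorem card_line2 {d : ZI} (hd : d ≠ 0) (Fs : Finset ZI) (c : ℤ) (hc : ∀ b ∈ Fs, W2 d b = c)
    (R : ℝ) (hR : ∀ b ∈ Fs, ‖tc b‖ ≤ R) (hdR : ‖tc d‖ ≤ 2 * R) :
    (Fs.card : ℝ) ≤ 6 * R * ct d / ‖tc d‖ := by
  have h := card_line (im1_ne hd) Fs (-c) (fun b hb => by rw [W1_im1, hc b hb]) R hR
    (by rw [norm_im1]; exact hdR)
  rwa [ct_im1, norm_im1] at h

/-- the part of the angles -/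
theorem partY {N : ℕ} (hN : 1 ≤ N) {K : ℝ} (hK : 0 ≤ K) {d : ZI} (hd : d ≠ 0)
    (hdR : ‖tc d‖ ≤ 2 * Real.sqrt N) :
    ∑ b ∈ Sd N d, 2 / (‖tc d‖ * ‖tc b‖) * mi K (yy (b + d) b) ≤
      48 * Lg N * (K * ct d) / nrm d + 144 * Lg N * N / nrm d := by
  classical
  have hN0 : (1 : ℝ) ≤ N := by exact_mod_cast hN
  set R : ℝ := Real.sqrt N with hR
  have hR1 : 1 ≤ R := Real.one_le_sqrt.2 hN0
  have hRN : R * R = N := Real.mul_self_sqrt (by linarith)
  have hRleN : R ≤ N := by nlinarith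
  have hd0 := tc_pos hd
  have hL1 := Lg_one hN
  have hg1 : (1 : ℝ) ≤ ct d := by exact_mod_cast ct_pos hd
  have hmem : ∀ b ∈ Sd N d, b ≠ 0 ∧ ‖tc b‖ ≤ R ∧ b + d ≠ 0 ∧ ‖tc (b + d)‖ ≤ R := by
    intro b hb
    rw [mem_Sd] at hb
    obtain ⟨h1, h2⟩ := norm_BX hb.1
    obtain ⟨h3, h4⟩ := norm_BX hb.2.1
    exact ⟨h1, h2, h3, h4⟩
  rw [← Finset.sum_filter_add_sum_filter_not (Sd N d) (fun b => W2 d b = 0)]
  refine add_le_add ?_ ?_
  · -- the line through the origin
    have h1 : ∀ b ∈ (Sd N d).filter (fun b => W2 d b = 0),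
        2 / (‖tc d‖ * ‖tc b‖) * mi K (yy (b + d) b) ≤ (2 * K / ‖tc d‖) * (1 / ‖tc b‖) := by
      intro b hb
      have hb' := hmem b (mem_filter.1 hb).1
      have hb0 := tc_pos hb'.1
      calc 2 / (‖tc d‖ * ‖tc b‖) * mi K (yy (b + d) b) ≤ 2 / (‖tc d‖ * ‖tc b‖) * K :=
            mul_le_mul_of_nonneg_left (mi_le _ _) (by positivity)
        _ = _ := by field_simp
    refine (Finset.sum_le_sum h1).trans ?_
    rw [← Finset.mul_sum]
    have h2 := sum_line (im1_ne hd) ((Sd N d).filter (fun b => W2 d b = 0)) 0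
      (fun b hb => by rw [W1_im1, (mem_filter.1 hb).2, neg_zero]) R hR1
      (fun b hb => (hmem b (mem_filter.1 hb).1).2.1) (by
        intro b hb
        rw [norm_im1, ct_im1]
        rw [mem_filter] at hb
        obtain ⟨h0, -, -, -⟩ := hmem b hb.1
        -- `b` and `0` are on the same line
        have h3 : W1 (im1 * d) b = W1 (im1 * d) 0 := by
          rw [W1_im1, W1_im1, hb.2]
          unfold W2
          simp
        have h4 := dvd_line (im1 * d) b 0 h3
        have h5 : (W2 (im1 * d) b - W2 (im1 * d) 0 : ℤ) = W1 d b := by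
          unfold W1 W2 im1
          simp only [Zsqrtd.re_mul, Zsqrtd.im_mul, Zsqrtd.re_zero, Zsqrtd.im_zero]
          ring
        have h6 : (nrm (im1 * d)) = nrm d := H385.HE4.nrm_im1 d
        rw [h5, h6, ct_im1] at h4
        have h7 : W1 d b ≠ 0 := by
          intro h8
          have h9 := W_sq d b
          rw [h8, hb.2] at h9
          have h10 := nrm_pos hd
          have h11 := nrm_pos h0
          have h12 : (0 : ℤ) < (nrm d : ℤ) * nrm b := by positivity
          simp at h9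
          omega
        have h8 : (ct d : ℤ) * W1 d b ≠ 0 := mul_ne_zero (by
          have := ct_pos hd
          exact_mod_cast (by omega : ct d ≠ 0)) h7
        have h9 := Int.le_of_dvd (abs_pos.2 h8) ((dvd_abs _ _).2 h4)
        have h10 : (nrm d : ℝ) ≤ ct d * |(W1 d b : ℝ)| := by
          have : ((nrm d : ℤ) : ℝ) ≤ ((|(ct d : ℤ) * W1 d b| : ℤ) : ℝ) := by exact_mod_cast h9
          rw [Int.cast_abs, Int.cast_mul, abs_mul] at this
          simpa using this
        have h11 := W1_le d b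
        have h12 : (nrm d : ℝ) ≤ ct d * (‖tc d‖ * ‖tc b‖) :=
          h10.trans (mul_le_mul_of_nonneg_left h11 (by positivity))
        rw [nrm_real] at h12
        have h13 : ‖tc d‖ * ‖tc d‖ ≤ ‖tc d‖ * (ct d * ‖tc b‖) := by nlinarith
        have h14 := le_of_mul_le_mul_left h13 hd0
        have h15 : 0 ≤ (ct d : ℝ) * ‖tc b‖ := by positivity
        linarith)
    rw [ct_im1, norm_im1] at h2
    have h3 : 1 + Real.log (R + 3) ≤ 3 * Lg N := log_le_Lg hN _ (by linarith) (by linarith)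
    calc (2 * K / ‖tc d‖) * ∑ b ∈ (Sd N d).filter (fun b => W2 d b = 0), 1 / ‖tc b‖ ≤
        (2 * K / ‖tc d‖) * (8 * (3 * Lg N) * ct d / ‖tc d‖) := by
          refine mul_le_mul_of_nonneg_left (h2.trans ?_) (by positivity)
          gcongr
      _ = 48 * Lg N * (K * ct d) / nrm d := by
          rw [nrm_real]
          field_simp
          ring
  · -- the other lines
    have h1 : ∀ b ∈ (Sd N d).filter (fun b => ¬ W2 d b = 0),
        2 / (‖tc d‖ * ‖tc b‖) * mi K (yy (b + d) b) ≤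
          (2 * R / ‖tc d‖) * (1 / |(W2 d b : ℝ)|) := by
      intro b hb
      rw [mem_filter] at hb
      obtain ⟨h0, hbR, ha0, haR⟩ := hmem b hb.1
      have hb0 := tc_pos h0
      have ha1 := tc_pos ha0
      have h2 := y_low ha0 h0
      rw [add_sub_cancel_left] at h2
      change |(W2 d b : ℝ)| ≤ ‖tc (b + d)‖ * ‖tc b‖ * yy (b + d) b at h2
      have h3 : (0 : ℝ) < |(W2 d b : ℝ)| := abs_pos.2 (by exact_mod_cast hb.2)
      have hy0 : 0 < yy (b + d) b := by
        by_contra hcon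
        have h4 : yy (b + d) b = 0 := le_antisymm (not_lt.1 hcon) (yy_nonneg _ _)
        rw [h4, mul_zero] at h2
        linarith
      have h4 : mi K (yy (b + d) b) ≤ ‖tc (b + d)‖ * ‖tc b‖ / |(W2 d b : ℝ)| := by
        refine (mi_le_inv hy0).trans ?_
        rw [div_le_div_iff₀ hy0 h3]
        linarith
      calc 2 / (‖tc d‖ * ‖tc b‖) * mi K (yy (b + d) b) ≤
          2 / (‖tc d‖ * ‖tc b‖) * (‖tc (b + d)‖ * ‖tc b‖ / |(W2 d b : ℝ)|) :=
            mul_le_mul_of_nonneg_left h4 (by positivity)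
        _ = (2 * ‖tc (b + d)‖ / ‖tc d‖) * (1 / |(W2 d b : ℝ)|) := by field_simp
        _ ≤ _ := by gcongr
    refine (Finset.sum_le_sum h1).trans ?_
    rw [← Finset.mul_sum]
    have h2 := sum_fib ((Sd N d).filter (fun b => ¬ W2 d b = 0)) (W2 d) (ct d) (ct_pos hd)
      (6 * R * ct d / ‖tc d‖) (by positivity) (2 * N) (by
        intro b hb
        rw [mem_filter] at hb
        obtain ⟨h0, hbR, ha0, haR⟩ := hmem b hb.1
        refine ⟨(ct_dvd d b).2.1, hb.2, ?_⟩
        have h3 := W2_le d b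
        have h4 : ((|W2 d b| : ℤ) : ℝ) ≤ ((2 * N : ℕ) : ℝ) := by
          rw [Int.cast_abs]
          push_cast
          refine h3.trans ?_
          calc ‖tc d‖ * ‖tc b‖ ≤ (2 * R) * R := by gcongr
            _ = 2 * N := by rw [mul_assoc, hRN]
        exact_mod_cast h4) (by
        intro j
        refine card_line2 hd _ j (fun b hb => (mem_filter.1 hb).2) R (fun b hb => ?_) hdR
        exact (hmem b (mem_filter.1 (mem_filter.1 hb).1).1).2.1)
    have h3 : 1 + Real.log (((2 * N : ℕ) : ℝ) + 1) ≤ 3 * Lg N :=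
      log_le_Lg hN _ (by positivity) (by push_cast; linarith)
    calc (2 * R / ‖tc d‖) * ∑ b ∈ (Sd N d).filter (fun b => ¬ W2 d b = 0), 1 / |(W2 d b : ℝ)| ≤
        (2 * R / ‖tc d‖) * (6 * R * ct d / ‖tc d‖ / ct d * (4 * (3 * Lg N))) := by
          refine mul_le_mul_of_nonneg_left (h2.trans ?_) (by positivity)
          gcongr
      _ = 144 * Lg N * N / nrm d := by
          rw [nrm_real, ← hRN]
          field_simp
          ring

/-- the part of the norms -/
theorem partX {N : ℕ} (hN : 1 ≤ N) {T : ℝ} (hT : 0 ≤ T) {d : ZI} (hd : d ≠ 0)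
    (hdR : ‖tc d‖ ≤ 2 * Real.sqrt N) :
    ∑ b ∈ Sd N d, 2 / (‖tc d‖ * ‖tc b‖) * mi T (xx (b + d) b) ≤
      48 * Lg N * (T * ct d) / nrm d + (288 * Lg N * N / nrm d +
        8 / 3 * ∑ a ∈ BX N, 1 / (nrm a : ℝ)) := by
  classical
  have hN0 : (1 : ℝ) ≤ N := by exact_mod_cast hN
  set R : ℝ := Real.sqrt N with hR
  have hR1 : 1 ≤ R := Real.one_le_sqrt.2 hN0
  have hRN : R * R = N := Real.mul_self_sqrt (by linarith)
  have hRleN : R ≤ N := by nlinarith
  have hd0 := tc_pos hd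
  have hL1 := Lg_one hN
  have hg1 : (1 : ℝ) ≤ ct d := by exact_mod_cast ct_pos hd
  have hmem : ∀ b ∈ Sd N d, b ≠ 0 ∧ ‖tc b‖ ≤ R ∧ b + d ≠ 0 ∧ ‖tc (b + d)‖ ≤ R ∧
      ‖tc b‖ ≤ ‖tc (b + d)‖ := by
    intro b hb
    rw [mem_Sd] at hb
    obtain ⟨h1, h2⟩ := norm_BX hb.1
    obtain ⟨h3, h4⟩ := norm_BX hb.2.1
    exact ⟨h1, h2, h3, h4, hb.2.2⟩
  set m : ZI → ℤ := fun b => (nrm d : ℤ) + 2 * W1 d b with hm
  have hmr : ∀ b, ((m b : ℤ) : ℝ) = ‖tc (b + d)‖ ^ 2 - ‖tc b‖ ^ 2 := by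
    intro b
    rw [hm, ← nrm_real, ← nrm_real]
    simp only
    rw [← nrm_add b d]
    push_cast
    ring
  rw [← Finset.sum_filter_add_sum_filter_not (Sd N d) (fun b => m b = 0)]
  refine add_le_add ?_ ?_
  · -- equal norms
    have h1 : ∀ b ∈ (Sd N d).filter (fun b => m b = 0),
        2 / (‖tc d‖ * ‖tc b‖) * mi T (xx (b + d) b) ≤ (2 * T / ‖tc d‖) * (1 / ‖tc b‖) := by
      intro b hb
      have hb' := hmem b (mem_filter.1 hb).1
      have hb0 := tc_pos hb'.1
      calc 2 / (‖tc d‖ * ‖tc b‖) * mi T (xx (b + d) b) ≤ 2 / (‖tc d‖ * ‖tc b‖) * T :=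
            mul_le_mul_of_nonneg_left (mi_le _ _) (by positivity)
        _ = _ := by field_simp
    refine (Finset.sum_le_sum h1).trans ?_
    rw [← Finset.mul_sum]
    have h2 := sum_line hd ((Sd N d).filter (fun b => m b = 0)) (-(nrm d : ℤ) / 2)
      (fun b hb => by
        have h3 := (mem_filter.1 hb).2
        simp only [hm] at h3
        omega) R hR1
      (fun b hb => (hmem b (mem_filter.1 hb).1).2.1) (by
        intro b hb
        rw [mem_filter] at hb
        obtain ⟨h0, -, -, -, -⟩ := hmem b hb.1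
        have h3 := hmr b
        rw [hb.2] at h3
        have h4 : ‖tc (b + d)‖ = ‖tc b‖ := by
          have h5 : ‖tc (b + d)‖ ^ 2 = ‖tc b‖ ^ 2 := by
            push_cast at h3
            linarith
          exact (pow_left_inj₀ (norm_nonneg _) (norm_nonneg _) (by norm_num)).1 h5
        have h5 : tc d = tc (b + d) - tc b := by
          rw [← tc_sub, add_sub_cancel_left]
        have h6 : ‖tc d‖ ≤ 2 * ‖tc b‖ := by
          rw [h5]
          refine (norm_sub_le _ _).trans ?_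
          rw [h4]
          linarith
        have h7 : 0 ≤ ‖tc b‖ := norm_nonneg _
        nlinarith)
    have h3 : 1 + Real.log (R + 3) ≤ 3 * Lg N := log_le_Lg hN _ (by linarith) (by linarith)
    calc (2 * T / ‖tc d‖) * ∑ b ∈ (Sd N d).filter (fun b => m b = 0), 1 / ‖tc b‖ ≤
        (2 * T / ‖tc d‖) * (8 * (3 * Lg N) * ct d / ‖tc d‖) := by
          refine mul_le_mul_of_nonneg_left (h2.trans ?_) (by positivity)
          gcongr
      _ = 48 * Lg N * (T * ct d) / nrm d := by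
          rw [nrm_real]
          field_simp
          ring
  · -- different norms
    have h1 : ∀ b ∈ (Sd N d).filter (fun b => ¬ m b = 0),
        2 / (‖tc d‖ * ‖tc b‖) * mi T (xx (b + d) b) ≤
          (4 * R / ‖tc d‖) * (1 / |(m b : ℝ)|) + 8 / 3 * (1 / (nrm b : ℝ)) := by
      intro b hb
      rw [mem_filter] at hb
      obtain ⟨h0, hbR, ha0, haR, hba⟩ := hmem b hb.1
      have hb0 := tc_pos h0
      have ha1 := tc_pos ha0
      have hmr' := hmr b
      have hm0 : 0 ≤ (m b : ℝ) := by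
        rw [hmr']
        nlinarith
      have hm1 : 0 < (m b : ℝ) := lt_of_le_of_ne hm0 (by
        intro h
        exact hb.2 (by exact_mod_cast h.symm))
      have h2 := x_low ha0 h0 hba
      change (nrm (b + d) : ℝ) - nrm b ≤ nrm (b + d) * xx (b + d) b at h2
      rw [nrm_real, nrm_real, ← hmr'] at h2
      have hx0 : 0 < xx (b + d) b := by
        by_contra hcon
        have h4 : xx (b + d) b = 0 := le_antisymm (not_lt.1 hcon) (xx_nonneg _ _)
        rw [h4, mul_zero] at h2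
        linarith
      have h4 : mi T (xx (b + d) b) ≤ ‖tc (b + d)‖ ^ 2 / (m b : ℝ) := by
        refine (mi_le_inv hx0).trans ?_
        rw [div_le_div_iff₀ hx0 hm1]
        linarith
      rw [abs_of_pos hm1, nrm_real]
      have h5 : 2 / (‖tc d‖ * ‖tc b‖) * mi T (xx (b + d) b) ≤
          2 / (‖tc d‖ * ‖tc b‖) * (‖tc (b + d)‖ ^ 2 / (m b : ℝ)) :=
        mul_le_mul_of_nonneg_left h4 (by positivity)
      refine h5.trans ?_
      rcases le_total ‖tc (b + d)‖ (2 * ‖tc b‖) with h6 | h6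
      · have h7 : 2 / (‖tc d‖ * ‖tc b‖) * (‖tc (b + d)‖ ^ 2 / (m b : ℝ)) ≤
            (4 * R / ‖tc d‖) * (1 / (m b : ℝ)) := by
          have e : 2 / (‖tc d‖ * ‖tc b‖) * (‖tc (b + d)‖ ^ 2 / (m b : ℝ)) =
              (2 * ‖tc (b + d)‖ * (‖tc (b + d)‖ / ‖tc b‖) / ‖tc d‖) * (1 / (m b : ℝ)) := by
            field_simp
          rw [e]
          have h8 : ‖tc (b + d)‖ / ‖tc b‖ ≤ 2 := by
            rw [div_le_iff₀ hb0]
            exact h6
          have h9 : 2 * ‖tc (b + d)‖ * (‖tc (b + d)‖ / ‖tc b‖) ≤ 4 * R := by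
            calc 2 * ‖tc (b + d)‖ * (‖tc (b + d)‖ / ‖tc b‖) ≤ 2 * R * 2 := by gcongr
              _ = 4 * R := by ring
          gcongr
        have h8 : 0 ≤ 8 / 3 * (1 / ‖tc b‖ ^ 2) := by positivity
        linarith
      · have h7 : 2 / (‖tc d‖ * ‖tc b‖) * (‖tc (b + d)‖ ^ 2 / (m b : ℝ)) ≤
            8 / 3 * (1 / ‖tc b‖ ^ 2) := by
          have h8 : ‖tc (b + d)‖ ^ 2 / (m b : ℝ) ≤ 4 / 3 := by
            rw [div_le_iff₀ hm1, hmr']
            nlinarith
          have h9 : ‖tc b‖ ≤ ‖tc d‖ := by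
            have h10 : ‖tc (b + d)‖ ≤ ‖tc b‖ + ‖tc d‖ := by
              have h11 : tc (b + d) = tc b + tc d := by
                have := tc_sub (b + d) b
                rw [add_sub_cancel_left] at this
                rw [this]
                ring
              rw [h11]
              exact norm_add_le _ _
            linarith
          calc 2 / (‖tc d‖ * ‖tc b‖) * (‖tc (b + d)‖ ^ 2 / (m b : ℝ)) ≤
              2 / (‖tc b‖ * ‖tc b‖) * (4 / 3) := by gcongr
            _ = _ := by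
              field_simp
              ring
        have h8 : 0 ≤ (4 * R / ‖tc d‖) * (1 / (m b : ℝ)) := by positivity
        linarith
    refine (Finset.sum_le_sum h1).trans ?_
    rw [Finset.sum_add_distrib, ← Finset.mul_sum, ← Finset.mul_sum]
    have hfib := sum_fib ((Sd N d).filter (fun b => ¬ m b = 0)) m (ct d) (ct_pos hd)
      (6 * R * ct d / ‖tc d‖) (by positivity) (2 * N) (by
        intro b hb
        rw [mem_filter] at hb
        obtain ⟨h0, hbR, ha0, haR, hba⟩ := hmem b hb.1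
        refine ⟨?_, hb.2, ?_⟩
        · obtain ⟨c1, -, c3⟩ := ct_dvd d b
          exact dvd_add c3 (Dvd.dvd.mul_left c1 2)
        · have h3 : |(m b : ℝ)| ≤ N := by
            rw [hmr b, abs_le]
            have hb0 := norm_nonneg (tc b)
            have ha0 := norm_nonneg (tc (b + d))
            constructor <;> nlinarith
          have h4 : ((|m b| : ℤ) : ℝ) ≤ ((2 * N : ℕ) : ℝ) := by
            rw [Int.cast_abs]
            push_cast
            linarith
          exact_mod_cast h4) (by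
        intro j
        refine card_line hd _ ((j - nrm d) / 2) (fun b hb => ?_) R (fun b hb => ?_) hdR
        · have h3 := (mem_filter.1 hb).2
          simp only [hm] at h3
          omega
        · exact (hmem b (mem_filter.1 (mem_filter.1 hb).1).1).2.1)
    have h3 : 1 + Real.log (((2 * N : ℕ) : ℝ) + 1) ≤ 3 * Lg N :=
      log_le_Lg hN _ (by positivity) (by push_cast; linarith)
    refine add_le_add ?_ ?_
    · calc (4 * R / ‖tc d‖) * ∑ b ∈ (Sd N d).filter (fun b => ¬ m b = 0), 1 / |(m b : ℝ)| ≤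
          (4 * R / ‖tc d‖) * (6 * R * ct d / ‖tc d‖ / ct d * (4 * (3 * Lg N))) := by
            refine mul_le_mul_of_nonneg_left (hfib.trans ?_) (by positivity)
            gcongr
        _ = 288 * Lg N * N / nrm d := by
            rw [nrm_real, ← hRN]
            field_simp
            ring
    · refine mul_le_mul_of_nonneg_left ?_ (by norm_num)
      refine Finset.sum_le_sum_of_subset_of_nonneg ?_ (fun _ _ _ => by positivity)
      intro b hb
      exact ((mem_Sd N d b).1 (mem_filter.1 hb).1).1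

/-- the sum for a given difference -/
theorem per_d {N : ℕ} (hN : 1 ≤ N) {T K : ℝ} (hT : 0 ≤ T) (hK : 0 ≤ K) {d : ZI} (hd : d ≠ 0)
    (hdR : ‖tc d‖ ≤ 2 * Real.sqrt N) :
    ∑ b ∈ Sd N d, tm T K (b + d) b ≤
      900 * Lg N ^ 2 * (((T + K) * ct d + N) / nrm d) := by
  have hN0 : (1 : ℝ) ≤ N := by exact_mod_cast hN
  have hL1 := Lg_one hN
  have hn0 : (0 : ℝ) < nrm d := by exact_mod_cast nrm_pos hd
  have hn4 : (nrm d : ℝ) ≤ 4 * N := by
    rw [nrm_real]
    calc ‖tc d‖ ^ 2 ≤ (2 * Real.sqrt N) ^ 2 := pow_le_pow_left₀ (norm_nonneg _) hdR 2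
      _ = 4 * N := by rw [mul_pow, Real.sq_sqrt (by linarith)]; norm_num
  have h1 : ∑ b ∈ Sd N d, tm T K (b + d) b ≤
      ∑ b ∈ Sd N d, (2 / (‖tc d‖ * ‖tc b‖) * mi T (xx (b + d) b) +
        2 / (‖tc d‖ * ‖tc b‖) * mi K (yy (b + d) b)) := by
    refine Finset.sum_le_sum fun b hb => ?_
    rw [mem_Sd] at hb
    have h2 := tm_le hT hK (norm_BX hb.2.1).1 (norm_BX hb.1).1 (by
      intro h
      apply hd
      have := sub_eq_zero.2 h
      rwa [add_sub_cancel_left] at this) hb.2.2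
    rw [add_sub_cancel_left] at h2
    rw [← mul_add]
    exact h2
  rw [Finset.sum_add_distrib] at h1
  have h2 := partX hN hT hd hdR
  have h3 := partY hN hK hd hdR
  have h4 := sum_BX_inv N
  have h5 : (1 + Real.log ((N : ℝ) + 1)) ≤ 2 * Lg N := by
    have h6 : Real.log ((N : ℝ) + 1) ≤ Real.log (2 * N) :=
      Real.log_le_log (by linarith) (by linarith)
    rw [Real.log_mul (by norm_num) (by linarith)] at h6
    have h7 := Real.log_two_lt_d9
    have h8 := Real.log_natCast_nonneg N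
    unfold Lg
    linarith
  have h6 : 0 ≤ 1 + Real.log ((N : ℝ) + 1) := by
    have := Real.log_nonneg (show (1 : ℝ) ≤ (N : ℝ) + 1 by linarith)
    linarith
  have h7 : ∑ a ∈ BX N, 1 / (nrm a : ℝ) ≤ 40 * Lg N ^ 2 := by
    refine h4.trans ?_
    calc 10 * (1 + Real.log ((N : ℝ) + 1)) ^ 2 ≤ 10 * (2 * Lg N) ^ 2 := by gcongr
      _ = _ := by ring
  have h8 : 8 / 3 * (40 * Lg N ^ 2) ≤ 430 * Lg N ^ 2 * (N / nrm d) := by
    have h9 : 1 / 4 ≤ (N : ℝ) / nrm d := by
      rw [div_le_div_iff₀ (by norm_num) hn0]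
      linarith
    have h10 : 430 * Lg N ^ 2 * (1 / 4) ≤ 430 * Lg N ^ 2 * (N / nrm d) :=
      mul_le_mul_of_nonneg_left h9 (by positivity)
    have h11 : 0 ≤ Lg N ^ 2 := by positivity
    linarith
  have hLL : Lg N ≤ Lg N ^ 2 := by nlinarith
  have hLL0 : 0 ≤ Lg N ^ 2 - Lg N := by linarith
  have e1 : 0 ≤ (T + K) * ct d / nrm d := by positivity
  have e2 : 0 ≤ (N : ℝ) / nrm d := by positivity
  have e3 : 900 * Lg N ^ 2 * (((T + K) * ct d + N) / nrm d) =
      900 * Lg N ^ 2 * ((T + K) * ct d / nrm d) + 900 * Lg N ^ 2 * (N / nrm d) := by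
    rw [add_div, mul_add]
  have e4 : 48 * Lg N * (T * ct d) / nrm d + 48 * Lg N * (K * ct d) / nrm d =
      48 * Lg N * ((T + K) * ct d / nrm d) := by ring
  have e5 : 48 * Lg N * ((T + K) * ct d / nrm d) ≤ 900 * Lg N ^ 2 * ((T + K) * ct d / nrm d) := by
    refine mul_le_mul_of_nonneg_right ?_ e1
    nlinarith
  have e6 : 144 * Lg N * N / nrm d + 288 * Lg N * N / nrm d ≤ 432 * Lg N ^ 2 * (N / nrm d) := by
    calc 144 * Lg N * N / nrm d + 288 * Lg N * N / nrm d = 432 * Lg N * (N / nrm d) := by ring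
      _ ≤ _ := by
        refine mul_le_mul_of_nonneg_right ?_ e2
        linarith
  have e7 : 0 ≤ Lg N ^ 2 * ((N : ℝ) / nrm d) := by positivity
  rw [e3]
  have h9 : 8 / 3 * ∑ a ∈ BX N, 1 / (nrm a : ℝ) ≤ 430 * Lg N ^ 2 * (N / nrm d) :=
    (mul_le_mul_of_nonneg_left h7 (by norm_num)).trans h8
  linarith

end Pool.Agent.Y762.HK
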