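import Pool.Agent.Y762.HK.Count
import Pool.Agent.H369R2.S6a

/-!
All off-diagonal pairs which are congruent modulo `q`.
-/

open Finset

set_option autoImplicit false
set_option maxHeartbeats 4000000

namespace Pool.Agent.Y762.HK

open H385 (ZI im1 BX nrm)
open Pool.Agent.H304R3.HK (tc tc_star_mul tc_ne_zero one_le_norm_tc)
open Pool.Agent.W354.MS (nrm_real ne_zero_of_nrm tc_sub uu uu_norm)

theorem nrm_mul (a b : ZI) : nrm (a * b) = nrm a * nrm b := by
  unfold nrm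
  rw [Zsqrtd.norm_mul, Int.natAbs_mul]

theorem nrm_natCast (g : ℕ) : nrm ((g : ℕ) : ZI) = g ^ 2 := by
  unfold nrm
  rw [Zsqrtd.norm_natCast, Int.natAbs_mul]
  simp [sq]

theorem dvd_nrm (q : ZI) : q ∣ ((nrm q : ℕ) : ZI) := by
  refine ⟨star q, ?_⟩
  rw [← Zsqrtd.norm_eq_mul_conj]
  have h : ((nrm q : ℕ) : ℤ) = q.norm := by
    unfold nrm
    rw [Int.natCast_natAbs, abs_of_nonneg (GaussianInt.norm_nonneg q)]
  have h2 : (((nrm q : ℕ) : ℤ) : ZI) = (q.norm : ZI) := by rw [h]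
  rw [← h2]
  push_cast
  rfl

/-- the ideal of the `e` with `q ∣ g e` -/
theorem ideal_gen (q : ZI) (hq : q ≠ 0) (g : ℕ) : ∃ δ : ZI, δ ≠ 0 ∧
    (∀ e : ZI, q ∣ (g : ZI) * e ↔ δ ∣ e) ∧ ‖tc q‖ ≤ (Nat.gcd g (nrm q) : ℝ) * nrm δ := by
  let I : Ideal ZI :=
    { carrier := {e | q ∣ (g : ZI) * e}
      add_mem' := by
        intro a b ha hb
        show q ∣ (g : ZI) * (a + b)
        rw [mul_add]
        exact dvd_add ha hb
      zero_mem' := by
        show q ∣ (g : ZI) * 0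
        rw [mul_zero]
        exact dvd_zero _
      smul_mem' := by
        intro c x hx
        show q ∣ (g : ZI) * (c * x)
        have : (g : ZI) * (c * x) = c * ((g : ZI) * x) := by ring
        rw [this]
        exact Dvd.dvd.mul_left hx c }
  obtain ⟨δ, hδ⟩ := (IsPrincipalIdealRing.principal I)
  have hmem : ∀ e : ZI, q ∣ (g : ZI) * e ↔ δ ∣ e := by
    intro e
    have h1 : q ∣ (g : ZI) * e ↔ e ∈ I := Iff.rfl
    rw [h1, hδ]
    exact Ideal.mem_span_singleton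
  have hn0 : ((nrm q : ℕ) : ZI) ≠ 0 := by
    intro h
    have h1 := nrm_pos hq
    have h2 : (nrm q : ℕ) = 0 := by exact_mod_cast h
    omega
  have hδ0 : δ ≠ 0 := by
    rintro rfl
    have h1 : q ∣ (g : ZI) * ((nrm q : ℕ) : ZI) := Dvd.dvd.mul_left (dvd_nrm q) _
    rw [hmem, zero_dvd_iff] at h1
    exact hn0 h1
  refine ⟨δ, hδ0, hmem, ?_⟩
  have h1 : q ∣ (g : ZI) * δ := (hmem δ).2 dvd_rfl
  have h2 : q ∣ ((nrm q : ℕ) : ZI) * δ := Dvd.dvd.mul_right (dvd_nrm q) _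
  have h3 : q ∣ ((Nat.gcd g (nrm q) : ℕ) : ZI) * δ := by
    have e1 : ((Nat.gcd g (nrm q) : ℕ) : ZI) =
        (g : ZI) * (Nat.gcdA g (nrm q) : ZI) + ((nrm q : ℕ) : ZI) * (Nat.gcdB g (nrm q) : ZI) := by
      have := Nat.gcd_eq_gcd_ab g (nrm q)
      have h4 : (((Nat.gcd g (nrm q) : ℕ) : ℤ) : ZI) =
        (((g : ℤ) * Nat.gcdA g (nrm q) + ((nrm q : ℕ) : ℤ) * Nat.gcdB g (nrm q) : ℤ) : ZI) := by
        rw [this]
      push_cast at h4
      exact h4
    have e2 : ((Nat.gcd g (nrm q) : ℕ) : ZI) * δ =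
        (Nat.gcdA g (nrm q) : ZI) * ((g : ZI) * δ) +
          (Nat.gcdB g (nrm q) : ZI) * (((nrm q : ℕ) : ZI) * δ) := by
      rw [e1]
      ring
    rw [e2]
    exact dvd_add (Dvd.dvd.mul_left h1 _) (Dvd.dvd.mul_left h2 _)
  have hg0 : 0 < Nat.gcd g (nrm q) := Nat.gcd_pos_of_pos_right _ (nrm_pos hq)
  have h4 : ((Nat.gcd g (nrm q) : ℕ) : ZI) * δ ≠ 0 := by
    refine mul_ne_zero ?_ hδ0
    intro h
    have h5 : (Nat.gcd g (nrm q) : ℕ) = 0 := by exact_mod_cast h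
    omega
  have h5 : nrm q ≤ nrm (((Nat.gcd g (nrm q) : ℕ) : ZI) * δ) := by
    obtain ⟨c, hc⟩ := h3
    rw [hc, nrm_mul]
    have hc0 : c ≠ 0 := by
      rintro rfl
      rw [mul_zero] at hc
      exact h4 hc
    exact Nat.le_mul_of_pos_right _ (nrm_pos hc0)
  rw [nrm_mul, nrm_natCast] at h5
  have h6 : ((nrm q : ℕ) : ℝ) ≤ ((Nat.gcd g (nrm q) : ℕ) : ℝ) ^ 2 * nrm δ := by exact_mod_cast h5
  have h7 := one_le_norm_tc hδ0
  have h8 : ‖tc q‖ ^ 2 ≤ ((Nat.gcd g (nrm q) : ℕ) * (nrm δ : ℝ)) ^ 2 := by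
    rw [← nrm_real]
    refine h6.trans ?_
    rw [mul_pow]
    have h9 : (1 : ℝ) ≤ nrm δ := by exact_mod_cast nrm_pos hδ0
    have h10 : (nrm δ : ℝ) ≤ (nrm δ : ℝ) ^ 2 := by nlinarith
    exact mul_le_mul_of_nonneg_left h10 (by positivity)
  exact (pow_le_pow_iff_left₀ (norm_nonneg _) (by positivity) (by norm_num)).1 h8

/-- the sum of the inverse norms -/
noncomputable def HH (M : ℕ) : ℝ := ∑ f ∈ BX M, 1 / (nrm f : ℝ)

theorem HH_nonneg (M : ℕ) : 0 ≤ HH M := Finset.sum_nonneg fun _ _ => by positivity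

theorem nrm_pos_iff (a : ZI) : 1 ≤ nrm a ↔ a ≠ 0 := by
  constructor
  · exact ne_zero_of_nrm
  · exact nrm_pos

/-- the sum over the multiples of `δ` -/
theorem sum_mult (δ : ZI) (hδ : δ ≠ 0) (M : ℕ) (s : Finset ZI) (hs : ∀ e ∈ s, e ∈ BX M ∧ δ ∣ e) :
    ∑ e ∈ s, 1 / (nrm e : ℝ) ≤ 1 / (nrm δ : ℝ) * HH M := by
  classical
  have hinj : Set.InjOn (fun f : ZI => δ * f) (BX M : Set ZI) := by
    intro a _ b _ hab
    exact mul_left_cancel₀ hδ hab
  have hsub : s ⊆ (BX M).image (fun f : ZI => δ * f) := by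
    intro e he
    obtain ⟨h1, f, rfl⟩ := hs e he
    rw [H385.HE4.mem_BX, nrm_mul] at h1
    rw [mem_image]
    refine ⟨f, ?_, rfl⟩
    rw [H385.HE4.mem_BX]
    have h2 := nrm_pos hδ
    constructor
    · rcases Nat.eq_zero_or_pos (nrm f) with h3 | h3
      · rw [h3, mul_zero] at h1
        omega
      · exact h3
    · calc nrm f ≤ nrm δ * nrm f := Nat.le_mul_of_pos_left _ h2
        _ ≤ M := h1.2
  refine (Finset.sum_le_sum_of_subset_of_nonneg hsub (fun _ _ _ => by positivity)).trans ?_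
  rw [Finset.sum_image hinj, HH, Finset.mul_sum]
  refine le_of_eq (Finset.sum_congr rfl fun f _ => ?_)
  rw [nrm_mul]
  push_cast
  rw [one_div_mul_one_div]

/-- the multiples of `q` -/
noncomputable def DD (q : ZI) (M : ℕ) : Finset ZI :=
  @Finset.filter _ (fun d => q ∣ d) (Classical.decPred _) (BX M)

theorem mem_DD (q : ZI) (M : ℕ) (d : ZI) : d ∈ DD q M ↔ d ∈ BX M ∧ q ∣ d := by
  unfold DD
  exact @Finset.mem_filter _ _ (Classical.decPred _) _ _

theorem sum_DD (q : ZI) (hq : q ≠ 0) (M : ℕ) :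
    ∑ d ∈ DD q M, 1 / (nrm d : ℝ) ≤ 1 / (nrm q : ℝ) * HH M :=
  sum_mult q hq M _ (fun d hd => (mem_DD q M d).1 hd)

/-- sums of greatest common divisors -/
theorem sum_gcd (n : ℕ) (hn : 1 ≤ n) (M : ℕ) :
    ∑ g ∈ Icc 1 M, (Nat.gcd g n : ℝ) / g ≤ n.divisors.card * (1 + Real.log M) := by
  classical
  have hharm : ∑ j ∈ Icc 1 M, 1 / (j : ℝ) ≤ 1 + Real.log M := by
    have h5 := harmonic_le_one_add_log M
    have h6 : ((harmonic M : ℚ) : ℝ) = ∑ j ∈ Icc 1 M, 1 / (j : ℝ) := by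
      rw [harmonic_eq_sum_Icc]
      push_cast
      refine Finset.sum_congr rfl fun i _ => ?_
      rw [one_div]
    rw [h6] at h5
    exact h5
  have h1 : ∀ g ∈ Icc 1 M, (Nat.gcd g n : ℝ) / g ≤
      ∑ D ∈ n.divisors, if D ∣ g then (D : ℝ) / g else 0 := by
    intro g _
    have h2 : Nat.gcd g n ∈ n.divisors := by
      rw [Nat.mem_divisors]
      exact ⟨Nat.gcd_dvd_right g n, by omega⟩
    have h3 := Finset.single_le_sum (f := fun D => if D ∣ g then (D : ℝ) / g else 0)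
      (fun D _ => by split_ifs <;> positivity) h2
    simp only [if_pos (Nat.gcd_dvd_left g n)] at h3
    exact h3
  refine (Finset.sum_le_sum h1).trans ?_
  rw [Finset.sum_comm]
  have h2 : ∀ D ∈ n.divisors, ∑ g ∈ Icc 1 M, (if D ∣ g then (D : ℝ) / g else 0) ≤
      1 + Real.log M := by
    intro D hD
    have hD0 : 1 ≤ D := Nat.pos_of_mem_divisors hD
    refine le_trans ?_ hharm
    rw [← Finset.sum_filter]
    have hinj : Set.InjOn (fun g : ℕ => g / D) ((Icc 1 M).filter (fun g => D ∣ g) : Set ℕ) := by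
      intro a ha b hb hab
      rw [mem_coe, mem_filter] at ha hb
      obtain ⟨-, k, rfl⟩ := ha
      obtain ⟨-, l, rfl⟩ := hb
      simp only [Nat.mul_div_cancel_left _ (show 0 < D by omega)] at hab
      rw [hab]
    have h3 : ∀ g ∈ (Icc 1 M).filter (fun g => D ∣ g), (D : ℝ) / g = 1 / ((g / D : ℕ) : ℝ) := by
      intro g hg
      rw [mem_filter] at hg
      obtain ⟨h4, k, rfl⟩ := hg
      rw [Nat.mul_div_cancel_left _ (show 0 < D by omega)]
      have hD1 : (0 : ℝ) < D := by exact_mod_cast hD0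
      push_cast
      rw [div_mul_eq_div_div, div_self hD1.ne']
    rw [Finset.sum_congr rfl h3, ← Finset.sum_image (f := fun j : ℕ => 1 / (j : ℝ)) hinj]
    refine Finset.sum_le_sum_of_subset_of_nonneg ?_ (fun _ _ _ => by positivity)
    intro j hj
    rw [mem_image] at hj
    obtain ⟨g, hg, rfl⟩ := hj
    rw [mem_filter, mem_Icc] at hg
    obtain ⟨⟨h4, h5⟩, k, rfl⟩ := hg
    rw [Nat.mul_div_cancel_left _ (show 0 < D by omega), mem_Icc]
    constructor
    · rcases Nat.eq_zero_or_pos k with rfl | h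
      · omega
      · exact h
    · exact (Nat.le_mul_of_pos_left _ hD0).trans h5
  refine (Finset.sum_le_sum h2).trans ?_
  rw [Finset.sum_const, nsmul_eq_mul]

/-- the contents of the multiples of `q` -/
theorem sum_ct (q : ZI) (hq : q ≠ 0) (M : ℕ) :
    ∑ d ∈ DD q M, (ct d : ℝ) / nrm d ≤
      (nrm q).divisors.card * (1 + Real.log M) / ‖tc q‖ * HH M := by
  classical
  have hq0 := tc_pos hq
  have hH := HH_nonneg M
  have hmaps : ∀ d ∈ DD q M, ct d ∈ Icc 1 M := by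
    intro d hd
    obtain ⟨h1, -⟩ := (mem_DD q M d).1 hd
    rw [H385.HE4.mem_BX] at h1
    have hd0 := ne_zero_of_nrm h1.1
    rw [mem_Icc]
    refine ⟨ct_pos hd0, ?_⟩
    have h2 := ct_le hd0
    have h3 := one_le_norm_tc hd0
    have h4 : (ct d : ℝ) ≤ nrm d := by
      rw [nrm_real]
      nlinarith
    have h5 : ct d ≤ nrm d := by exact_mod_cast h4
    omega
  rw [← Finset.sum_fiberwise_of_maps_to hmaps]
  have h1 : ∀ g ∈ Icc 1 M, ∑ d ∈ DD q M with ct d = g, (ct d : ℝ) / nrm d ≤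
      ((Nat.gcd g (nrm q) : ℝ) / g) * (HH M / ‖tc q‖) := by
    intro g hg
    rw [mem_Icc] at hg
    have hg0 : (0 : ℝ) < g := by exact_mod_cast hg.1
    obtain ⟨δ, hδ0, hδ, hδq⟩ := ideal_gen q hq g
    set s : Finset ZI := (BX M).filter (fun e => δ ∣ e) with hs
    have hinj : Set.InjOn (fun e : ZI => (g : ZI) * e) (s : Set ZI) := by
      intro a _ b _ hab
      refine mul_left_cancel₀ ?_ hab
      intro h
      have h5 : g = 0 := by exact_mod_cast h
      omega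
    have hsub : (DD q M).filter (fun d => ct d = g) ⊆ s.image (fun e : ZI => (g : ZI) * e) := by
      intro d hd
      rw [mem_filter, mem_DD, H385.HE4.mem_BX] at hd
      obtain ⟨⟨⟨h2, h3⟩, h4⟩, h5⟩ := hd
      have hr : (ct d : ℤ) ∣ d.re := Int.gcd_dvd_left ..
      have hi : (ct d : ℤ) ∣ d.im := Int.gcd_dvd_right ..
      rw [h5] at hr hi
      obtain ⟨x, hx⟩ := hr
      obtain ⟨y, hy⟩ := hi
      have hde : d = (g : ZI) * (⟨x, y⟩ : ZI) := by
        ext
        · rw [Zsqrtd.re_mul]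
          simp [hx]
        · rw [Zsqrtd.im_mul]
          simp [hy]
      rw [mem_image]
      refine ⟨⟨x, y⟩, ?_, hde.symm⟩
      rw [hs, mem_filter, H385.HE4.mem_BX]
      rw [hde, nrm_mul, nrm_natCast] at h2 h3
      refine ⟨⟨?_, ?_⟩, ?_⟩
      · rcases Nat.eq_zero_or_pos (nrm (⟨x, y⟩ : ZI)) with h6 | h6
        · rw [h6, mul_zero] at h2
          omega
        · exact h6
      · have : 1 ≤ g ^ 2 := Nat.one_le_pow _ _ hg.1
        calc nrm (⟨x, y⟩ : ZI) ≤ g ^ 2 * nrm (⟨x, y⟩ : ZI) := Nat.le_mul_of_pos_left _ this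
          _ ≤ M := h3
      · rw [← hδ, ← hde]
        exact h4
    have h2 : ∑ d ∈ DD q M with ct d = g, (ct d : ℝ) / nrm d ≤
        ∑ d ∈ s.image (fun e : ZI => (g : ZI) * e), (g : ℝ) / nrm d := by
      have h3 : ∀ d ∈ (DD q M).filter (fun d => ct d = g), (ct d : ℝ) / nrm d = (g : ℝ) / nrm d := by
        intro d hd
        rw [(mem_filter.1 hd).2]
      rw [Finset.sum_congr rfl h3]
      exact Finset.sum_le_sum_of_subset_of_nonneg hsub (fun _ _ _ => by positivity)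
    rw [Finset.sum_image hinj] at h2
    have h3 : ∑ e ∈ s, (g : ℝ) / nrm ((g : ZI) * e) = (1 / g) * ∑ e ∈ s, 1 / (nrm e : ℝ) := by
      rw [Finset.mul_sum]
      refine Finset.sum_congr rfl fun e _ => ?_
      rw [nrm_mul, nrm_natCast]
      push_cast
      rw [sq, mul_assoc, div_mul_eq_div_div, div_self hg0.ne', one_div_mul_one_div]
    have h4 := sum_mult δ hδ0 M s (fun e he => mem_filter.1 he)
    have hδ1 : (0 : ℝ) < nrm δ := by exact_mod_cast nrm_pos hδ0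
    have h5 : 1 / (nrm δ : ℝ) ≤ (Nat.gcd g (nrm q) : ℝ) / ‖tc q‖ := by
      rw [div_le_div_iff₀ hδ1 hq0]
      linarith
    calc _ ≤ (1 / (g : ℝ)) * ∑ e ∈ s, 1 / (nrm e : ℝ) := by rw [← h3]; exact h2
      _ ≤ (1 / (g : ℝ)) * (1 / (nrm δ : ℝ) * HH M) := mul_le_mul_of_nonneg_left h4 (by positivity)
      _ ≤ (1 / (g : ℝ)) * ((Nat.gcd g (nrm q) : ℝ) / ‖tc q‖ * HH M) := by gcongr
      _ = _ := by ring
  refine (Finset.sum_le_sum h1).trans ?_
  rw [← Finset.sum_mul]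
  have h2 := sum_gcd (nrm q) (nrm_pos hq) M
  calc (∑ g ∈ Icc 1 M, (Nat.gcd g (nrm q) : ℝ) / g) * (HH M / ‖tc q‖) ≤
      ((nrm q).divisors.card * (1 + Real.log M)) * (HH M / ‖tc q‖) :=
        mul_le_mul_of_nonneg_right h2 (by positivity)
    _ = _ := by ring

open Classical in
/-- all pairs -/
theorem pairs_le : ∃ C : ℝ, 0 < C ∧ ∀ (q : ZI) (N : ℕ) (T K : ℝ), q ≠ 0 → 1 ≤ N → 0 ≤ T → 0 ≤ K →
    ∑ a ∈ BX N, ∑ b ∈ BX N, (if a ≠ b ∧ q ∣ a - b then tm T K a b else 0) ≤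
      C * Lg N ^ 5 * ((T + K) * (nrm q).divisors.card / ‖tc q‖ + N / nrm q) := by
  refine ⟨2 * (900 * 1080), by norm_num, ?_⟩
  intro q N T K hq hN hT hK
  have hN0 : (1 : ℝ) ≤ N := by exact_mod_cast hN
  have hL1 := Lg_one hN
  have hq0 := tc_pos hq
  have hqn : (0 : ℝ) < nrm q := by exact_mod_cast nrm_pos hq
  set f1 : ZI → ZI → ℝ := fun a b =>
    if a ≠ b ∧ q ∣ a - b ∧ ‖tc b‖ ≤ ‖tc a‖ then tm T K a b else 0 with hf1
  have h1 : ∀ a b : ZI, (if a ≠ b ∧ q ∣ a - b then tm T K a b else 0) ≤ f1 a b + f1 b a := by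
    intro a b
    have t0 := tm_nonneg hT hK a b
    have t1 := tm_nonneg hT hK b a
    by_cases h : a ≠ b ∧ q ∣ a - b
    · rw [if_pos h]
      rcases le_total ‖tc b‖ ‖tc a‖ with h2 | h2
      · have e1 : f1 a b = tm T K a b := if_pos ⟨h.1, h.2, h2⟩
        have e2 : 0 ≤ f1 b a := by
          simp only [hf1]
          split_ifs
          · exact t1
          · exact le_rfl
        linarith
      · have e1 : f1 b a = tm T K b a := if_pos ⟨Ne.symm h.1, (dvd_sub_comm).1 h.2, h2⟩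
        have e2 : 0 ≤ f1 a b := by
          simp only [hf1]
          split_ifs
          · exact t0
          · exact le_rfl
        rw [tm_comm T K b a] at e1
        linarith
    · rw [if_neg h]
      have e1 : 0 ≤ f1 a b := by
        simp only [hf1]
        split_ifs
        · exact t0
        · exact le_rfl
      have e2 : 0 ≤ f1 b a := by
        simp only [hf1]
        split_ifs
        · exact t1
        · exact le_rfl
      linarith
  have h2 : ∑ a ∈ BX N, ∑ b ∈ BX N, (if a ≠ b ∧ q ∣ a - b then tm T K a b else 0) ≤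
      2 * ∑ b ∈ BX N, ∑ a ∈ BX N, f1 a b := by
    calc _ ≤ ∑ a ∈ BX N, ∑ b ∈ BX N, (f1 a b + f1 b a) :=
          Finset.sum_le_sum fun a _ => Finset.sum_le_sum fun b _ => h1 a b
      _ = ∑ a ∈ BX N, ∑ b ∈ BX N, f1 a b + ∑ a ∈ BX N, ∑ b ∈ BX N, f1 b a := by
          simp only [Finset.sum_add_distrib]
      _ = _ := by
          rw [Finset.sum_comm (f := fun a b => f1 a b)]
          ring
  have h3 : ∑ b ∈ BX N, ∑ a ∈ BX N, f1 a b ≤
      ∑ d ∈ DD q (4 * N), ∑ b ∈ Sd N d, tm T K (b + d) b := by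
    have h4 : ∀ b ∈ BX N, ∑ a ∈ BX N, f1 a b ≤
        ∑ d ∈ DD q (4 * N), (if b ∈ Sd N d then tm T K (b + d) b else 0) := by
      intro b hb
      simp only [hf1]
      rw [← Finset.sum_filter, ← Finset.sum_filter]
      have hinj : Set.InjOn (fun a : ZI => a - b)
          ((BX N).filter (fun a => a ≠ b ∧ q ∣ a - b ∧ ‖tc b‖ ≤ ‖tc a‖) : Set ZI) := by
        intro x _ y _ hxy
        exact sub_left_injective hxy
      have h5 : ∑ a ∈ (BX N).filter (fun a => a ≠ b ∧ q ∣ a - b ∧ ‖tc b‖ ≤ ‖tc a‖), tm T K a b =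
          ∑ a ∈ (BX N).filter (fun a => a ≠ b ∧ q ∣ a - b ∧ ‖tc b‖ ≤ ‖tc a‖),
            (fun d => tm T K (b + d) b) (a - b) := by
        refine Finset.sum_congr rfl fun a _ => ?_
        simp only
        rw [add_sub_cancel]
      rw [h5, ← Finset.sum_image (f := fun d => tm T K (b + d) b) hinj]
      refine Finset.sum_le_sum_of_subset_of_nonneg ?_ (fun _ _ _ => tm_nonneg hT hK _ _)
      intro d hd
      rw [mem_image] at hd
      obtain ⟨a, ha, rfl⟩ := hd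
      rw [mem_filter] at ha
      obtain ⟨ha1, ha2, ha3, ha4⟩ := ha
      rw [mem_filter, mem_DD, mem_Sd, add_sub_cancel]
      refine ⟨⟨?_, ha3⟩, hb, ha1, ha4⟩
      rw [H385.HE4.mem_BX]
      refine ⟨nrm_pos (sub_ne_zero.2 ha2), ?_⟩
      have e1 := (norm_BX ha1).2
      have e2 := (norm_BX hb).2
      have e3 : ‖tc (a - b)‖ ≤ 2 * Real.sqrt N := by
        rw [tc_sub]
        refine (norm_sub_le _ _).trans ?_
        linarith
      have e4 : (nrm (a - b) : ℝ) ≤ ((4 * N : ℕ) : ℝ) := by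
        rw [nrm_real]
        push_cast
        calc ‖tc (a - b)‖ ^ 2 ≤ (2 * Real.sqrt N) ^ 2 := pow_le_pow_left₀ (norm_nonneg _) e3 2
          _ = 4 * N := by rw [mul_pow, Real.sq_sqrt (by linarith)]; norm_num
      exact_mod_cast e4
    refine (Finset.sum_le_sum h4).trans ?_
    rw [Finset.sum_comm]
    refine Finset.sum_le_sum fun d _ => ?_
    rw [← Finset.sum_filter]
    refine Finset.sum_le_sum_of_subset_of_nonneg ?_ (fun _ _ _ => tm_nonneg hT hK _ _)
    intro b hb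
    exact (mem_filter.1 hb).2
  have h4 : ∑ d ∈ DD q (4 * N), ∑ b ∈ Sd N d, tm T K (b + d) b ≤
      ∑ d ∈ DD q (4 * N), 900 * Lg N ^ 2 * (((T + K) * ct d + N) / nrm d) := by
    refine Finset.sum_le_sum fun d hd => ?_
    obtain ⟨e1, -⟩ := (mem_DD q _ d).1 hd
    obtain ⟨e2, e3⟩ := norm_BX e1
    refine per_d hN hT hK e2 (e3.trans (le_of_eq ?_))
    push_cast
    rw [Real.sqrt_mul (by norm_num), show (4 : ℝ) = 2 ^ 2 by norm_num, Real.sqrt_sq (by norm_num)]
  have h5 : ∑ d ∈ DD q (4 * N), 900 * Lg N ^ 2 * (((T + K) * ct d + N) / nrm d) =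
      900 * Lg N ^ 2 * ((T + K) * ∑ d ∈ DD q (4 * N), (ct d : ℝ) / nrm d +
        N * ∑ d ∈ DD q (4 * N), 1 / (nrm d : ℝ)) := by
    rw [← Finset.mul_sum, Finset.mul_sum (f := fun d => (ct d : ℝ) / nrm d),
      Finset.mul_sum (f := fun d => 1 / (nrm d : ℝ)), ← Finset.sum_add_distrib]
    congr 1
    refine Finset.sum_congr rfl fun d _ => ?_
    ring
  have h6 := sum_ct q hq (4 * N)
  have h7 := sum_DD q hq (4 * N)
  have hHH : HH (4 * N) ≤ 360 * Lg N ^ 2 := by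
    have h8 := sum_BX_inv (4 * N)
    have h9 : 1 + Real.log (((4 * N : ℕ) : ℝ) + 1) ≤ 6 * Lg N := by
      have h10 : Real.log (((4 * N : ℕ) : ℝ) + 1) ≤ Real.log (8 * N) := by
        apply Real.log_le_log (by positivity)
        push_cast
        linarith
      rw [Real.log_mul (by norm_num) (by linarith)] at h10
      have h11 : Real.log 8 = 3 * Real.log 2 := by
        rw [show (8 : ℝ) = 2 ^ 3 by norm_num, Real.log_pow]
        push_cast
        ring
      have h12 := Real.log_two_lt_d9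
      have h13 := Real.log_natCast_nonneg N
      unfold Lg
      linarith
    have h10 : 0 ≤ 1 + Real.log (((4 * N : ℕ) : ℝ) + 1) := by
      have := Real.log_nonneg (show (1 : ℝ) ≤ ((4 * N : ℕ) : ℝ) + 1 by
        have : (0 : ℝ) ≤ ((4 * N : ℕ) : ℝ) := Nat.cast_nonneg _
        linarith)
      linarith
    calc HH (4 * N) ≤ 10 * (1 + Real.log (((4 * N : ℕ) : ℝ) + 1)) ^ 2 := h8
      _ ≤ 10 * (6 * Lg N) ^ 2 := by gcongr
      _ = _ := by ring
  have hlog : 1 + Real.log (((4 * N : ℕ) : ℝ)) ≤ 3 * Lg N :=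
    log_le_Lg hN _ (by positivity) (by push_cast; linarith)
  have hlog0 : 0 ≤ 1 + Real.log (((4 * N : ℕ) : ℝ)) := by
    have := Real.log_natCast_nonneg (4 * N)
    linarith
  have hH0 := HH_nonneg (4 * N)
  have h8 : ∑ d ∈ DD q (4 * N), (ct d : ℝ) / nrm d ≤
      1080 * Lg N ^ 3 * ((nrm q).divisors.card / ‖tc q‖) := by
    refine h6.trans ?_
    calc (nrm q).divisors.card * (1 + Real.log ((4 * N : ℕ) : ℝ)) / ‖tc q‖ * HH (4 * N) ≤
        (nrm q).divisors.card * (3 * Lg N) / ‖tc q‖ * (360 * Lg N ^ 2) := by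
          gcongr
      _ = _ := by ring
  have h9 : ∑ d ∈ DD q (4 * N), 1 / (nrm d : ℝ) ≤ 1080 * Lg N ^ 3 * (1 / nrm q) := by
    refine h7.trans ?_
    have hLL : Lg N ^ 2 ≤ Lg N ^ 3 := pow_le_pow_right₀ hL1 (by norm_num)
    calc 1 / (nrm q : ℝ) * HH (4 * N) ≤ 1 / (nrm q : ℝ) * (360 * Lg N ^ 2) := by gcongr
      _ ≤ 1 / (nrm q : ℝ) * (1080 * Lg N ^ 3) := by
        refine mul_le_mul_of_nonneg_left ?_ (by positivity)
        nlinarith [pow_pos (show 0 < Lg N by linarith) 2]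
      _ = _ := by ring
  have hTK : 0 ≤ T + K := by linarith
  calc ∑ a ∈ BX N, ∑ b ∈ BX N, (if a ≠ b ∧ q ∣ a - b then tm T K a b else 0) ≤
      2 * (900 * Lg N ^ 2 * ((T + K) * ∑ d ∈ DD q (4 * N), (ct d : ℝ) / nrm d +
        N * ∑ d ∈ DD q (4 * N), 1 / (nrm d : ℝ))) := by
        refine h2.trans (mul_le_mul_of_nonneg_left ?_ (by norm_num))
        rw [← h5]
        exact h3.trans h4
    _ ≤ 2 * (900 * Lg N ^ 2 * ((T + K) * (1080 * Lg N ^ 3 * ((nrm q).divisors.card / ‖tc q‖)) +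
        N * (1080 * Lg N ^ 3 * (1 / nrm q)))) := by gcongr
    _ = _ := by ring

end Pool.Agent.Y762.HK
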