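import Pool.Agent.Y762.HK.Cells

/-!
The pairs `a, b` with `q ∣ a + b`.
-/

open Finset

set_option autoImplicit false
set_option maxHeartbeats 4000000

namespace Pool.Agent.Y762.HK

open H385 (ZI im1 BX nrm)
open Pool.Agent.H304R3.HK (tc tc_star_mul tc_ne_zero one_le_norm_tc)
open Pool.Agent.W354.MS (nrm_real ne_zero_of_nrm tc_sub uu uu_norm)

theorem tc_neg (b : ZI) : tc (-b) = -tc b := by
  unfold tc
  simp only [Zsqrtd.re_neg, Zsqrtd.im_neg]
  push_cast
  ring

theorem norm_tc_neg (b : ZI) : ‖tc (-b)‖ = ‖tc b‖ := by rw [tc_neg, norm_neg]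

theorem tc_add' (a b : ZI) : tc (a + b) = tc a + tc b := by
  unfold tc
  simp only [Zsqrtd.re_add, Zsqrtd.im_add]
  push_cast
  ring

theorem nrm_neg (b : ZI) : nrm (-b) = nrm b := by
  have h : (nrm (-b) : ℝ) = nrm b := by rw [nrm_real, nrm_real, norm_tc_neg]
  exact_mod_cast h

/-- the part of the angles -/
theorem partYg {N : ℕ} (hN : 1 ≤ N) {K : ℝ} (hK : 0 ≤ K) {d : ZI} (hd : d ≠ 0)
    (hdR : ‖tc d‖ ≤ 2 * Real.sqrt N) (Y : ZI → ℝ) (hY0 : ∀ b, 0 ≤ Y b)
    (hY : ∀ b ∈ Sd N d, |(W2 d b : ℝ)| ≤ ‖tc (b + d)‖ * ‖tc b‖ * Y b) :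
    ∑ b ∈ Sd N d, 2 / (‖tc d‖ * ‖tc b‖) * mi K (Y b) ≤
      48 * Lg N * (K * ct d) / nrm d + 144 * Lg N * N / nrm d := by
  classical
  have hN0 : (1 : ℝ) ≤ N := by exact_mod_cast hN
  set R : ℝ := Real.sqrt N with hR
  have hR1 : 1 ≤ R := Real.one_le_sqrt.2 hN0
  have hRN : R * R = N := Real.mul_self_sqrt (by linarith)
  have hRleN : R ≤ N := by nlinarith
  have hd0 := tc_pos hd
  have hL1 := Lg_one hN
  have hg1 : (1 : ℝ) ≤ ct d := by exact_mod_cast ct_pos hd
  have hmem : ∀ b ∈ Sd N d, b ≠ 0 ∧ ‖tc b‖ ≤ R ∧ b + d ≠ 0 ∧ ‖tc (b + d)‖ ≤ R := by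
    intro b hb
    rw [mem_Sd] at hb
    obtain ⟨h1, h2⟩ := norm_BX hb.1
    obtain ⟨h3, h4⟩ := norm_BX hb.2.1
    exact ⟨h1, h2, h3, h4⟩
  rw [← Finset.sum_filter_add_sum_filter_not (Sd N d) (fun b => W2 d b = 0)]
  refine add_le_add ?_ ?_
  · -- the line through the origin
    have h1 : ∀ b ∈ (Sd N d).filter (fun b => W2 d b = 0),
        2 / (‖tc d‖ * ‖tc b‖) * mi K (Y b) ≤ (2 * K / ‖tc d‖) * (1 / ‖tc b‖) := by
      intro b hb
      have hb' := hmem b (mem_filter.1 hb).1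
      have hb0 := tc_pos hb'.1
      calc 2 / (‖tc d‖ * ‖tc b‖) * mi K (Y b) ≤ 2 / (‖tc d‖ * ‖tc b‖) * K :=
            mul_le_mul_of_nonneg_left (mi_le _ _) (by positivity)
        _ = _ := by field_simp
    refine (Finset.sum_le_sum h1).trans ?_
    rw [← Finset.mul_sum]
    have h2 := sum_line (im1_ne hd) ((Sd N d).filter (fun b => W2 d b = 0)) 0
      (fun b hb => by rw [W1_im1, (mem_filter.1 hb).2, neg_zero]) R hR1
      (fun b hb => (hmem b (mem_filter.1 hb).1).2.1) (by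
        intro b hb
        rw [norm_im1, ct_im1]
        rw [mem_filter] at hb
        obtain ⟨h0, -, -, -⟩ := hmem b hb.1
        -- `b` and `0` are on the same line
        have h3 : W1 (im1 * d) b = W1 (im1 * d) 0 := by
          rw [W1_im1, W1_im1, hb.2]
          unfold W2
          simp
        have h4 := dvd_line (im1 * d) b 0 h3
        have h5 : (W2 (im1 * d) b - W2 (im1 * d) 0 : ℤ) = W1 d b := by
          unfold W1 W2 im1
          simp only [Zsqrtd.re_mul, Zsqrtd.im_mul, Zsqrtd.re_zero, Zsqrtd.im_zero]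
          ring
        have h6 : (nrm (im1 * d)) = nrm d := H385.HE4.nrm_im1 d
        rw [h5, h6, ct_im1] at h4
        have h7 : W1 d b ≠ 0 := by
          intro h8
          have h9 := W_sq d b
          rw [h8, hb.2] at h9
          have h10 := nrm_pos hd
          have h11 := nrm_pos h0
          have h12 : (0 : ℤ) < (nrm d : ℤ) * nrm b := by positivity
          simp at h9
          omega
        have h8 : (ct d : ℤ) * W1 d b ≠ 0 := mul_ne_zero (by
          have := ct_pos hd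
          exact_mod_cast (by omega : ct d ≠ 0)) h7
        have h9 := Int.le_of_dvd (abs_pos.2 h8) ((dvd_abs _ _).2 h4)
        have h10 : (nrm d : ℝ) ≤ ct d * |(W1 d b : ℝ)| := by
          have : ((nrm d : ℤ) : ℝ) ≤ ((|(ct d : ℤ) * W1 d b| : ℤ) : ℝ) := by exact_mod_cast h9
          rw [Int.cast_abs, Int.cast_mul, abs_mul] at this
          simpa using this
        have h11 := W1_le d b
        have h12 : (nrm d : ℝ) ≤ ct d * (‖tc d‖ * ‖tc b‖) :=
          h10.trans (mul_le_mul_of_nonneg_left h11 (by positivity))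
        rw [nrm_real] at h12
        have h13 : ‖tc d‖ * ‖tc d‖ ≤ ‖tc d‖ * (ct d * ‖tc b‖) := by nlinarith
        have h14 := le_of_mul_le_mul_left h13 hd0
        have h15 : 0 ≤ (ct d : ℝ) * ‖tc b‖ := by positivity
        linarith)
    rw [ct_im1, norm_im1] at h2
    have h3 : 1 + Real.log (R + 3) ≤ 3 * Lg N := log_le_Lg hN _ (by linarith) (by linarith)
    calc (2 * K / ‖tc d‖) * ∑ b ∈ (Sd N d).filter (fun b => W2 d b = 0), 1 / ‖tc b‖ ≤
        (2 * K / ‖tc d‖) * (8 * (3 * Lg N) * ct d / ‖tc d‖) := by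
          refine mul_le_mul_of_nonneg_left (h2.trans ?_) (by positivity)
          gcongr
      _ = 48 * Lg N * (K * ct d) / nrm d := by
          rw [nrm_real]
          field_simp
          ring
  · -- the other lines
    have h1 : ∀ b ∈ (Sd N d).filter (fun b => ¬ W2 d b = 0),
        2 / (‖tc d‖ * ‖tc b‖) * mi K (Y b) ≤
          (2 * R / ‖tc d‖) * (1 / |(W2 d b : ℝ)|) := by
      intro b hb
      rw [mem_filter] at hb
      obtain ⟨h0, hbR, ha0, haR⟩ := hmem b hb.1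
      have hb0 := tc_pos h0
      have ha1 := tc_pos ha0
      have h2 := hY b hb.1
      have h3 : (0 : ℝ) < |(W2 d b : ℝ)| := abs_pos.2 (by exact_mod_cast hb.2)
      have hy0 : 0 < Y b := by
        by_contra hcon
        have h4 : Y b = 0 := le_antisymm (not_lt.1 hcon) (hY0 _)
        rw [h4, mul_zero] at h2
        linarith
      have h4 : mi K (Y b) ≤ ‖tc (b + d)‖ * ‖tc b‖ / |(W2 d b : ℝ)| := by
        refine (mi_le_inv hy0).trans ?_
        rw [div_le_div_iff₀ hy0 h3]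
        linarith
      calc 2 / (‖tc d‖ * ‖tc b‖) * mi K (Y b) ≤
          2 / (‖tc d‖ * ‖tc b‖) * (‖tc (b + d)‖ * ‖tc b‖ / |(W2 d b : ℝ)|) :=
            mul_le_mul_of_nonneg_left h4 (by positivity)
        _ = (2 * ‖tc (b + d)‖ / ‖tc d‖) * (1 / |(W2 d b : ℝ)|) := by field_simp
        _ ≤ _ := by gcongr
    refine (Finset.sum_le_sum h1).trans ?_
    rw [← Finset.mul_sum]
    have h2 := sum_fib ((Sd N d).filter (fun b => ¬ W2 d b = 0)) (W2 d) (ct d) (ct_pos hd)
      (6 * R * ct d / ‖tc d‖) (by positivity) (2 * N) (by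
        intro b hb
        rw [mem_filter] at hb
        obtain ⟨h0, hbR, ha0, haR⟩ := hmem b hb.1
        refine ⟨(ct_dvd d b).2.1, hb.2, ?_⟩
        have h3 := W2_le d b
        have h4 : ((|W2 d b| : ℤ) : ℝ) ≤ ((2 * N : ℕ) : ℝ) := by
          rw [Int.cast_abs]
          push_cast
          refine h3.trans ?_
          calc ‖tc d‖ * ‖tc b‖ ≤ (2 * R) * R := by gcongr
            _ = 2 * N := by rw [mul_assoc, hRN]
        exact_mod_cast h4) (by
        intro j
        refine card_line2 hd _ j (fun b hb => (mem_filter.1 hb).2) R (fun b hb => ?_) hdR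
        exact (hmem b (mem_filter.1 (mem_filter.1 hb).1).1).2.1)
    have h3 : 1 + Real.log (((2 * N : ℕ) : ℝ) + 1) ≤ 3 * Lg N :=
      log_le_Lg hN _ (by positivity) (by push_cast; linarith)
    calc (2 * R / ‖tc d‖) * ∑ b ∈ (Sd N d).filter (fun b => ¬ W2 d b = 0), 1 / |(W2 d b : ℝ)| ≤
        (2 * R / ‖tc d‖) * (6 * R * ct d / ‖tc d‖ / ct d * (4 * (3 * Lg N))) := by
          refine mul_le_mul_of_nonneg_left (h2.trans ?_) (by positivity)
          gcongr
      _ = 144 * Lg N * N / nrm d := by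
          rw [nrm_real, ← hRN]
          field_simp
          ring

/-- the sum for a given value of `a + b` -/
theorem per_s {N : ℕ} (hN : 1 ≤ N) {T K : ℝ} (hT : 0 ≤ T) (hK : 0 ≤ K) {d : ZI} (hd : d ≠ 0)
    (hdR : ‖tc d‖ ≤ 2 * Real.sqrt N) :
    ∑ b ∈ Sd N d, (2 / (‖tc d‖ * ‖tc b‖) * mi T (xx (b + d) b) +
      2 / (‖tc d‖ * ‖tc b‖) * mi K (yy (b + d) (-b))) ≤
      900 * Lg N ^ 2 * (((T + K) * ct d + N) / nrm d) := by
  have hN0 : (1 : ℝ) ≤ N := by exact_mod_cast hN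
  have hL1 := Lg_one hN
  have hn0 : (0 : ℝ) < nrm d := by exact_mod_cast nrm_pos hd
  have hn4 : (nrm d : ℝ) ≤ 4 * N := by
    rw [nrm_real]
    calc ‖tc d‖ ^ 2 ≤ (2 * Real.sqrt N) ^ 2 := pow_le_pow_left₀ (norm_nonneg _) hdR 2
      _ = 4 * N := by rw [mul_pow, Real.sq_sqrt (by linarith)]; norm_num
  rw [Finset.sum_add_distrib]
  have h2 := partX hN hT hd hdR
  have h3 := partYg hN hK hd hdR (fun b => yy (b + d) (-b)) (fun b => yy_nonneg _ _) (by
    intro b hb
    rw [mem_Sd] at hb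
    have k1 := (norm_BX hb.1).1
    have k2 := (norm_BX hb.2.1).1
    have k3 := y_low k2 (neg_ne_zero.2 k1)
    have k4 : W2 (b + d - -b) (-b) = - W2 d b := by
      unfold W2
      simp only [Zsqrtd.re_sub, Zsqrtd.im_sub, Zsqrtd.re_add, Zsqrtd.im_add, Zsqrtd.re_neg,
        Zsqrtd.im_neg]
      ring
    rw [k4, Int.cast_neg, abs_neg] at k3
    have k5 : ‖tc (-b)‖ = ‖tc b‖ := norm_tc_neg b
    rw [k5] at k3
    exact k3)
  have h4 := sum_BX_inv N
  have h5 : (1 + Real.log ((N : ℝ) + 1)) ≤ 2 * Lg N := by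
    have h6 : Real.log ((N : ℝ) + 1) ≤ Real.log (2 * N) :=
      Real.log_le_log (by linarith) (by linarith)
    rw [Real.log_mul (by norm_num) (by linarith)] at h6
    have h7 := Real.log_two_lt_d9
    have h8 := Real.log_natCast_nonneg N
    unfold Lg
    linarith
  have h6 : 0 ≤ 1 + Real.log ((N : ℝ) + 1) := by
    have := Real.log_nonneg (show (1 : ℝ) ≤ (N : ℝ) + 1 by linarith)
    linarith
  have h7 : ∑ a ∈ BX N, 1 / (nrm a : ℝ) ≤ 40 * Lg N ^ 2 := by
    refine h4.trans ?_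
    calc 10 * (1 + Real.log ((N : ℝ) + 1)) ^ 2 ≤ 10 * (2 * Lg N) ^ 2 := by gcongr
      _ = _ := by ring
  have h8 : 8 / 3 * (40 * Lg N ^ 2) ≤ 430 * Lg N ^ 2 * (N / nrm d) := by
    have h9 : 1 / 4 ≤ (N : ℝ) / nrm d := by
      rw [div_le_div_iff₀ (by norm_num) hn0]
      linarith
    have h10 : 430 * Lg N ^ 2 * (1 / 4) ≤ 430 * Lg N ^ 2 * (N / nrm d) :=
      mul_le_mul_of_nonneg_left h9 (by positivity)
    have h11 : 0 ≤ Lg N ^ 2 := by positivity
    linarith
  have hLL : Lg N ≤ Lg N ^ 2 := by nlinarith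
  have hLL0 : 0 ≤ Lg N ^ 2 - Lg N := by linarith
  have e1 : 0 ≤ (T + K) * ct d / nrm d := by positivity
  have e2 : 0 ≤ (N : ℝ) / nrm d := by positivity
  have e3 : 900 * Lg N ^ 2 * (((T + K) * ct d + N) / nrm d) =
      900 * Lg N ^ 2 * ((T + K) * ct d / nrm d) + 900 * Lg N ^ 2 * (N / nrm d) := by
    rw [add_div, mul_add]
  have e4 : 48 * Lg N * (T * ct d) / nrm d + 48 * Lg N * (K * ct d) / nrm d =
      48 * Lg N * ((T + K) * ct d / nrm d) := by ring
  have e5 : 48 * Lg N * ((T + K) * ct d / nrm d) ≤ 900 * Lg N ^ 2 * ((T + K) * ct d / nrm d) := by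
    refine mul_le_mul_of_nonneg_right ?_ e1
    nlinarith
  have e6 : 144 * Lg N * N / nrm d + 288 * Lg N * N / nrm d ≤ 432 * Lg N ^ 2 * (N / nrm d) := by
    calc 144 * Lg N * N / nrm d + 288 * Lg N * N / nrm d = 432 * Lg N * (N / nrm d) := by ring
      _ ≤ _ := by
        refine mul_le_mul_of_nonneg_right ?_ e2
        linarith
  have e7 : 0 ≤ Lg N ^ 2 * ((N : ℝ) / nrm d) := by positivity
  rw [e3]
  have h9 : 8 / 3 * ∑ a ∈ BX N, 1 / (nrm a : ℝ) ≤ 430 * Lg N ^ 2 * (N / nrm d) :=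
    (mul_le_mul_of_nonneg_left h7 (by norm_num)).trans h8
  linarith


end Pool.Agent.Y762.HK
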