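import Pool.Agent.Y762.HK.CountS

/-!
The pairs `a, b` with `q ∣ a + b`: all of them.
-/

open Finset

set_option autoImplicit false
set_option maxHeartbeats 4000000

namespace Pool.Agent.Y762.HK

open H385 (ZI im1 BX nrm)
open Pool.Agent.H304R3.HK (tc tc_star_mul tc_ne_zero one_le_norm_tc)
open Pool.Agent.W354.MS (nrm_real ne_zero_of_nrm tc_sub uu uu_norm)

/-- the sums over the pairs with comparable `a + b` and `a - b` -/
theorem pair_one {N : ℕ} {T K : ℝ} (hT : 0 ≤ T) (hK : 0 ≤ K) {a b : ZI} (ha : a ∈ BX N)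
    (hb : b ∈ BX N) (hne : a ≠ b) (hne' : a ≠ -b) (hab : ‖tc b‖ ≤ ‖tc a‖)
    (h : ‖tc (a + b)‖ ≤ 2 * ‖tc (a - b)‖) :
    tm T K a b ≤ 2 * (2 / (‖tc (a + b)‖ * ‖tc (-b)‖) * mi T (xx (-b + (a + b)) (-b)) +
      2 / (‖tc (a + b)‖ * ‖tc (-b)‖) * mi K (yy (-b + (a + b)) (-(-b)))) := by
  have ha0 := (norm_BX ha).1
  have hb0 := (norm_BX hb).1
  have e1 : -b + (a + b) = a := by ring
  have e2 : xx a (-b) = xx a b := by
    unfold xx
    rw [nrm_neg]
  rw [e1, neg_neg, e2, norm_tc_neg]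
  have h1 := tm_le hT hK ha0 hb0 hne hab
  have hs : 0 < ‖tc (a + b)‖ := tc_pos (by
    intro h2
    exact hne' (eq_neg_of_add_eq_zero_left h2))
  have hd : 0 < ‖tc (a - b)‖ := tc_pos (sub_ne_zero.2 hne)
  have hB := tc_pos hb0
  have hm := add_nonneg (mi_nonneg hT (xx_nonneg a b)) (mi_nonneg hK (yy_nonneg a b))
  have h2 : 2 / (‖tc (a - b)‖ * ‖tc b‖) ≤ 2 * (2 / (‖tc (a + b)‖ * ‖tc b‖)) := by
    rw [← mul_div_assoc, div_le_div_iff₀ (by positivity) (by positivity)]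
    nlinarith [mul_le_mul_of_nonneg_right h hB.le]
  calc tm T K a b ≤ 2 / (‖tc (a - b)‖ * ‖tc b‖) * (mi T (xx a b) + mi K (yy a b)) := h1
    _ ≤ 2 * (2 / (‖tc (a + b)‖ * ‖tc b‖)) * (mi T (xx a b) + mi K (yy a b)) :=
        mul_le_mul_of_nonneg_right h2 hm
    _ = _ := by ring

/-- the weight of `w = e * star d` -/
noncomputable def gw (q : ZI) (N : ℕ) (T K : ℝ) (w : ZI) : ℝ :=
  8 / ‖tc q‖ * (1 / ‖tc w‖ * mi T (|((q * w).re : ℝ)| / N) +
    1 / ‖tc w‖ * mi K (|((q * w).im : ℝ)| / (2 * N)))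

theorem gw_nonneg (q : ZI) (N : ℕ) {T K : ℝ} (hT : 0 ≤ T) (hK : 0 ≤ K) (w : ZI) :
    0 ≤ gw q N T K w := by
  unfold gw
  have h1 := mi_nonneg hT (show 0 ≤ |((q * w).re : ℝ)| / N by positivity)
  have h2 := mi_nonneg hK (show 0 ≤ |((q * w).im : ℝ)| / (2 * N) by positivity)
  positivity

theorem norm_tc_star (z : ZI) : ‖tc (star z)‖ = ‖tc z‖ := by
  have h1 := Pool.Agent.H304R3.HK.tc_star_mul z
  have h3 := Pool.Agent.H304R3.HK.tc_star_mul (star z)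
  rw [Pool.Agent.H304R2.EC.A1.gnorm_star, ← h1] at h3
  exact (pow_left_inj₀ (norm_nonneg _) (norm_nonneg _) (by norm_num)).1 h3

theorem norm_tc_mul (a b : ZI) : ‖tc (a * b)‖ = ‖tc a‖ * ‖tc b‖ := by
  rw [← norm_mul]
  congr 1
  unfold tc
  simp only [Zsqrtd.re_mul, Zsqrtd.im_mul]
  push_cast
  linear_combination (-(a.im : ℂ) * b.im) * Complex.I_mul_I

/-- the sums over the pairs with small `a - b` -/
theorem pair_two {N : ℕ} (hN : 1 ≤ N) {T K : ℝ} (hT : 0 ≤ T) (hK : 0 ≤ K) {a b q e : ZI}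
    (ha : a ∈ BX N) (hb : b ∈ BX N) (hne : a ≠ b) (hab : ‖tc b‖ ≤ ‖tc a‖)
    (h : 2 * ‖tc (a - b)‖ < ‖tc (a + b)‖) (hq : q ≠ 0) (he : a + b = q * e) :
    tm T K a b ≤ gw q N T K (e * star (a - b)) := by
  have ha0 := (norm_BX ha).1
  have hb0 := (norm_BX hb).1
  have hN0 : (1 : ℝ) ≤ N := by exact_mod_cast hN
  have h1 := tm_le hT hK ha0 hb0 hne hab
  have hd : 0 < ‖tc (a - b)‖ := tc_pos (sub_ne_zero.2 hne)
  have hs : 0 < ‖tc (a + b)‖ := by linarith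
  have hB := tc_pos hb0
  have hA := tc_pos ha0
  have hq0 := tc_pos hq
  have hm := add_nonneg (mi_nonneg hT (xx_nonneg a b)) (mi_nonneg hK (yy_nonneg a b))
  have hbig : ‖tc (a + b)‖ ≤ 4 * ‖tc b‖ := by
    have e1 : tc (a + b) = tc (a - b) + 2 * tc b := by
      rw [tc_add', tc_sub]
      ring
    have e2 : ‖tc (a + b)‖ ≤ ‖tc (a - b)‖ + 2 * ‖tc b‖ := by
      rw [e1]
      refine (norm_add_le _ _).trans ?_
      rw [norm_mul]
      simp
    linarith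
  have he0 : e ≠ 0 := by
    rintro rfl
    rw [mul_zero] at he
    rw [he] at hs
    simp [tc] at hs
  have hE := tc_pos he0
  have hwn : ‖tc (e * star (a - b))‖ = ‖tc e‖ * ‖tc (a - b)‖ := by
    rw [norm_tc_mul, norm_tc_star]
  have hsn : ‖tc (a + b)‖ = ‖tc q‖ * ‖tc e‖ := by rw [he, norm_tc_mul]
  have h2 : 2 / (‖tc (a - b)‖ * ‖tc b‖) ≤ 8 / ‖tc q‖ * (1 / ‖tc (e * star (a - b))‖) := by
    rw [hwn, div_mul_div_comm, mul_one, div_le_div_iff₀ (by positivity) (by positivity)]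
    have h3 := mul_le_mul_of_nonneg_right hbig hd.le
    rw [hsn] at h3
    nlinarith
  -- the norm and the direction
  have haN : ‖tc a‖ ^ 2 ≤ N := by
    rw [← nrm_real]
    rw [H385.HE4.mem_BX] at ha
    exact_mod_cast ha.2
  have hqw : q * (e * star (a - b)) = (a + b) * star (a - b) := by rw [he]; ring
  have hre : ((q * (e * star (a - b))).re : ℝ) = ‖tc a‖ ^ 2 - ‖tc b‖ ^ 2 := by
    rw [hqw, ← nrm_real, ← nrm_real]
    have k1 := nrm_int a
    have k2 := nrm_int b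
    have k3 : ((a + b) * star (a - b)).re = (nrm a : ℤ) - nrm b := by
      rw [k1, k2]
      simp only [Zsqrtd.re_mul, Zsqrtd.re_add, Zsqrtd.im_add, Zsqrtd.re_star, Zsqrtd.im_star,
        Zsqrtd.re_sub, Zsqrtd.im_sub]
      ring
    rw [k3]
    push_cast
    ring
  have him : ((q * (e * star (a - b))).im : ℝ) = -2 * (W2 (a - b) b : ℝ) := by
    rw [hqw]
    have k3 : ((a + b) * star (a - b)).im = -2 * W2 (a - b) b := by
      unfold W2
      simp only [Zsqrtd.im_mul, Zsqrtd.re_add, Zsqrtd.im_add, Zsqrtd.re_star, Zsqrtd.im_star,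
        Zsqrtd.re_sub, Zsqrtd.im_sub]
      ring
    rw [k3]
    push_cast
    ring
  have hx : |((q * (e * star (a - b))).re : ℝ)| / N ≤ xx a b := by
    rw [hre, div_le_iff₀ (by linarith)]
    have k1 : 0 ≤ ‖tc a‖ ^ 2 - ‖tc b‖ ^ 2 := by nlinarith [norm_nonneg (tc b)]
    rw [abs_of_nonneg k1]
    have k2 := x_low ha0 hb0 hab
    change (nrm a : ℝ) - nrm b ≤ nrm a * xx a b at k2
    rw [nrm_real, nrm_real] at k2
    have k3 := mul_le_mul_of_nonneg_right haN (xx_nonneg a b)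
    linarith
  have hy : |((q * (e * star (a - b))).im : ℝ)| / (2 * N) ≤ yy a b := by
    rw [him, div_le_iff₀ (by linarith), abs_mul]
    have k2 := y_low ha0 hb0
    change |(W2 (a - b) b : ℝ)| ≤ ‖tc a‖ * ‖tc b‖ * yy a b at k2
    have k3 : ‖tc a‖ * ‖tc b‖ ≤ N := by nlinarith
    have k4 := mul_le_mul_of_nonneg_right k3 (yy_nonneg a b)
    have k5 : |(-2 : ℝ)| = 2 := by norm_num
    rw [k5]
    linarith
  have h4 := mi_anti (M := T) (show 0 ≤ |((q * (e * star (a - b))).re : ℝ)| / N by positivity) hx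
  have h5 := mi_anti (M := K)
    (show 0 ≤ |((q * (e * star (a - b))).im : ℝ)| / (2 * N) by positivity) hy
  have hw0 : 0 < ‖tc (e * star (a - b))‖ := by rw [hwn]; positivity
  calc tm T K a b ≤ 2 / (‖tc (a - b)‖ * ‖tc b‖) * (mi T (xx a b) + mi K (yy a b)) := h1
    _ ≤ (8 / ‖tc q‖ * (1 / ‖tc (e * star (a - b))‖)) * (mi T (xx a b) + mi K (yy a b)) :=
        mul_le_mul_of_nonneg_right h2 hm
    _ ≤ (8 / ‖tc q‖ * (1 / ‖tc (e * star (a - b))‖)) *
        (mi T (|((q * (e * star (a - b))).re : ℝ)| / N) +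
          mi K (|((q * (e * star (a - b))).im : ℝ)| / (2 * N))) :=
        mul_le_mul_of_nonneg_left (add_le_add h4 h5) (by positivity)
    _ = _ := by
        unfold gw
        ring

open Classical in
/-- the quotient by `q` -/
noncomputable def qe (q z : ZI) : ZI := if h : q ∣ z then h.choose else 0

theorem qe_spec {q z : ZI} (h : q ∣ z) : z = q * qe q z := by
  unfold qe
  rw [dif_pos h]
  exact h.choose_spec

/-- the sum over the products `e * star d` -/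
theorem sum_w (δ : ℝ) (hδ : 0 < δ) : ∃ C : ℝ, 0 < C ∧ ∀ (q : ZI) (N R : ℕ) (T K : ℝ), q ≠ 0 →
    1 ≤ N → 1 ≤ R → 0 ≤ T → 0 ≤ K →
    ∑ x ∈ (BX R) ×ˢ (BX R), gw q N T K (x.1 * star x.2) ≤
      C * (R : ℝ) ^ δ * Lg R ^ 2 * ((T + K) / ‖tc q‖ + N / nrm q) := by
  classical
  obtain ⟨C1, hC1, hdiv⟩ := Pool.Agent.H369R2.divisor_bound (δ / 4) (by positivity)
  obtain ⟨C2, hC2, hcim⟩ := cells_im
  obtain ⟨C3, hC3, hcre⟩ := cells_re
  refine ⟨4 * C1 ^ 2 * 8 * (4 * (C2 + C3) * 3), by positivity, ?_⟩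
  intro q N R T K hq hN hR hT hK
  have hN0 : (1 : ℝ) ≤ N := by exact_mod_cast hN
  have hR0 : (1 : ℝ) ≤ R := by exact_mod_cast hR
  have hq0 := tc_pos hq
  have hL1 := Lg_one hR
  have hmaps : ∀ x ∈ (BX R) ×ˢ (BX R), x.1 * star x.2 ∈ BX (R * R) := by
    intro x hx
    rw [mem_product, H385.HE4.mem_BX, H385.HE4.mem_BX] at hx
    obtain ⟨⟨h1, h2⟩, h3, h4⟩ := hx
    have hs : nrm (star x.2) = nrm x.2 := by
      have : (nrm (star x.2) : ℝ) = nrm x.2 := by rw [nrm_real, nrm_real, norm_tc_star]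
      exact_mod_cast this
    rw [H385.HE4.mem_BX, nrm_mul, hs]
    exact ⟨Nat.mul_pos h1 h3, Nat.mul_le_mul h2 h4⟩
  rw [← Finset.sum_fiberwise_of_maps_to hmaps]
  have h1 : ∀ w ∈ BX (R * R), ∑ x ∈ (BX R) ×ˢ (BX R) with x.1 * star x.2 = w,
      gw q N T K (x.1 * star x.2) ≤ 4 * (C1 ^ 2 * (R : ℝ) ^ δ) * gw q N T K w := by
    intro w hw
    have hw' := (norm_BX hw).1
    rw [H385.HE4.mem_BX] at hw
    have e1 : ∀ x ∈ ((BX R) ×ˢ (BX R)).filter (fun x => x.1 * star x.2 = w),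
        gw q N T K (x.1 * star x.2) = gw q N T K w := by
      intro x hx
      rw [(mem_filter.1 hx).2]
    rw [Finset.sum_congr rfl e1, Finset.sum_const, nsmul_eq_mul]
    refine mul_le_mul_of_nonneg_right ?_ (gw_nonneg q N hT hK w)
    refine (card_pairs w hw' R).trans ?_
    have h2 := hdiv (nrm w) hw.1
    have h3 : ((nrm w : ℕ) : ℝ) ^ (δ / 4) ≤ (R : ℝ) ^ (δ / 2) := by
      have h4 : ((nrm w : ℕ) : ℝ) ≤ (R : ℝ) ^ (2 : ℝ) := by
        rw [Real.rpow_two, sq]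
        exact_mod_cast hw.2
      refine (Real.rpow_le_rpow (Nat.cast_nonneg _) h4 (by positivity)).trans (le_of_eq ?_)
      rw [← Real.rpow_mul (by linarith)]
      congr 1
      ring
    have h4 : ((nrm w).divisors.card : ℝ) ≤ C1 * (R : ℝ) ^ (δ / 2) :=
      h2.trans (mul_le_mul_of_nonneg_left h3 hC1.le)
    have h5 : ((nrm w).divisors.card : ℝ) ^ 2 ≤ C1 ^ 2 * (R : ℝ) ^ δ := by
      refine (pow_le_pow_left₀ (Nat.cast_nonneg _) h4 2).trans (le_of_eq ?_)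
      rw [mul_pow, ← Real.rpow_natCast ((R : ℝ) ^ (δ / 2)) 2, ← Real.rpow_mul (by linarith)]
      congr 2
      push_cast
      ring
    linarith
  refine (Finset.sum_le_sum h1).trans ?_
  rw [← Finset.mul_sum]
  have h2 : ∑ w ∈ BX (R * R), gw q N T K w ≤ 8 / ‖tc q‖ *
      (C3 * Lg (R * R) ^ 2 * (T + N / ‖tc q‖) + C2 * Lg (R * R) ^ 2 * (K + 2 * N / ‖tc q‖)) := by
    unfold gw
    rw [← Finset.mul_sum, Finset.sum_add_distrib]
    refine mul_le_mul_of_nonneg_left ?_ (by positivity)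
    have hRR : 1 ≤ R * R := Nat.mul_pos hR hR
    exact add_le_add (hcre q (R * R) T N hq hRR hT (by linarith))
      (hcim q (R * R) K (2 * N) hq hRR hK (by linarith))
  have hLR : Lg (R * R) ≤ 2 * Lg R := by
    unfold Lg
    push_cast
    rw [Real.log_mul (by linarith) (by linarith)]
    linarith
  have hLR0 : 0 ≤ Lg (R * R) := by
    have := Lg_one (Nat.mul_pos hR hR : 1 ≤ R * R)
    linarith
  have hLR2 : Lg (R * R) ^ 2 ≤ 4 * Lg R ^ 2 := by
    calc Lg (R * R) ^ 2 ≤ (2 * Lg R) ^ 2 := pow_le_pow_left₀ hLR0 hLR 2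
      _ = _ := by ring
  have hnq : (nrm q : ℝ) = ‖tc q‖ * ‖tc q‖ := by rw [nrm_real, sq]
  have h3 : 8 / ‖tc q‖ *
      (C3 * Lg (R * R) ^ 2 * (T + N / ‖tc q‖) + C2 * Lg (R * R) ^ 2 * (K + 2 * N / ‖tc q‖)) ≤
      8 * (4 * (C2 + C3) * 3) * Lg R ^ 2 * ((T + K) / ‖tc q‖ + N / nrm q) := by
    have a0 : 0 ≤ (N : ℝ) / ‖tc q‖ := by positivity
    have a1 : T + N / ‖tc q‖ ≤ 3 * (T + K + N / ‖tc q‖) := by linarith
    have a2 : K + 2 * N / ‖tc q‖ ≤ 3 * (T + K + N / ‖tc q‖) := by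
      have : 2 * (N : ℝ) / ‖tc q‖ = 2 * (N / ‖tc q‖) := by ring
      rw [this]
      linarith
    have a3 : 0 ≤ T + K + N / ‖tc q‖ := by linarith
    calc 8 / ‖tc q‖ * (C3 * Lg (R * R) ^ 2 * (T + N / ‖tc q‖) +
          C2 * Lg (R * R) ^ 2 * (K + 2 * N / ‖tc q‖)) ≤
        8 / ‖tc q‖ * (C3 * (4 * Lg R ^ 2) * (3 * (T + K + N / ‖tc q‖)) +
          C2 * (4 * Lg R ^ 2) * (3 * (T + K + N / ‖tc q‖))) := by gcongr
      _ = _ := by
        rw [hnq]
        field_simp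
        ring
  have hRδ : 0 ≤ (R : ℝ) ^ δ := by positivity
  calc 4 * (C1 ^ 2 * (R : ℝ) ^ δ) * ∑ w ∈ BX (R * R), gw q N T K w ≤
      4 * (C1 ^ 2 * (R : ℝ) ^ δ) *
        (8 * (4 * (C2 + C3) * 3) * Lg R ^ 2 * ((T + K) / ‖tc q‖ + N / nrm q)) :=
        mul_le_mul_of_nonneg_left (h2.trans h3) (by positivity)
    _ = _ := by ring

end Pool.Agent.Y762.HK
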