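import Pool.Agent.Y762.HK.CountS2

/-!
The pairs `a, b` with `q ∣ a + b`: the final bound.
-/

open Finset

set_option autoImplicit false
set_option maxHeartbeats 4000000

namespace Pool.Agent.Y762.HK

open H385 (ZI im1 BX nrm)
open Pool.Agent.H304R3.HK (tc tc_star_mul tc_ne_zero one_le_norm_tc)
open Pool.Agent.W354.MS (nrm_real ne_zero_of_nrm tc_sub uu uu_norm)

theorem sum_DD_final (q : ZI) (N : ℕ) (T K : ℝ) (hq : q ≠ 0) (hN : 1 ≤ N) (hT : 0 ≤ T)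
    (hK : 0 ≤ K) :
    ∑ d ∈ DD q (4 * N), 900 * Lg N ^ 2 * (((T + K) * ct d + N) / nrm d) ≤
      900 * 1080 * Lg N ^ 5 * ((T + K) * (nrm q).divisors.card / ‖tc q‖ + N / nrm q) := by
  have hN0 : (1 : ℝ) ≤ N := by exact_mod_cast hN
  have hL1 := Lg_one hN
  have hq0 := tc_pos hq
  have hqn : (0 : ℝ) < nrm q := by exact_mod_cast nrm_pos hq
  have h5 : ∑ d ∈ DD q (4 * N), 900 * Lg N ^ 2 * (((T + K) * ct d + N) / nrm d) =
      900 * Lg N ^ 2 * ((T + K) * ∑ d ∈ DD q (4 * N), (ct d : ℝ) / nrm d +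
        N * ∑ d ∈ DD q (4 * N), 1 / (nrm d : ℝ)) := by
    rw [← Finset.mul_sum, Finset.mul_sum (f := fun d => (ct d : ℝ) / nrm d),
      Finset.mul_sum (f := fun d => 1 / (nrm d : ℝ)), ← Finset.sum_add_distrib]
    congr 1
    refine Finset.sum_congr rfl fun d _ => ?_
    ring
  have h6 := sum_ct q hq (4 * N)
  have h7 := sum_DD q hq (4 * N)
  have hHH : HH (4 * N) ≤ 360 * Lg N ^ 2 := by
    have h8 := sum_BX_inv (4 * N)
    have h9 : 1 + Real.log (((4 * N : ℕ) : ℝ) + 1) ≤ 6 * Lg N := by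
      have h10 : Real.log (((4 * N : ℕ) : ℝ) + 1) ≤ Real.log (8 * N) := by
        apply Real.log_le_log (by positivity)
        push_cast
        linarith
      rw [Real.log_mul (by norm_num) (by linarith)] at h10
      have h11 : Real.log 8 = 3 * Real.log 2 := by
        rw [show (8 : ℝ) = 2 ^ 3 by norm_num, Real.log_pow]
        push_cast
        ring
      have h12 := Real.log_two_lt_d9
      have h13 := Real.log_natCast_nonneg N
      unfold Lg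
      linarith
    have h10 : 0 ≤ 1 + Real.log (((4 * N : ℕ) : ℝ) + 1) := by
      have := Real.log_nonneg (show (1 : ℝ) ≤ ((4 * N : ℕ) : ℝ) + 1 by
        have : (0 : ℝ) ≤ ((4 * N : ℕ) : ℝ) := Nat.cast_nonneg _
        linarith)
      linarith
    calc HH (4 * N) ≤ 10 * (1 + Real.log (((4 * N : ℕ) : ℝ) + 1)) ^ 2 := h8
      _ ≤ 10 * (6 * Lg N) ^ 2 := by gcongr
      _ = _ := by ring
  have hlog : 1 + Real.log (((4 * N : ℕ) : ℝ)) ≤ 3 * Lg N :=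
    log_le_Lg hN _ (by positivity) (by push_cast; linarith)
  have hlog0 : 0 ≤ 1 + Real.log (((4 * N : ℕ) : ℝ)) := by
    have := Real.log_natCast_nonneg (4 * N)
    linarith
  have hH0 := HH_nonneg (4 * N)
  have h8 : ∑ d ∈ DD q (4 * N), (ct d : ℝ) / nrm d ≤
      1080 * Lg N ^ 3 * ((nrm q).divisors.card / ‖tc q‖) := by
    refine h6.trans ?_
    calc (nrm q).divisors.card * (1 + Real.log ((4 * N : ℕ) : ℝ)) / ‖tc q‖ * HH (4 * N) ≤
        (nrm q).divisors.card * (3 * Lg N) / ‖tc q‖ * (360 * Lg N ^ 2) := by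
          gcongr
      _ = _ := by ring
  have h9 : ∑ d ∈ DD q (4 * N), 1 / (nrm d : ℝ) ≤ 1080 * Lg N ^ 3 * (1 / nrm q) := by
    refine h7.trans ?_
    have hLL : Lg N ^ 2 ≤ Lg N ^ 3 := pow_le_pow_right₀ hL1 (by norm_num)
    calc 1 / (nrm q : ℝ) * HH (4 * N) ≤ 1 / (nrm q : ℝ) * (360 * Lg N ^ 2) := by gcongr
      _ ≤ 1 / (nrm q : ℝ) * (1080 * Lg N ^ 3) := by
        refine mul_le_mul_of_nonneg_left ?_ (by positivity)
        nlinarith [pow_pos (show 0 < Lg N by linarith) 2]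
      _ = _ := by ring
  have hTK : 0 ≤ T + K := by linarith
  rw [h5]
  calc 900 * Lg N ^ 2 * ((T + K) * ∑ d ∈ DD q (4 * N), (ct d : ℝ) / nrm d +
        N * ∑ d ∈ DD q (4 * N), 1 / (nrm d : ℝ)) ≤
      900 * Lg N ^ 2 * ((T + K) * (1080 * Lg N ^ 3 * ((nrm q).divisors.card / ‖tc q‖)) +
        N * (1080 * Lg N ^ 3 * (1 / nrm q))) := by gcongr
    _ = _ := by ring

theorem norm_add_le_BX {N : ℕ} {a b : ZI} (ha : a ∈ BX N) (hb : b ∈ BX N) :
    nrm (a + b) ≤ 4 * N ∧ nrm (a - b) ≤ 4 * N := by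
  have e1 := (norm_BX ha).2
  have e2 := (norm_BX hb).2
  have hN : (0 : ℝ) ≤ N := Nat.cast_nonneg N
  have key : ∀ z : ZI, ‖tc z‖ ≤ 2 * Real.sqrt N → nrm z ≤ 4 * N := by
    intro z hz
    have e4 : (nrm z : ℝ) ≤ ((4 * N : ℕ) : ℝ) := by
      rw [nrm_real]
      push_cast
      calc ‖tc z‖ ^ 2 ≤ (2 * Real.sqrt N) ^ 2 := pow_le_pow_left₀ (norm_nonneg _) hz 2
        _ = 4 * N := by rw [mul_pow, Real.sq_sqrt hN]; norm_num
    exact_mod_cast e4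
  constructor
  · apply key
    rw [tc_add']
    refine (norm_add_le _ _).trans ?_
    linarith
  · apply key
    rw [tc_sub]
    refine (norm_sub_le _ _).trans ?_
    linarith

/-- the summand for `s = a + b` -/
noncomputable def ps (T K : ℝ) (s b : ZI) : ℝ :=
  2 / (‖tc s‖ * ‖tc b‖) * mi T (xx (b + s) b) + 2 / (‖tc s‖ * ‖tc b‖) * mi K (yy (b + s) (-b))

theorem ps_nonneg {T K : ℝ} (hT : 0 ≤ T) (hK : 0 ≤ K) (s b : ZI) : 0 ≤ ps T K s b := by
  unfold ps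
  have h1 := mi_nonneg hT (xx_nonneg (b + s) b)
  have h2 := mi_nonneg hK (yy_nonneg (b + s) (-b))
  positivity

open Classical in
/-- the pairs with comparable `a + b` and `a - b` -/
theorem sumS1 (q : ZI) (N : ℕ) (T K : ℝ) (hq : q ≠ 0) (hN : 1 ≤ N) (hT : 0 ≤ T) (hK : 0 ≤ K) :
    ∑ b ∈ BX N, ∑ a ∈ BX N, (if a ≠ b ∧ a ≠ -b ∧ q ∣ a + b ∧ ‖tc b‖ ≤ ‖tc a‖ ∧
      ‖tc (a + b)‖ ≤ 2 * ‖tc (a - b)‖ then tm T K a b else 0) ≤
      2 * (900 * 1080) * Lg N ^ 5 * ((T + K) * (nrm q).divisors.card / ‖tc q‖ + N / nrm q) := by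
  have hN0 : (1 : ℝ) ≤ N := by exact_mod_cast hN
  have h3 : ∑ b ∈ BX N, ∑ a ∈ BX N, (if a ≠ b ∧ a ≠ -b ∧ q ∣ a + b ∧ ‖tc b‖ ≤ ‖tc a‖ ∧
      ‖tc (a + b)‖ ≤ 2 * ‖tc (a - b)‖ then tm T K a b else 0) ≤
      ∑ d ∈ DD q (4 * N), ∑ b ∈ Sd N d, 2 * ps T K d b := by
    have h4 : ∀ b ∈ BX N, ∑ a ∈ BX N, (if a ≠ b ∧ a ≠ -b ∧ q ∣ a + b ∧ ‖tc b‖ ≤ ‖tc a‖ ∧
      ‖tc (a + b)‖ ≤ 2 * ‖tc (a - b)‖ then tm T K a b else 0) ≤
        ∑ d ∈ DD q (4 * N), (if -b ∈ Sd N d then 2 * ps T K d (-b) else 0) := by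
      intro b hb
      rw [← Finset.sum_filter, ← Finset.sum_filter]
      set F := (BX N).filter (fun a => a ≠ b ∧ a ≠ -b ∧ q ∣ a + b ∧ ‖tc b‖ ≤ ‖tc a‖ ∧
        ‖tc (a + b)‖ ≤ 2 * ‖tc (a - b)‖) with hF
      have hinj : Set.InjOn (fun a : ZI => a + b) (F : Set ZI) := by
        intro x _ y _ hxy
        exact add_left_injective b hxy
      have h5 : ∑ a ∈ F, tm T K a b ≤ ∑ a ∈ F, (fun d => 2 * ps T K d (-b)) (a + b) := by
        refine Finset.sum_le_sum fun a ha => ?_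
        rw [hF, mem_filter] at ha
        obtain ⟨ha1, ha2, ha3, ha4, ha5, ha6⟩ := ha
        exact pair_one hT hK ha1 hb ha2 ha3 ha5 ha6
      refine h5.trans ?_
      rw [← Finset.sum_image (f := fun d => 2 * ps T K d (-b)) hinj]
      refine Finset.sum_le_sum_of_subset_of_nonneg ?_ (fun _ _ _ => by
        have := ps_nonneg hT hK (s := ‹ZI›) (b := -b)
        linarith)
      intro d hd
      rw [mem_image] at hd
      obtain ⟨a, ha, rfl⟩ := hd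
      rw [hF, mem_filter] at ha
      obtain ⟨ha1, ha2, ha3, ha4, ha5, ha6⟩ := ha
      have e0 : -b + (a + b) = a := by ring
      rw [mem_filter, mem_DD, mem_Sd, e0, norm_tc_neg]
      refine ⟨⟨?_, ha4⟩, ?_, ha1, ha5⟩
      · rw [H385.HE4.mem_BX]
        refine ⟨nrm_pos ?_, (norm_add_le_BX ha1 hb).1⟩
        intro h
        exact ha3 (eq_neg_of_add_eq_zero_left h)
      · rw [H385.HE4.mem_BX] at hb ⊢
        rw [nrm_neg]
        exact hb
    refine (Finset.sum_le_sum h4).trans ?_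
    rw [Finset.sum_comm]
    refine Finset.sum_le_sum fun d _ => ?_
    rw [← Finset.sum_filter]
    have hinj : Set.InjOn (fun b : ZI => -b) ((BX N).filter (fun b => -b ∈ Sd N d) : Set ZI) := by
      intro x _ y _ hxy
      exact neg_injective hxy
    rw [← Finset.sum_image (f := fun b => 2 * ps T K d b) hinj]
    refine Finset.sum_le_sum_of_subset_of_nonneg ?_ (fun _ _ _ => by
      have := ps_nonneg hT hK (s := d) (b := ‹ZI›)
      linarith)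
    intro b hb
    rw [mem_image] at hb
    obtain ⟨x, hx, rfl⟩ := hb
    exact (mem_filter.1 hx).2
  refine h3.trans ?_
  have h4 : ∑ d ∈ DD q (4 * N), ∑ b ∈ Sd N d, 2 * ps T K d b ≤
      2 * ∑ d ∈ DD q (4 * N), 900 * Lg N ^ 2 * (((T + K) * ct d + N) / nrm d) := by
    rw [Finset.mul_sum]
    refine Finset.sum_le_sum fun d hd => ?_
    obtain ⟨e1, -⟩ := (mem_DD q _ d).1 hd
    obtain ⟨e2, e3⟩ := norm_BX e1
    rw [← Finset.mul_sum]
    refine mul_le_mul_of_nonneg_left ?_ (by norm_num)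
    refine per_s hN hT hK e2 (e3.trans (le_of_eq ?_))
    push_cast
    rw [Real.sqrt_mul (by norm_num), show (4 : ℝ) = 2 ^ 2 by norm_num, Real.sqrt_sq (by norm_num)]
  have h5 := sum_DD_final q N T K hq hN hT hK
  linarith

open Classical in
/-- the pairs with small `a - b` -/
theorem sumS2 (δ : ℝ) (hδ : 0 < δ) : ∃ C : ℝ, 0 < C ∧ ∀ (q : ZI) (N : ℕ) (T K : ℝ), q ≠ 0 →
    1 ≤ N → 0 ≤ T → 0 ≤ K →
    ∑ a ∈ BX N, ∑ b ∈ BX N, (if a ≠ b ∧ q ∣ a + b ∧ ‖tc b‖ ≤ ‖tc a‖ ∧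
      2 * ‖tc (a - b)‖ < ‖tc (a + b)‖ then tm T K a b else 0) ≤
      C * ((4 * N : ℕ) : ℝ) ^ δ * Lg (4 * N) ^ 2 * ((T + K) / ‖tc q‖ + N / nrm q) := by
  obtain ⟨C, hC, h⟩ := sum_w δ hδ
  refine ⟨C, hC, ?_⟩
  intro q N T K hq hN hT hK
  refine le_trans ?_ (h q N (4 * N) T K hq hN (by omega) hT hK)
  rw [← Finset.sum_product', ← Finset.sum_filter]
  set F := ((BX N) ×ˢ (BX N)).filter (fun x => x.1 ≠ x.2 ∧ q ∣ x.1 + x.2 ∧ ‖tc x.2‖ ≤ ‖tc x.1‖ ∧
      2 * ‖tc (x.1 - x.2)‖ < ‖tc (x.1 + x.2)‖) with hF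
  set φ : ZI × ZI → ZI × ZI := fun x => (qe q (x.1 + x.2), x.1 - x.2) with hφ
  have hinj : Set.InjOn φ (F : Set (ZI × ZI)) := by
    intro x hx y hy hxy
    rw [mem_coe, hF, mem_filter] at hx hy
    simp only [hφ, Prod.mk.injEq] at hxy
    have e1 : x.1 + x.2 = y.1 + y.2 := by
      rw [qe_spec hx.2.2.1, qe_spec hy.2.2.1, hxy.1]
    have e2 := hxy.2
    have r1 := congrArg Zsqrtd.re e1
    have r2 := congrArg Zsqrtd.im e1
    have r3 := congrArg Zsqrtd.re e2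
    have r4 := congrArg Zsqrtd.im e2
    simp only [Zsqrtd.re_add, Zsqrtd.im_add, Zsqrtd.re_sub, Zsqrtd.im_sub] at r1 r2 r3 r4
    refine Prod.ext ?_ ?_
    · ext <;> omega
    · ext <;> omega
  have h5 : ∑ x ∈ F, tm T K x.1 x.2 ≤ ∑ x ∈ F, (fun y : ZI × ZI => gw q N T K (y.1 * star y.2)) (φ x) := by
    refine Finset.sum_le_sum fun x hx => ?_
    rw [hF, mem_filter, mem_product] at hx
    obtain ⟨⟨h1, h2⟩, h3, h4, h5, h6⟩ := hx
    exact pair_two hN hT hK h1 h2 h3 h5 h6 hq (qe_spec h4)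
  refine h5.trans ?_
  rw [← Finset.sum_image (f := fun y : ZI × ZI => gw q N T K (y.1 * star y.2)) hinj]
  refine Finset.sum_le_sum_of_subset_of_nonneg ?_ (fun _ _ _ => gw_nonneg q N hT hK _)
  intro y hy
  rw [mem_image] at hy
  obtain ⟨x, hx, rfl⟩ := hy
  rw [hF, mem_filter, mem_product] at hx
  obtain ⟨⟨h1, h2⟩, h3, h4, h5, h6⟩ := hx
  obtain ⟨k1, k2⟩ := norm_add_le_BX h1 h2
  have hs := qe_spec h4
  have hs0 : x.1 + x.2 ≠ 0 := by
    intro h0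
    rw [h0] at h6
    have : ‖tc (0 : ZI)‖ = 0 := by simp [tc]
    rw [this] at h6
    have := norm_nonneg (tc (x.1 - x.2))
    linarith
  have he0 : qe q (x.1 + x.2) ≠ 0 := by
    intro h0
    rw [h0, mul_zero] at hs
    exact hs0 hs
  show φ x ∈ BX (4 * N) ×ˢ BX (4 * N)
  rw [hφ, mem_product, H385.HE4.mem_BX, H385.HE4.mem_BX]
  refine ⟨⟨nrm_pos he0, ?_⟩, nrm_pos (sub_ne_zero.2 h3), k2⟩
  refine le_trans ?_ k1
  conv_rhs => rw [hs]
  rw [nrm_mul]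
  exact Nat.le_mul_of_pos_left _ (nrm_pos hq)

open Classical in
/-- all the pairs with `q ∣ a + b` -/
theorem pairsS (δ : ℝ) (hδ : 0 < δ) : ∃ C : ℝ, 0 < C ∧ ∀ (q : ZI) (N : ℕ) (T K : ℝ), q ≠ 0 →
    1 ≤ N → 0 ≤ T → 0 ≤ K →
    ∑ a ∈ BX N, ∑ b ∈ BX N, (if a ≠ b ∧ a ≠ -b ∧ q ∣ a + b then tm T K a b else 0) ≤
      C * ((4 * N : ℕ) : ℝ) ^ δ * Lg N ^ 5 *
        ((T + K) * (nrm q).divisors.card / ‖tc q‖ + N / nrm q) := by
  obtain ⟨C, hC, h2⟩ := sumS2 δ hδ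
  refine ⟨2 * (2 * (900 * 1080)) + 2 * (9 * C), by positivity, ?_⟩
  intro q N T K hq hN hT hK
  have hN0 : (1 : ℝ) ≤ N := by exact_mod_cast hN
  have hL1 := Lg_one hN
  have hq0 := tc_pos hq
  have hqn : (0 : ℝ) < nrm q := by exact_mod_cast nrm_pos hq
  set f : ZI → ZI → ℝ := fun a b => (if a ≠ b ∧ a ≠ -b ∧ q ∣ a + b ∧ ‖tc b‖ ≤ ‖tc a‖ ∧
      ‖tc (a + b)‖ ≤ 2 * ‖tc (a - b)‖ then tm T K a b else 0) with hf
  set g : ZI → ZI → ℝ := fun a b => (if a ≠ b ∧ q ∣ a + b ∧ ‖tc b‖ ≤ ‖tc a‖ ∧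
      2 * ‖tc (a - b)‖ < ‖tc (a + b)‖ then tm T K a b else 0) with hg
  have hf0 : ∀ a b, 0 ≤ f a b := by
    intro a b
    simp only [hf]
    split_ifs
    · exact tm_nonneg hT hK a b
    · exact le_rfl
  have hg0 : ∀ a b, 0 ≤ g a b := by
    intro a b
    simp only [hg]
    split_ifs
    · exact tm_nonneg hT hK a b
    · exact le_rfl
  have hone : ∀ a b : ZI, a ≠ b → a ≠ -b → q ∣ a + b → ‖tc b‖ ≤ ‖tc a‖ →
      tm T K a b ≤ f a b + g a b := by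
    intro a b k1 k2 k3 k4
    rcases le_or_gt ‖tc (a + b)‖ (2 * ‖tc (a - b)‖) with h | h
    · have e : f a b = tm T K a b := if_pos ⟨k1, k2, k3, k4, h⟩
      have := hg0 a b
      linarith
    · have e : g a b = tm T K a b := if_pos ⟨k1, k3, k4, h⟩
      have := hf0 a b
      linarith
  have h1 : ∀ a b : ZI, (if a ≠ b ∧ a ≠ -b ∧ q ∣ a + b then tm T K a b else 0) ≤
      (f a b + g a b) + (f b a + g b a) := by
    intro a b
    have t1 := hf0 a b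
    have t2 := hf0 b a
    have t3 := hg0 a b
    have t4 := hg0 b a
    by_cases h : a ≠ b ∧ a ≠ -b ∧ q ∣ a + b
    · rw [if_pos h]
      obtain ⟨k1, k2, k3⟩ := h
      rcases le_total ‖tc b‖ ‖tc a‖ with h | h
      · have := hone a b k1 k2 k3 h
        linarith
      · have := hone b a (Ne.symm k1) (by
          intro h5
          apply k2
          rw [h5, neg_neg]) (by rw [add_comm]; exact k3) h
        rw [tm_comm T K b a] at this
        linarith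
    · rw [if_neg h]
      linarith
  have hsum : ∑ a ∈ BX N, ∑ b ∈ BX N, (if a ≠ b ∧ a ≠ -b ∧ q ∣ a + b then tm T K a b else 0) ≤
      2 * (∑ b ∈ BX N, ∑ a ∈ BX N, f a b) + 2 * (∑ a ∈ BX N, ∑ b ∈ BX N, g a b) := by
    calc _ ≤ ∑ a ∈ BX N, ∑ b ∈ BX N, ((f a b + g a b) + (f b a + g b a)) :=
          Finset.sum_le_sum fun a _ => Finset.sum_le_sum fun b _ => h1 a b
      _ = (∑ a ∈ BX N, ∑ b ∈ BX N, f a b + ∑ a ∈ BX N, ∑ b ∈ BX N, g a b) +
          (∑ a ∈ BX N, ∑ b ∈ BX N, f b a + ∑ a ∈ BX N, ∑ b ∈ BX N, g b a) := by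
          simp only [Finset.sum_add_distrib]
      _ = _ := by
          rw [Finset.sum_comm (f := fun a b => f a b), Finset.sum_comm (f := fun a b => g b a)]
          ring
  have s1 := sumS1 q N T K hq hN hT hK
  have s2 := h2 q N T K hq hN hT hK
  have hP : 1 ≤ ((4 * N : ℕ) : ℝ) ^ δ := by
    refine Real.one_le_rpow ?_ hδ.le
    push_cast
    linarith
  have hτ : (1 : ℝ) ≤ (nrm q).divisors.card := by
    have : 0 < (nrm q).divisors.card := Finset.card_pos.2 ⟨1, Nat.one_mem_divisors.2 (by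
      have := nrm_pos hq
      omega)⟩
    exact_mod_cast this
  have hL5 : 1 ≤ Lg N ^ 5 := one_le_pow₀ hL1
  set B : ℝ := (T + K) * (nrm q).divisors.card / ‖tc q‖ + N / nrm q with hB
  have hB0 : 0 ≤ B := by positivity
  have b1 : (T + K) / ‖tc q‖ + N / nrm q ≤ B := by
    rw [hB]
    have : (T + K) / ‖tc q‖ ≤ (T + K) * (nrm q).divisors.card / ‖tc q‖ := by
      gcongr
      exact le_mul_of_one_le_right (by linarith) hτ
    linarith
  have hL4 : Lg (4 * N) ^ 2 ≤ 9 * Lg N ^ 5 := by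
    have e1 : Lg (4 * N) ≤ 3 * Lg N := by
      have := log_le_Lg hN (((4 * N : ℕ) : ℝ)) (by positivity) (by push_cast; linarith)
      exact this
    have e2 : 0 ≤ Lg (4 * N) := by
      have := Lg_one (show 1 ≤ 4 * N by omega)
      linarith
    calc Lg (4 * N) ^ 2 ≤ (3 * Lg N) ^ 2 := pow_le_pow_left₀ e2 e1 2
      _ = 9 * Lg N ^ 2 := by ring
      _ ≤ 9 * Lg N ^ 5 := by
        have := pow_le_pow_right₀ hL1 (show 2 ≤ 5 by norm_num)
        linarith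
  have s1' : ∑ b ∈ BX N, ∑ a ∈ BX N, f a b ≤
      2 * (900 * 1080) * (((4 * N : ℕ) : ℝ) ^ δ * Lg N ^ 5 * B) := by
    refine s1.trans ?_
    rw [mul_assoc (2 * (900 * 1080) : ℝ)]
    refine mul_le_mul_of_nonneg_left ?_ (by norm_num)
    refine mul_le_mul_of_nonneg_right ?_ hB0
    exact le_mul_of_one_le_left (by positivity) hP
  have s2' : ∑ a ∈ BX N, ∑ b ∈ BX N, g a b ≤
      9 * C * (((4 * N : ℕ) : ℝ) ^ δ * Lg N ^ 5 * B) := by
    refine s2.trans ?_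
    calc C * ((4 * N : ℕ) : ℝ) ^ δ * Lg (4 * N) ^ 2 * ((T + K) / ‖tc q‖ + N / nrm q) ≤
        C * ((4 * N : ℕ) : ℝ) ^ δ * (9 * Lg N ^ 5) * B := by gcongr
      _ = _ := by ring
  calc _ ≤ _ := hsum
    _ ≤ 2 * (2 * (900 * 1080) * (((4 * N : ℕ) : ℝ) ^ δ * Lg N ^ 5 * B)) +
        2 * (9 * C * (((4 * N : ℕ) : ℝ) ^ δ * Lg N ^ 5 * B)) := by gcongr
    _ = _ := by ring

end Pool.Agent.Y762.HK
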