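import Pool.Agent.Y762.HK.MS
import Pool.Agent.Y762.HK.Cond

/-!
Mean square of the full prime sums over the pairs `(k, χ)`.
-/

open Complex Filter Topology Set MeasureTheory

set_option autoImplicit false
set_option maxHeartbeats 4000000

namespace Pool.Agent.Y762.HK

open H385 hiding ee ee_norm ee_add SS
open Pool.Agent.H304R3.HK (tc LamK bb)
open Pool.Agent.W354.PK (psik aK HCk)
open Pool.Agent.W354.MS (uu uu_norm nrm_real bt_le_wt)

open Classical in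
/-- the sum over the off-diagonal pairs -/
noncomputable def OD (q : ZI) (N : ℕ) (T K : ℝ) : ℝ :=
  ∑ a ∈ BX N, ∑ b ∈ BX N, (if a ≠ b ∧ q ∣ a - b then tm T K a b else 0)

theorem OD_nonneg (q : ZI) (N : ℕ) {T K : ℝ} (hT : 0 ≤ T) (hK : 0 ≤ K) : 0 ≤ OD q N T K := by
  unfold OD
  refine Finset.sum_nonneg fun a _ => Finset.sum_nonneg fun b _ => ?_
  split_ifs
  · exact tm_nonneg hT hK a b
  · exact le_rfl

/-- the short sum -/
noncomputable def Sx (q : ZI) (N : ℕ) (T u : ℝ) (x : ℕ × MulChar (RQ q) ℂ) (t : ℝ) : ℂ :=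
  (1 / 4 : ℂ) * ∑ a ∈ BX N, vv q T u a t * uu a ^ x.1 * chiZ q x.2 a

theorem Sx_le_PP (q : ZI) (r K N : ℕ) (T u t : ℝ) :
    ∑ x ∈ Fam q r K, ‖Sx q N T u x t‖ ^ 2 ≤ PP q r K N T u t := by
  classical
  unfold PP
  rw [← Finset.sum_product']
  unfold Fam
  exact Finset.sum_le_sum_of_subset_of_nonneg (Finset.filter_subset _ _)
    (fun _ _ _ => sq_nonneg _)

/-- mean square of the full prime sums -/
theorem full_ms : ∃ C : ℝ, 0 < C ∧ ∀ (q : ZI) (r K N : ℕ) (cd : MulChar (RQ q) ℂ → ZI)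
    (pr : MulChar (RQ q) ℂ → (ZI →* ℂ)) (T κ εs δ u : ℝ), q ≠ 0 →
    (∀ χ : MulChar (RQ q) ℂ, PrimData q χ (cd χ) (pr χ)) → 1 ≤ N → 1 ≤ κ → 1 ≤ T →
    T ≤ Real.exp (κ ^ 2) → 0 ≤ u → 0 < δ → 0 ≤ εs → εs ≤ 1 → Tl N u ≤ 1 →
    0 < (Fam q r K).card → κ ≤ εs * T →
    (phiQ q : ℝ) * K / 4 ≤ (1 + εs) * (Fam q r K).card →
    (phiQ q : ℝ) * Lg N ^ 2 * OD q N T K ≤ εs * T * (Fam q r K).card →
    ∫ t : ℝ, ∑ x ∈ Fam q r K, (1 / ((Fam q r K).card : ℝ)) *
      ‖∑' n : ℕ, aK x.1 (pr x.2) n * ((Real.sqrt n : ℂ)⁻¹ * bt T u t (Real.log n))‖ ^ 2 ≤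
      YH cK δ C (nrm q) T (εs * T) u := by
  classical
  obtain ⟨CS0, hCS0, hS, hcK, hlam⟩ := selb_cK
  obtain ⟨C1, hC1, h1⟩ := short_ms
  obtain ⟨C2, hC2, h2⟩ := wt_sq_int
  obtain ⟨C6, hC6, h6⟩ := SW_le cK CS0 hS
  refine ⟨3 * C1 + C2 + C6, by positivity, ?_⟩
  intro q r K N cd pr T κ εs δ u hq hpr hN hκ hT hTκ hu hδ hεs hεs1 hTl hF hκT hρ hOD
  have hT0 : 0 ≤ T := by linarith
  obtain ⟨a1, a2⟩ := h1 q r K N T κ u hq hN hκ hT hTκ hu
  obtain ⟨b1, b2⟩ := h2 T hT0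
  set F : ℝ := ((Fam q r K).card : ℝ) with hFd
  have hF0 : 0 < F := by rw [hFd]; exact_mod_cast hF
  have hG := Gq_nonneg (nrm q) u
  have hpt : ∀ (t : ℝ), ∀ x ∈ Fam q r K, ‖∑' n : ℕ, aK x.1 (pr x.2) n * bn T u t n‖ ^ 2 ≤
      (1 + δ) * ‖Sx q N T u x t‖ ^ 2 +
      (1 + 1 / δ) * (wt T t ^ 2 * (4 * (Gq (nrm q) u + 1) ^ 2)) := by
    intro t x hx
    have hw := wt_nonneg T t hT0
    obtain ⟨-, hx2⟩ := (mem_Fam q hq r K x).1 hx
    have h1 := point_k q (cd x.2) x.2 (pr x.2) x.1 ((hpr x.2).hck hq x.1 hx2) (hpr x.2).eq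
      N T u t hT0
    change ‖∑' n : ℕ, aK x.1 (pr x.2) n * bn T u t n - Sx q N T u x t‖ ≤ _ at h1
    set S := Sx q N T u x t with hS
    set R := ∑' n : ℕ, aK x.1 (pr x.2) n * bn T u t n with hR
    have h2 : R = S + (R - S) := by ring
    have h3 : ‖R - S‖ ≤ wt T t * (2 * (Gq (nrm q) u + 1)) := by
      refine h1.trans ?_
      refine mul_le_mul_of_nonneg_left ?_ hw
      linarith
    have h4 : ‖R - S‖ ^ 2 ≤ wt T t ^ 2 * (4 * (Gq (nrm q) u + 1) ^ 2) := by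
      have := pow_le_pow_left₀ (norm_nonneg _) h3 2
      refine this.trans (le_of_eq ?_)
      ring
    rw [h2]
    refine (FamLS.sq_add_le S (R - S) δ hδ).trans ?_
    have h5 : 0 ≤ 1 + 1 / δ := by positivity
    have h6 := mul_le_mul_of_nonneg_left h4 h5
    linarith
  have hsum : ∀ t : ℝ, ∑ x ∈ Fam q r K, (1 / F) *
      ‖∑' n : ℕ, aK x.1 (pr x.2) n * bn T u t n‖ ^ 2 ≤
      (1 + δ) * (1 / F) * PP q r K N T u t +
      (1 + 1 / δ) * (4 * (Gq (nrm q) u + 1) ^ 2) * wt T t ^ 2 := by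
    intro t
    calc _ ≤ ∑ x ∈ Fam q r K, (1 / F) * ((1 + δ) * ‖Sx q N T u x t‖ ^ 2 +
          (1 + 1 / δ) * (wt T t ^ 2 * (4 * (Gq (nrm q) u + 1) ^ 2))) :=
          Finset.sum_le_sum fun x hx => mul_le_mul_of_nonneg_left (hpt t x hx) (by positivity)
      _ = (1 + δ) * (1 / F) * ∑ x ∈ Fam q r K, ‖Sx q N T u x t‖ ^ 2 +
          (1 + 1 / δ) * (4 * (Gq (nrm q) u + 1) ^ 2) * wt T t ^ 2 := by
          rw [← Finset.mul_sum, Finset.sum_add_distrib, Finset.sum_const, nsmul_eq_mul, ← hFd,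
            ← Finset.mul_sum]
          field_simp
      _ ≤ _ := by
          refine add_le_add (mul_le_mul_of_nonneg_left (Sx_le_PP q r K N T u t) (by positivity))
            le_rfl
  have hbig : ∫ t : ℝ, ∑ x ∈ Fam q r K, (1 / F) *
      ‖∑' n : ℕ, aK x.1 (pr x.2) n * bn T u t n‖ ^ 2 ≤
      (1 + δ) * (1 / F) * (∫ t : ℝ, PP q r K N T u t) +
      (1 + 1 / δ) * (4 * (Gq (nrm q) u + 1) ^ 2) * ∫ t : ℝ, wt T t ^ 2 := by
    have i1 : Integrable (fun t => (1 + δ) * (1 / F) * PP q r K N T u t) := a1.const_mul _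
    have i2 : Integrable (fun t => (1 + 1 / δ) * (4 * (Gq (nrm q) u + 1) ^ 2) * wt T t ^ 2) :=
      b1.const_mul _
    rw [← integral_const_mul, ← integral_const_mul, ← integral_add i1 i2]
    refine integral_mono_of_nonneg ?_ (i1.add i2) ?_
    · exact Filter.Eventually.of_forall (fun t => Finset.sum_nonneg fun x _ => by positivity)
    · exact Filter.Eventually.of_forall hsum
  refine hbig.trans ?_
  set W : ℝ := T / (2 * Real.pi) * SW cK u with hW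
  obtain ⟨s0, s1⟩ := h6 u hu
  have hW0 : 0 ≤ W := by rw [hW]; positivity
  have hWle : W ≤ C6 * T * (u + 1) := by
    have h3 : T / (2 * Real.pi) ≤ T := by
      apply div_le_self hT0
      linarith [Real.pi_gt_three]
    calc W ≤ T * (C6 * (u + 1)) := mul_le_mul h3 s1 s0 hT0
      _ = _ := by ring
  have hmain : (1 / F) * (∫ t : ℝ, PP q r K N T u t) ≤
      W + (3 * C1 + C2 + C6) * (εs * T) * (u + 1) := by
    have g1 : (1 / F) * (∫ t : ℝ, PP q r K N T u t) ≤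
        (1 / F) * ((phiQ q : ℝ) * K / 4 * (W + C1 * κ * (u + 1)) +
          C1 * (phiQ q : ℝ) * Lg N ^ 2 * OD q N T K) :=
      mul_le_mul_of_nonneg_left a2 (by positivity)
    refine g1.trans ?_
    have g2 : (1 / F) * ((phiQ q : ℝ) * K / 4) ≤ 1 + εs := by
      rw [one_div, inv_mul_le_iff₀ hF0]
      linarith
    have g3 : (1 / F) * ((phiQ q : ℝ) * Lg N ^ 2 * OD q N T K) ≤ εs * T := by
      rw [one_div, inv_mul_le_iff₀ hF0]
      linarith
    have g4 : 0 ≤ W + C1 * κ * (u + 1) := by positivity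
    have g5 : C1 * κ * (u + 1) ≤ C1 * (εs * T) * (u + 1) := by gcongr
    have g6 : 0 ≤ εs * T := by positivity
    have g7 : 0 ≤ C1 * (εs * T) * (u + 1) := by positivity
    calc (1 / F) * ((phiQ q : ℝ) * K / 4 * (W + C1 * κ * (u + 1)) +
          C1 * (phiQ q : ℝ) * Lg N ^ 2 * OD q N T K) =
        ((1 / F) * ((phiQ q : ℝ) * K / 4)) * (W + C1 * κ * (u + 1)) +
          C1 * ((1 / F) * ((phiQ q : ℝ) * Lg N ^ 2 * OD q N T K)) := by ring
      _ ≤ (1 + εs) * (W + C1 * (εs * T) * (u + 1)) + C1 * (εs * T) := by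
        refine add_le_add (mul_le_mul g2 (by linarith) g4 (by linarith)) ?_
        exact mul_le_mul_of_nonneg_left g3 hC1.le
      _ ≤ W + (3 * C1 + C2 + C6) * (εs * T) * (u + 1) := by
        have g8 : εs * W ≤ C6 * (εs * T) * (u + 1) := by
          calc εs * W ≤ εs * (C6 * T * (u + 1)) := mul_le_mul_of_nonneg_left hWle hεs
            _ = _ := by ring
        have g9 : εs * (C1 * (εs * T) * (u + 1)) ≤ 1 * (C1 * (εs * T) * (u + 1)) :=
          mul_le_mul_of_nonneg_right hεs1 g7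
        have g10 : C1 * (εs * T) ≤ C1 * (εs * T) * (u + 1) := by
          have : 0 ≤ C1 * (εs * T) := by positivity
          nlinarith
        have g11 : 0 ≤ C2 * (εs * T) * (u + 1) := by positivity
        nlinarith
  unfold YH
  have e4 : 0 ≤ 1 + δ := by positivity
  have e5 : 0 ≤ 1 + 1 / δ := by positivity
  refine add_le_add ?_ ?_
  · rw [mul_assoc]
    exact mul_le_mul_of_nonneg_left hmain e4
  · rw [mul_assoc]
    refine mul_le_mul_of_nonneg_left ?_ e5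
    calc 4 * (Gq (nrm q) u + 1) ^ 2 * ∫ t : ℝ, wt T t ^ 2 ≤
        4 * (Gq (nrm q) u + 1) ^ 2 * (T + C2) := mul_le_mul_of_nonneg_left b2 (by positivity)
      _ ≤ (T + (3 * C1 + C2 + C6)) * (4 * (Gq (nrm q) u + 1) ^ 2) := by
        rw [mul_comm]
        refine mul_le_mul_of_nonneg_right ?_ (by positivity)
        linarith

end Pool.Agent.Y762.HK
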