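import Pool.Agent.H385R5.HE4
import Pool.Agent.W354.MS.Sep

/-!
Gaussian integers on lines: counting and sums of reciprocals.
-/

open Finset

set_option autoImplicit false

namespace Pool.Agent.Y762.HK

open H385 (ZI im1 BX nrm)
open Pool.Agent.H304R3.HK (tc tc_star_mul tc_ne_zero one_le_norm_tc)
open Pool.Agent.W354.MS (nrm_real ne_zero_of_nrm tc_sub)

/-- real part of `d * conj b` -/
def W1 (d b : ZI) : ℤ := d.re * b.re + d.im * b.im

/-- imaginary part of `d * conj b` -/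
def W2 (d b : ZI) : ℤ := d.im * b.re - d.re * b.im

/-- content -/
def ct (d : ZI) : ℕ := Int.gcd d.re d.im

theorem ct_pos {d : ZI} (hd : d ≠ 0) : 1 ≤ ct d := by
  unfold ct
  rw [Nat.one_le_iff_ne_zero, Ne, Int.gcd_eq_zero_iff]
  rintro ⟨h1, h2⟩
  apply hd
  ext
  · exact h1
  · exact h2

theorem nrm_int (a : ZI) : ((nrm a : ℕ) : ℤ) = a.re ^ 2 + a.im ^ 2 := H385.HE4.nrm_cast a

theorem W_sq (d b : ZI) : W1 d b ^ 2 + W2 d b ^ 2 = (nrm d : ℤ) * (nrm b : ℤ) := by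
  rw [nrm_int, nrm_int]
  unfold W1 W2
  ring

theorem nrm_pos {d : ZI} (hd : d ≠ 0) : 1 ≤ nrm d := by
  have h1 := one_le_norm_tc hd
  have h2 := nrm_real d
  have h3 : (1 : ℝ) ≤ (nrm d : ℝ) := by rw [h2]; nlinarith
  exact_mod_cast h3

theorem dvd_line (d b b' : ZI) (h : W1 d b = W1 d b') :
    (nrm d : ℤ) ∣ (ct d : ℤ) * (W2 d b - W2 d b') := by
  have hg : (ct d : ℤ) = d.re * Int.gcdA d.re d.im + d.im * Int.gcdB d.re d.im :=
    Int.gcd_eq_gcd_ab d.re d.im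
  rw [hg, nrm_int]
  unfold W1 at h
  unfold W2
  refine ⟨-(Int.gcdA d.re d.im) * (b.im - b'.im) + (Int.gcdB d.re d.im) * (b.re - b'.re), ?_⟩
  linear_combination (Int.gcdA d.re d.im * d.im - Int.gcdB d.re d.im * d.re) * h

theorem W1_le (d b : ZI) : (|W1 d b| : ℝ) ≤ ‖tc d‖ * ‖tc b‖ := by
  have h := W_sq d b
  have h1 : ((W1 d b : ℝ)) ^ 2 ≤ (‖tc d‖ * ‖tc b‖) ^ 2 := by
    rw [mul_pow, ← nrm_real, ← nrm_real]
    have : ((W1 d b ^ 2 + W2 d b ^ 2 : ℤ) : ℝ) = (((nrm d : ℤ) * (nrm b : ℤ) : ℤ) : ℝ) := by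
      rw [h]
    push_cast at this
    nlinarith [sq_nonneg (W2 d b : ℝ)]
  exact abs_le_of_sq_le_sq h1 (by positivity)

theorem W2_le (d b : ZI) : (|W2 d b| : ℝ) ≤ ‖tc d‖ * ‖tc b‖ := by
  have h := W_sq d b
  have h1 : ((W2 d b : ℝ)) ^ 2 ≤ (‖tc d‖ * ‖tc b‖) ^ 2 := by
    rw [mul_pow, ← nrm_real, ← nrm_real]
    have : ((W1 d b ^ 2 + W2 d b ^ 2 : ℤ) : ℝ) = (((nrm d : ℤ) * (nrm b : ℤ) : ℤ) : ℝ) := by
      rw [h]
    push_cast at this
    nlinarith [sq_nonneg (W1 d b : ℝ)]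
  exact abs_le_of_sq_le_sq h1 (by positivity)

theorem ct_le {d : ZI} (hd : d ≠ 0) : (ct d : ℝ) ≤ ‖tc d‖ := by
  have h1 : (ct d : ℤ) ^ 2 ≤ (nrm d : ℤ) := by
    rw [nrm_int]
    have hr : (ct d : ℤ) ∣ d.re := Int.gcd_dvd_left ..
    have hi : (ct d : ℤ) ∣ d.im := Int.gcd_dvd_right ..
    have hr2 : (ct d : ℤ) ^ 2 ∣ d.re ^ 2 := pow_dvd_pow_of_dvd hr 2
    have hi2 : (ct d : ℤ) ^ 2 ∣ d.im ^ 2 := pow_dvd_pow_of_dvd hi 2
    have h2 := dvd_add hr2 hi2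
    have h3 := nrm_pos hd
    have h4 := nrm_int d
    exact Int.le_of_dvd (by omega) h2
  have h2 : ((ct d : ℝ)) ^ 2 ≤ ‖tc d‖ ^ 2 := by
    rw [← nrm_real]
    exact_mod_cast h1
  exact (pow_le_pow_iff_left₀ (Nat.cast_nonneg _) (norm_nonneg _) (by norm_num)).1 h2

/-- position on a line -/
noncomputable def pos (d b : ZI) : ℤ := ⌊((ct d : ℝ) * W2 d b) / nrm d⌋

theorem pos_inj {d : ZI} (hd : d ≠ 0) (b b' : ZI) (h : W1 d b = W1 d b')
    (hp : pos d b = pos d b') : b = b' := by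
  have hn : (0 : ℝ) < nrm d := by exact_mod_cast nrm_pos hd
  have hni : (0 : ℤ) < nrm d := by exact_mod_cast nrm_pos hd
  obtain ⟨k, hk⟩ := dvd_line d b b' h
  have h1 : ((ct d : ℝ) * W2 d b) / nrm d - ((ct d : ℝ) * W2 d b') / nrm d = k := by
    have : ((((ct d : ℤ) * (W2 d b - W2 d b') : ℤ)) : ℝ) = (((nrm d : ℤ) * k : ℤ) : ℝ) := by rw [hk]
    push_cast at this
    field_simp
    linarith
  have h2 : k = 0 := by
    unfold pos at hp
    have e1 := Int.abs_sub_lt_one_of_floor_eq_floor hp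
    rw [h1] at e1
    have e2 : |k| < 1 := by exact_mod_cast e1
    exact Int.abs_lt_one_iff.1 e2
  rw [h2, mul_zero] at hk
  have h3 : W2 d b = W2 d b' := by
    have := (mul_eq_zero.1 hk).resolve_left (by
      have := ct_pos hd
      exact_mod_cast (by omega : ct d ≠ 0))
    linarith
  have h4 := nrm_int d
  unfold W1 at h
  unfold W2 at h3
  have e1 : (nrm d : ℤ) * (b.re - b'.re) = 0 := by
    rw [h4]; linear_combination d.re * h + d.im * h3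
  have e2 : (nrm d : ℤ) * (b.im - b'.im) = 0 := by
    rw [h4]; linear_combination d.im * h - d.re * h3
  have e3 := (mul_eq_zero.1 e1).resolve_left hni.ne'
  have e4 := (mul_eq_zero.1 e2).resolve_left hni.ne'
  ext
  · linarith
  · linarith

theorem pos_bd {d : ZI} (hd : d ≠ 0) (b : ZI) :
    |((ct d : ℝ) * W2 d b) / nrm d| ≤ ct d * ‖tc b‖ / ‖tc d‖ := by
  have hd1 := one_le_norm_tc hd
  have hd0 : 0 < ‖tc d‖ := by linarith
  rw [nrm_real, abs_div, abs_mul, abs_of_nonneg (Nat.cast_nonneg (ct d)),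
    abs_of_nonneg (sq_nonneg ‖tc d‖), div_le_div_iff₀ (by positivity) hd0]
  have h := W2_le d b
  calc (ct d : ℝ) * |(W2 d b : ℝ)| * ‖tc d‖ ≤ ct d * (‖tc d‖ * ‖tc b‖) * ‖tc d‖ := by gcongr
    _ = _ := by ring

/-- number of points on a line -/
theorem card_line {d : ZI} (hd : d ≠ 0) (Fs : Finset ZI) (c : ℤ) (hc : ∀ b ∈ Fs, W1 d b = c)
    (R : ℝ) (hR : ∀ b ∈ Fs, ‖tc b‖ ≤ R) (hdR : ‖tc d‖ ≤ 2 * R) :
    (Fs.card : ℝ) ≤ 6 * R * ct d / ‖tc d‖ := by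
  have hd1 := one_le_norm_tc hd
  have hd0 : 0 < ‖tc d‖ := by linarith
  have hR0 : 0 < R := by linarith
  set ρ : ℝ := ct d * R / ‖tc d‖ with hρ
  have hρ0 : 0 ≤ ρ := by positivity
  have hg1 : (1 : ℝ) ≤ ct d := by exact_mod_cast ct_pos hd
  have hρ1 : 1 ≤ 2 * ρ := by
    rw [hρ, mul_div_assoc', le_div_iff₀ hd0]
    nlinarith
  have hsub : ∀ b ∈ Fs, pos d b ∈ Icc ⌊-ρ⌋ ⌊ρ⌋ := by
    intro b hb
    have h1 := pos_bd hd b
    have h2 : (ct d : ℝ) * ‖tc b‖ / ‖tc d‖ ≤ ρ := by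
      rw [hρ]
      have := hR b hb
      gcongr
    have h3 := abs_le.1 (h1.trans h2)
    rw [mem_Icc]
    unfold pos
    exact ⟨Int.floor_le_floor h3.1, Int.floor_le_floor h3.2⟩
  have hcard := Finset.card_le_card_of_injOn (pos d) hsub (by
    intro b hb b' hb' h
    exact pos_inj hd b b' ((hc b hb).trans (hc b' hb').symm) h)
  rw [Int.card_Icc] at hcard
  have h4 : (⌊ρ⌋ + 1 - ⌊-ρ⌋ : ℝ) ≤ 2 * ρ + 2 := by
    have e1 := Int.floor_le ρ
    have e2 := Int.lt_floor_add_one (-ρ)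
    linarith
  have h5 : ((⌊ρ⌋ + 1 - ⌊-ρ⌋).toNat : ℝ) ≤ 2 * ρ + 2 := by
    have e0 : (0 : ℤ) ≤ ⌊ρ⌋ + 1 - ⌊-ρ⌋ := by
      have : ⌊-ρ⌋ ≤ ⌊ρ⌋ := Int.floor_le_floor (by linarith)
      linarith
    have e1 : (((⌊ρ⌋ + 1 - ⌊-ρ⌋).toNat : ℤ) : ℝ) = ((⌊ρ⌋ + 1 - ⌊-ρ⌋ : ℤ) : ℝ) := by
      rw [Int.toNat_of_nonneg e0]
    have e2 : (((⌊ρ⌋ + 1 - ⌊-ρ⌋).toNat : ℤ) : ℝ) = ((⌊ρ⌋ + 1 - ⌊-ρ⌋).toNat : ℝ) := by
      norm_cast
    rw [← e2, e1]
    push_cast
    exact h4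
  have h6 : (Fs.card : ℝ) ≤ 2 * ρ + 2 := le_trans (by exact_mod_cast hcard) h5
  have h7 : 6 * R * ct d / ‖tc d‖ = 6 * ρ := by rw [hρ]; ring
  rw [h7]
  linarith

/-- a harmonic sum over integers -/
theorem sumZ (s : Finset ℤ) (M : ℕ) (h : ∀ j ∈ s, |j| ≤ M) :
    ∑ j ∈ s, (1 : ℝ) / (|(j : ℝ)| + 1) ≤ 2 * (1 + Real.log (M + 1)) := by
  classical
  have hmaps : ∀ j ∈ s, j.natAbs ∈ range (M + 1) := by
    intro j hj
    have := h j hj
    rw [Int.abs_eq_natAbs] at this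
    rw [mem_range]
    omega
  rw [← Finset.sum_fiberwise_of_maps_to hmaps]
  have h1 : ∀ n ∈ range (M + 1), ∑ j ∈ s with j.natAbs = n, (1 : ℝ) / (|(j : ℝ)| + 1) ≤
      2 * (1 / ((n : ℝ) + 1)) := by
    intro n _
    have h2 : ∀ j ∈ s.filter (fun j => j.natAbs = n), (1 : ℝ) / (|(j : ℝ)| + 1) =
        1 / ((n : ℝ) + 1) := by
      intro j hj
      rw [mem_filter] at hj
      have : |(j : ℝ)| = (n : ℝ) := by
        rw [← hj.2, ← Int.cast_abs, Int.abs_eq_natAbs, Int.cast_natCast]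
      rw [this]
    rw [Finset.sum_congr rfl h2, Finset.sum_const, nsmul_eq_mul]
    have h3 : (s.filter (fun j => j.natAbs = n)).card ≤ 2 := by
      have : s.filter (fun j => j.natAbs = n) ⊆ {(n : ℤ), -(n : ℤ)} := by
        intro j hj
        rw [mem_filter] at hj
        rw [mem_insert, mem_singleton]
        omega
      exact (Finset.card_le_card this).trans (Finset.card_le_two)
    have h4 : ((s.filter (fun j => j.natAbs = n)).card : ℝ) ≤ 2 := by exact_mod_cast h3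
    exact mul_le_mul_of_nonneg_right h4 (by positivity)
  refine (Finset.sum_le_sum h1).trans ?_
  rw [← Finset.mul_sum]
  refine mul_le_mul_of_nonneg_left ?_ (by norm_num)
  have h5 := harmonic_le_one_add_log (M + 1)
  have h6 : ((harmonic (M + 1) : ℚ) : ℝ) = ∑ i ∈ range (M + 1), 1 / ((i : ℝ) + 1) := by
    unfold harmonic
    push_cast
    refine Finset.sum_congr rfl fun i _ => ?_
    rw [one_div]
  rw [h6] at h5
  refine h5.trans (le_of_eq ?_)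
  push_cast
  rfl

/-- sum of the reciprocals of the absolute values on a line -/
theorem sum_line {d : ZI} (hd : d ≠ 0) (Fs : Finset ZI) (c : ℤ) (hc : ∀ b ∈ Fs, W1 d b = c)
    (R : ℝ) (hR1 : 1 ≤ R) (hR : ∀ b ∈ Fs, ‖tc b‖ ≤ R)
    (hlow : ∀ b ∈ Fs, ‖tc d‖ ≤ 2 * ct d * ‖tc b‖) :
    ∑ b ∈ Fs, 1 / ‖tc b‖ ≤ 8 * (1 + Real.log (R + 3)) * ct d / ‖tc d‖ := by
  classical
  have hd1 := one_le_norm_tc hd
  have hd0 : 0 < ‖tc d‖ := by linarith
  have hg1 : (1 : ℝ) ≤ ct d := by exact_mod_cast ct_pos hd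
  have hgd := ct_le hd
  set M : ℕ := ⌊R⌋₊ + 1 with hM
  have hx : ∀ b ∈ Fs, |((ct d : ℝ) * W2 d b) / nrm d| ≤ R := by
    intro b hb
    refine (pos_bd hd b).trans ?_
    rw [div_le_iff₀ hd0]
    have := hR b hb
    have := norm_nonneg (tc b)
    nlinarith
  have hpj : ∀ b ∈ Fs, |(pos d b : ℝ)| ≤ |((ct d : ℝ) * W2 d b) / nrm d| + 1 := by
    intro b _
    unfold pos
    set x := ((ct d : ℝ) * W2 d b) / nrm d with hxd
    have e1 := Int.floor_le x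
    have e2 := Int.lt_floor_add_one x
    rw [abs_le]
    constructor
    · have := neg_abs_le x
      linarith
    · have := le_abs_self x
      linarith
  have hposM : ∀ j ∈ Fs.image (pos d), |j| ≤ M := by
    intro j hj
    rw [mem_image] at hj
    obtain ⟨b, hb, rfl⟩ := hj
    have h1 : |(pos d b : ℝ)| ≤ R + 1 := (hpj b hb).trans (by linarith [hx b hb])
    have h2 : ((|pos d b| : ℤ) : ℝ) ≤ R + 1 := by
      rw [Int.cast_abs]
      exact h1
    have h3 : |pos d b| - 1 ≤ (⌊R⌋₊ : ℤ) := by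
      rw [Int.natCast_floor_eq_floor (by linarith)]
      apply Int.le_floor.2
      push_cast
      rw [← Int.cast_abs]
      linarith
    rw [hM]
    push_cast
    linarith
  have hinj : Set.InjOn (pos d) (Fs : Set ZI) := by
    intro b hb b' hb' h
    exact pos_inj hd b b' ((hc b hb).trans (hc b' hb').symm) h
  have h1 : ∀ b ∈ Fs, 1 / ‖tc b‖ ≤ (4 * ct d / ‖tc d‖) * (1 / (|(pos d b : ℝ)| + 1)) := by
    intro b hb
    have hl := hlow b hb
    have hb0 : 0 < ‖tc b‖ := by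
      by_contra hcon
      have : ‖tc b‖ = 0 := le_antisymm (not_lt.1 hcon) (norm_nonneg _)
      rw [this, mul_zero] at hl
      linarith
    have hbd := pos_bd hd b
    have hp := hpj b hb
    rw [div_mul_div_comm, div_le_div_iff₀ hb0 (by positivity)]
    have h2 : (ct d : ℝ) * ‖tc b‖ / ‖tc d‖ * ‖tc d‖ = ct d * ‖tc b‖ := by field_simp
    have h3 : |(pos d b : ℝ)| * ‖tc d‖ ≤ ct d * ‖tc b‖ + ‖tc d‖ := by
      calc |(pos d b : ℝ)| * ‖tc d‖ ≤ (ct d * ‖tc b‖ / ‖tc d‖ + 1) * ‖tc d‖ := by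
            gcongr
            linarith
        _ = _ := by rw [add_mul, h2, one_mul]
    by_cases h4 : |(pos d b : ℝ)| ≤ 1
    · have : |(pos d b : ℝ)| * ‖tc d‖ ≤ 1 * ‖tc d‖ := by gcongr
      nlinarith
    · -- |j| ≥ 2
      have h5 : 2 ≤ |(pos d b : ℝ)| := by
        have h6 : (1 : ℝ) < ((|pos d b| : ℤ) : ℝ) := by
          rw [Int.cast_abs]
          exact lt_of_not_ge h4
        have h7 : (1 : ℤ) < |pos d b| := by exact_mod_cast h6
        have h8 : (2 : ℤ) ≤ |pos d b| := by omega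
        have h9 : (2 : ℝ) ≤ ((|pos d b| : ℤ) : ℝ) := by exact_mod_cast h8
        rwa [Int.cast_abs] at h9
      have h6 : (|(pos d b : ℝ)| - 1) * ‖tc d‖ ≤ ct d * ‖tc b‖ := by linarith
      have h7 : (|(pos d b : ℝ)| + 1) ≤ 4 * (|(pos d b : ℝ)| - 1) := by linarith
      have h8 := mul_le_mul_of_nonneg_right h7 hd0.le
      nlinarith
  refine (Finset.sum_le_sum h1).trans ?_
  rw [← Finset.mul_sum, ← Finset.sum_image (f := fun j : ℤ => (1 : ℝ) / (|(j : ℝ)| + 1)) hinj]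
  have h2 := sumZ (Fs.image (pos d)) M hposM
  have h3 : Real.log ((M : ℝ) + 1) ≤ Real.log (R + 3) := by
    apply Real.log_le_log (by positivity)
    rw [hM]
    push_cast
    have := Nat.floor_le (show 0 ≤ R by linarith)
    linarith
  calc (4 * ct d / ‖tc d‖) * ∑ j ∈ Fs.image (pos d), (1 : ℝ) / (|(j : ℝ)| + 1)
      ≤ (4 * ct d / ‖tc d‖) * (2 * (1 + Real.log (R + 3))) := by
        refine mul_le_mul_of_nonneg_left ?_ (by positivity)
        linarith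
    _ = _ := by ring

end Pool.Agent.Y762.HK
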