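import Pool.Agent.W354.MS.Full

/-!
From the full prime sum of the primitive character to the short sum (adapted from
`Pool.Agent.H385R5.HE5`, which treats the infinity type one).
-/

open Complex Filter Topology Set MeasureTheory

set_option autoImplicit false

namespace Pool.Agent.Y762.HK

open H385 hiding ee ee_norm ee_add SS
open Pool.Agent.H304R3.HK (tc LamK bb)
open Pool.Agent.H304R3.HK.M4 (bb_eq mem_T)
open Pool.Agent.W354.PK (psik aK HCk)
open Pool.Agent.W354.PK.TK (psik_apply)
open Pool.Agent.W354.MS (uu)

open Classical in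
/-- the coefficients of the short sum -/
noncomputable def vv (q : ZI) (T u : ℝ) (a : ZI) (t : ℝ) : ℂ :=
  if IsCoprime a q then (LamK a : ℂ) * bn T u t (nrm a) else 0

open HE5 in
theorem point_k (q d : ZI) (χ : MulChar (RQ q) ℂ) (χ' : ZI →* ℂ) (k : ℕ)
    (h : HCk k d χ') (hχ : ∀ a : ZI, IsCoprime a q → χ' a = chiZ q χ a) (N : ℕ) (T' u t : ℝ)
    (hT : 0 ≤ T') :
    ‖∑' n : ℕ, aK k χ' n * bn T' u t n -
      (1 / 4 : ℂ) * ∑ a ∈ BX N, vv q T' u a t * uu a ^ k * chiZ q χ a‖ ≤
      wt T' t * (2 * (Gq (nrm q) u + Tl N u)) := by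
  classical
  set b := bn T' u t with hb
  have hpsi : ∀ a : ZI, ‖psik k χ' a‖ ≤ 1 := (Pool.Agent.W354.PK.uh_psik h).hb
  -- the coefficient bound
  have haH : ∀ n, ‖aK k χ' n * b n‖ ≤ 2 * (ArithmeticFunction.vonMangoldt n * ‖b n‖) := by
    intro n
    have h1 : ‖aK k χ' n‖ ≤ 2 * (ArithmeticFunction.vonMangoldt n * 1) := by
      unfold aK
      refine bb_le _ n 1 (by norm_num) ?_
      intro a _
      rw [norm_mul, Complex.norm_real, Real.norm_of_nonneg (LamK_nn a)]
      exact mul_le_mul_of_nonneg_left (hpsi a) (LamK_nn a)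
    rw [norm_mul]
    calc ‖aK k χ' n‖ * ‖b n‖ ≤ (2 * (ArithmeticFunction.vonMangoldt n * 1)) * ‖b n‖ :=
          mul_le_mul_of_nonneg_right h1 (norm_nonneg _)
      _ = _ := by ring
  have hsb : Summable (fun n : ℕ => ArithmeticFunction.vonMangoldt n * ‖b n‖) :=
    b_summable T' u t hT
  have hsc : Summable (fun n : ℕ => aK k χ' n * b n) :=
    Summable.of_norm_bounded (hsb.mul_left 2) haH
  -- the short sum as a sum over `n`
  set s : ℕ → ℂ := fun n => if n ∈ Finset.Icc 1 N then
    bb (fun a => vv q T' u a t * uu a ^ k * chiZ q χ a) n else 0 with hs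
  have hS : (1 / 4 : ℂ) * ∑ a ∈ BX N, vv q T' u a t * uu a ^ k * chiZ q χ a = ∑' n, s n := by
    rw [sum_BX, tsum_eq_sum (s := Finset.Icc 1 N)]
    · apply Finset.sum_congr rfl
      intro n hn
      rw [hs]
      simp only
      rw [if_pos hn]
    · intro n hn
      rw [hs]
      simp only
      rw [if_neg hn]
  have hss : Summable s := summable_of_ne_finset_zero (s := Finset.Icc 1 N) (by
    intro n hn
    rw [hs]
    simp only
    rw [if_neg hn])
  rw [hS, ← hsc.tsum_sub hss]
  -- the pointwise bound of the difference
  set B1 : ℕ → ℝ := fun n => if ¬ Nat.Coprime n (nrm q) then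
    ArithmeticFunction.vonMangoldt n * ‖b n‖ else 0 with hB1
  set B2 : ℕ → ℝ := fun n => if N < n then
    ArithmeticFunction.vonMangoldt n * ‖b n‖ else 0 with hB2
  have hpos : ∀ n, 0 ≤ ArithmeticFunction.vonMangoldt n * ‖b n‖ := fun n =>
    mul_nonneg ArithmeticFunction.vonMangoldt_nonneg (norm_nonneg _)
  have hB1n : ∀ n, 0 ≤ B1 n := by
    intro n; rw [hB1]; simp only; split_ifs
    · exact le_rfl
    · exact hpos n
  have hB2n : ∀ n, 0 ≤ B2 n := by
    intro n; rw [hB2]; simp only; split_ifs
    · exact hpos n
    · exact le_rfl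
  have hB1s : Summable B1 := by
    refine Summable.of_nonneg_of_le hB1n (fun n => ?_) hsb
    rw [hB1]; simp only; split_ifs
    · exact hpos n
    · exact le_rfl
  have hB2s : Summable B2 := by
    refine Summable.of_nonneg_of_le hB2n (fun n => ?_) hsb
    rw [hB2]; simp only; split_ifs
    · exact le_rfl
    · exact hpos n
  have hd : ∀ n, ‖aK k χ' n * b n - s n‖ ≤ 2 * (B1 n + B2 n) := by
    intro n
    by_cases hn : n ∈ Finset.Icc 1 N
    · have e1 : s n = bb (fun a => vv q T' u a t * uu a ^ k * chiZ q χ a) n := by
        rw [hs]; simp only; rw [if_pos hn]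
      have e2 : aK k χ' n * b n - s n = bb (fun a => if IsCoprime a q then 0 else
          (LamK a : ℂ) * psik k χ' a * b n) n := by
        rw [e1]
        unfold aK
        rw [bb_eq, bb_eq, bb_eq, mul_assoc, ← mul_sub, Finset.sum_mul, ← Finset.sum_sub_distrib]
        congr 1
        apply Finset.sum_congr rfl
        intro a ha
        have hna : nrm a = n := nrm_eq.2 (mem_T.1 ha)
        unfold vv
        by_cases hc : IsCoprime a q
        · rw [if_pos hc, if_pos hc, hna]
          have ha0 : a ≠ 0 := by
            rintro rfl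
            have h1 : nrm (0 : ZI) = 0 := by simp [nrm]
            rw [h1] at hna
            rw [Finset.mem_Icc] at hn
            omega
          have hp : psik k χ' a = χ' a * uu a ^ k := by
            rw [psik_apply, if_neg ha0]
            rfl
          rw [hp, hχ a hc, hb]
          ring
        · rw [if_neg hc, if_neg hc]
          ring
      rw [e2]
      by_cases hcn : Nat.Coprime n (nrm q)
      · have h0 : bb (fun a => if IsCoprime a q then 0 else
            (LamK a : ℂ) * psik k χ' a * b n) n = 0 := by
          rw [bb_eq, Finset.sum_eq_zero, mul_zero]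
          intro a ha
          have hna : nrm a = n := nrm_eq.2 (mem_T.1 ha)
          by_cases hc : IsCoprime a q
          · rw [if_pos hc]
          · rw [if_neg hc]
            have hL : LamK a = 0 := by
              by_contra hL
              apply cop_of hc hL
              rw [hna]
              exact hcn
            rw [hL]
            simp
        rw [h0, norm_zero]
        have := hB1n n
        have := hB2n n
        positivity
      · have h1 : ‖bb (fun a => if IsCoprime a q then 0 else
            (LamK a : ℂ) * psik k χ' a * b n) n‖ ≤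
            2 * (ArithmeticFunction.vonMangoldt n * ‖b n‖) := by
          refine bb_le _ n ‖b n‖ (norm_nonneg _) ?_
          intro a _
          split_ifs
          · rw [norm_zero]
            exact mul_nonneg (LamK_nn a) (norm_nonneg _)
          · rw [norm_mul, norm_mul, Complex.norm_real, Real.norm_of_nonneg (LamK_nn a)]
            refine mul_le_mul_of_nonneg_right ?_ (norm_nonneg _)
            calc LamK a * ‖psik k χ' a‖ ≤ LamK a * 1 :=
                  mul_le_mul_of_nonneg_left (hpsi a) (LamK_nn a)
              _ = LamK a := mul_one _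
        have h2 : B1 n = ArithmeticFunction.vonMangoldt n * ‖b n‖ := by
          rw [hB1]; simp only; rw [if_pos hcn]
        have := hB2n n
        linarith
    · have e1 : s n = 0 := by
        rw [hs]; simp only; rw [if_neg hn]
      rw [e1, sub_zero]
      by_cases hn0 : n = 0
      · subst hn0
        have h1 := haH 0
        have h2 : ArithmeticFunction.vonMangoldt 0 = 0 := by simp
        rw [h2, zero_mul, mul_zero] at h1
        have := hB1n 0
        have := hB2n 0
        linarith
      · have hNn : N < n := by
          rw [Finset.mem_Icc] at hn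
          omega
        have h2 : B2 n = ArithmeticFunction.vonMangoldt n * ‖b n‖ := by
          rw [hB2]; simp only; rw [if_pos hNn]
        have h1 := haH n
        have := hB1n n
        linarith
  have hfin : ‖∑' n, (aK k χ' n * b n - s n)‖ ≤ ∑' n, 2 * (B1 n + B2 n) :=
    tsum_of_norm_bounded ((hB1s.add hB2s).mul_left 2).hasSum hd
  refine hfin.trans ?_
  rw [tsum_mul_left, hB1s.tsum_add hB2s]
  have k1 : ∑' n, B1 n ≤ wt T' t * Gq (nrm q) u := by
    have h1 := b_tsum_le T' u t hT (fun n => ¬ Nat.Coprime n (nrm q))
    have h2 : Gq (nrm q) u = ∑' n : ℕ, (if ¬ Nat.Coprime n (nrm q) then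
        ArithmeticFunction.vonMangoldt n / Real.sqrt n *
          Real.exp (-(u - Real.log n) ^ 2 / 4) else 0) := by
      unfold Gq
      simp only [ite_not]
    rw [h2]
    exact h1
  have k2 : ∑' n, B2 n ≤ wt T' t * Tl N u := b_tsum_le T' u t hT (fun n => N < n)
  linarith

end Pool.Agent.Y762.HK
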