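import Pool.Agent.Y762.HK.Orth
import Pool.Agent.Y762.HK.Pt
import Pool.Agent.Y762.HK.CountD
import Pool.Agent.H385R5.HE8b
import Pool.Agent.H385R3.Cyc1

/-!
Mean square over all the characters modulo `q`, the infinity types `r ≤ k < r + K` and the height.
-/

open Complex Filter Topology Set MeasureTheory

set_option autoImplicit false
set_option maxHeartbeats 4000000

namespace Pool.Agent.Y762.HK

open H385 hiding ee ee_norm ee_add SS
open Pool.Agent.H304R3.HK (tc LamK bb)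
open Pool.Agent.W354.MS (uu uu_norm nrm_real bt_le_wt)

/-- products of the weights -/
theorem bt_pair : ∃ C : ℝ, 0 < C ∧ ∀ (T u ℓ ℓ' : ℝ), 1 ≤ T →
    Integrable (fun t : ℝ => bt T u t ℓ * (starRingEnd ℂ) (bt T u t ℓ')) ∧
    ‖∫ t : ℝ, bt T u t ℓ * (starRingEnd ℂ) (bt T u t ℓ')‖ ≤ C * mi T |ℓ - ℓ'| := by
  obtain ⟨C1, hC1, h1⟩ := bt_cross
  obtain ⟨C2, hC2, h2⟩ := wt_sq_int
  refine ⟨C1 + (1 + C2), by positivity, ?_⟩
  intro T u ℓ ℓ' hT
  have hT0 : 0 ≤ T := by linarith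
  obtain ⟨b1, b2⟩ := h2 T hT0
  have hb : ∀ t, ‖bt T u t ℓ * (starRingEnd ℂ) (bt T u t ℓ')‖ ≤ wt T t ^ 2 := by
    intro t
    rw [norm_mul, RCLike.norm_conj, sq]
    exact mul_le_mul (bt_le_wt T u t ℓ hT0) (bt_le_wt T u t ℓ' hT0) (norm_nonneg _)
      (wt_nonneg T t hT0)
  have hc : ∀ ℓ, Continuous (fun t : ℝ => bt T u t ℓ) := fun ℓ =>
    (bt_cont T ℓ).comp (Continuous.prodMk_right (X := ℝ) (Y := ℝ) u)
  have hi : Integrable (fun t : ℝ => bt T u t ℓ * (starRingEnd ℂ) (bt T u t ℓ')) := by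
    refine b1.mono' ?_ (Eventually.of_forall hb)
    exact ((hc ℓ).mul (continuous_conj.comp (hc ℓ'))).aestronglyMeasurable
  refine ⟨hi, ?_⟩
  have hT2 : ‖∫ t : ℝ, bt T u t ℓ * (starRingEnd ℂ) (bt T u t ℓ')‖ ≤ (1 + C2) * T := by
    refine (norm_integral_le_integral_norm _).trans ?_
    refine (integral_mono hi.norm b1 hb).trans (b2.trans ?_)
    nlinarith
  by_cases hne : ℓ = ℓ'
  · have e : mi T |ℓ - ℓ'| = T := by
      unfold mi
      rw [if_pos (by rw [hne, sub_self, abs_zero])]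
    rw [e]
    have : 0 ≤ C1 * T := by positivity
    linarith
  · obtain ⟨-, k2⟩ := h1 T u ℓ ℓ' hT0 hne
    have hx : 0 < |ℓ - ℓ'| := abs_pos.2 (sub_ne_zero.2 hne)
    have e : mi T |ℓ - ℓ'| = min T |ℓ - ℓ'|⁻¹ := by
      unfold mi
      rw [if_neg hx.ne']
    rw [e]
    rcases min_choice T |ℓ - ℓ'|⁻¹ with h | h
    · rw [h]
      have : 0 ≤ C1 * T := by positivity
      linarith
    · rw [h]
      refine k2.trans ?_
      have g1 : Real.exp (-(u - ℓ) ^ 2 / 4) ≤ 1 := by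
        rw [Real.exp_le_one_iff]
        have := sq_nonneg (u - ℓ)
        linarith
      have g2 : Real.exp (-(u - ℓ') ^ 2 / 4) ≤ 1 := by
        rw [Real.exp_le_one_iff]
        have := sq_nonneg (u - ℓ')
        linarith
      have g3 : Real.exp (-(u - ℓ) ^ 2 / 4) * Real.exp (-(u - ℓ') ^ 2 / 4) ≤ 1 :=
        mul_le_one₀ g1 (Real.exp_pos _).le g2
      have g4 : 0 ≤ |ℓ - ℓ'|⁻¹ := by positivity
      calc C1 * (Real.exp (-(u - ℓ) ^ 2 / 4) * Real.exp (-(u - ℓ') ^ 2 / 4)) / |ℓ - ℓ'| ≤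
          C1 * 1 / |ℓ - ℓ'| := by gcongr
        _ = C1 * |ℓ - ℓ'|⁻¹ := by rw [mul_one, div_eq_mul_inv]
        _ ≤ _ := by
          refine mul_le_mul_of_nonneg_right ?_ g4
          linarith

/-- sum over the infinity types -/
noncomputable def Dk (r K : ℕ) (a b : ZI) : ℂ :=
  ∑ k ∈ Finset.Ico r (r + K), uu a ^ k * (starRingEnd ℂ) (uu b ^ k)

theorem Dk_self {a : ZI} (ha : a ≠ 0) (r K : ℕ) : Dk r K a a = K := by
  unfold Dk
  have h : ∀ k ∈ Finset.Ico r (r + K), uu a ^ k * (starRingEnd ℂ) (uu a ^ k) = 1 := by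
    intro k _
    rw [Complex.mul_conj', norm_pow, uu_norm ha]
    simp
  rw [Finset.sum_congr rfl h, Finset.sum_const, Nat.card_Ico, nsmul_eq_mul, mul_one]
  congr 1
  omega

theorem Dk_le {a b : ZI} (ha : a ≠ 0) (hb : b ≠ 0) (r K : ℕ) :
    ‖Dk r K a b‖ ≤ 2 * mi K (yy a b) := by
  have hK : ‖Dk r K a b‖ ≤ K := by
    unfold Dk
    refine (norm_sum_le _ _).trans ?_
    have h : ∀ k ∈ Finset.Ico r (r + K), ‖uu a ^ k * (starRingEnd ℂ) (uu b ^ k)‖ = 1 := by
      intro k _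
      rw [norm_mul, RCLike.norm_conj, norm_pow, norm_pow, uu_norm ha, uu_norm hb]
      simp
    rw [Finset.sum_congr rfl h, Finset.sum_const, Nat.card_Ico, nsmul_eq_mul, mul_one]
    have : r + K - r = K := by omega
    rw [this]
  have hK0 : (0 : ℝ) ≤ K := Nat.cast_nonneg K
  by_cases hy : yy a b = 0
  · have e : mi K (yy a b) = K := by
      unfold mi
      rw [if_pos hy]
    rw [e]
    linarith
  · have hy0 : 0 < yy a b := lt_of_le_of_ne (yy_nonneg a b) (Ne.symm hy)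
    set z : ℂ := uu a * (starRingEnd ℂ) (uu b) with hz
    have hz1 : ‖z‖ = 1 := by
      rw [hz, norm_mul, RCLike.norm_conj, uu_norm ha, uu_norm hb, mul_one]
    have hzb : z - 1 = (uu a - uu b) * (starRingEnd ℂ) (uu b) := by
      have h4 : uu b * (starRingEnd ℂ) (uu b) = 1 := by
        rw [Complex.mul_conj', uu_norm hb]
        simp
      rw [hz]
      linear_combination h4
    have hzn : ‖z - 1‖ = yy a b := by
      rw [hzb, norm_mul, RCLike.norm_conj, uu_norm hb, mul_one]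
      rfl
    have hD : Dk r K a b = z ^ r * ∑ i ∈ Finset.range K, z ^ i := by
      unfold Dk
      rw [Finset.sum_Ico_eq_sum_range, Finset.mul_sum]
      have : r + K - r = K := by omega
      rw [this]
      refine Finset.sum_congr rfl fun i _ => ?_
      rw [map_pow, ← mul_pow, ← hz, pow_add]
    have h5 : ‖Dk r K a b‖ * yy a b ≤ 2 := by
      rw [← hzn, ← norm_mul, hD, mul_assoc, geom_sum_mul, norm_mul, norm_pow, hz1, one_pow,
        one_mul]
      refine (norm_sub_le _ _).trans ?_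
      rw [norm_pow, hz1, one_pow, norm_one]
      norm_num
    have e : mi K (yy a b) = min (K : ℝ) (yy a b)⁻¹ := by
      unfold mi
      rw [if_neg hy]
    rw [e]
    rcases min_choice (K : ℝ) (yy a b)⁻¹ with h | h
    · rw [h]
      linarith
    · rw [h]
      rw [← div_eq_mul_inv, le_div_iff₀ hy0]
      exact h5

/-- the short mean square at a point -/
noncomputable def PP (q : ZI) (r K N : ℕ) (T u t : ℝ) : ℝ :=
  ∑ k ∈ Finset.Ico r (r + K), ∑ χ ∈ AllC q,
    ‖(1 / 4 : ℂ) * ∑ a ∈ BX N, vv q T u a t * uu a ^ k * chiZ q χ a‖ ^ 2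

open Classical in
theorem PP_eq (q : ZI) (hq : q ≠ 0) (r K N : ℕ) (T u t : ℝ) :
    ((PP q r K N T u t : ℝ) : ℂ) = (phiQ q : ℂ) / 16 * ∑ a ∈ BX N, ∑ b ∈ BX N,
      (if q ∣ a - b then (vv q T u a t * (starRingEnd ℂ) (vv q T u b t)) * Dk r K a b else 0) := by
  have h1 : ∀ (k : ℕ) (χ : MulChar (RQ q) ℂ),
      ((‖(1 / 4 : ℂ) * ∑ a ∈ BX N, vv q T u a t * uu a ^ k * chiZ q χ a‖ ^ 2 : ℝ) : ℂ) =
      (1 / 16 : ℂ) * ∑ a ∈ BX N, ∑ b ∈ BX N,
        ((vv q T u a t * (starRingEnd ℂ) (vv q T u b t)) *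
          (uu a ^ k * (starRingEnd ℂ) (uu b ^ k))) *
          (chiZ q χ a * (starRingEnd ℂ) (chiZ q χ b)) := by
    intro k χ
    push_cast
    rw [← Complex.mul_conj', map_mul, map_sum]
    have e4 : (starRingEnd ℂ) (1 / 4 : ℂ) = 1 / 4 := by
      rw [map_div₀, map_one, Complex.conj_ofNat]
    rw [e4]
    have e5 : (1 / 4 : ℂ) * (∑ a ∈ BX N, vv q T u a t * uu a ^ k * chiZ q χ a) *
        (1 / 4 * ∑ a ∈ BX N, (starRingEnd ℂ) (vv q T u a t * uu a ^ k * chiZ q χ a)) =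
        1 / 16 * ((∑ a ∈ BX N, vv q T u a t * uu a ^ k * chiZ q χ a) *
          ∑ a ∈ BX N, (starRingEnd ℂ) (vv q T u a t * uu a ^ k * chiZ q χ a)) := by ring
    rw [e5, Finset.sum_mul_sum]
    congr 1
    refine Finset.sum_congr rfl fun a _ => Finset.sum_congr rfl fun b _ => ?_
    rw [map_mul, map_mul]
    ring
  unfold PP
  rw [Complex.ofReal_sum]
  have h2 : ∀ k ∈ Finset.Ico r (r + K), ((∑ χ ∈ AllC q,
      ‖(1 / 4 : ℂ) * ∑ a ∈ BX N, vv q T u a t * uu a ^ k * chiZ q χ a‖ ^ 2 : ℝ) : ℂ) =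
      (phiQ q : ℂ) / 16 * ∑ a ∈ BX N, ∑ b ∈ BX N, (if q ∣ a - b then
        (vv q T u a t * (starRingEnd ℂ) (vv q T u b t)) *
          (uu a ^ k * (starRingEnd ℂ) (uu b ^ k)) else 0) := by
    intro k _
    rw [Complex.ofReal_sum, Finset.sum_congr rfl fun χ _ => h1 k χ, ← Finset.mul_sum,
      Finset.sum_comm]
    have h3 : ∀ a ∈ BX N, ∑ χ ∈ AllC q, ∑ b ∈ BX N,
        ((vv q T u a t * (starRingEnd ℂ) (vv q T u b t)) *
          (uu a ^ k * (starRingEnd ℂ) (uu b ^ k))) *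
          (chiZ q χ a * (starRingEnd ℂ) (chiZ q χ b)) =
        ∑ b ∈ BX N, (phiQ q : ℂ) * (if q ∣ a - b then
        (vv q T u a t * (starRingEnd ℂ) (vv q T u b t)) *
          (uu a ^ k * (starRingEnd ℂ) (uu b ^ k)) else 0) := by
      intro a _
      rw [Finset.sum_comm]
      refine Finset.sum_congr rfl fun b _ => ?_
      rw [← Finset.mul_sum]
      by_cases hb : IsCoprime b q
      · rw [all_orth q hq a b hb]
        by_cases h4 : q ∣ a - b
        · rw [if_pos h4, if_pos h4]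
          ring
        · rw [if_neg h4, if_neg h4]
          ring
      · have h5 : vv q T u b t = 0 := by
          unfold vv
          rw [if_neg hb]
        rw [h5, map_zero, mul_zero, zero_mul, zero_mul]
        simp
    rw [Finset.sum_congr rfl h3]
    simp only [← Finset.mul_sum]
    ring
  rw [Finset.sum_congr rfl h2, ← Finset.mul_sum, Finset.sum_comm]
  congr 1
  refine Finset.sum_congr rfl fun a _ => ?_
  rw [Finset.sum_comm]
  refine Finset.sum_congr rfl fun b _ => ?_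
  by_cases h4 : q ∣ a - b
  · simp only [if_pos h4]
    rw [Dk, Finset.mul_sum]
  · simp only [if_neg h4]
    simp

theorem vv_norm (q : ZI) (T u : ℝ) (a : ZI) (t : ℝ) :
    ‖vv q T u a t‖ ^ 2 ≤ LamK a ^ 2 * ‖bn T u t (nrm a)‖ ^ 2 := by
  unfold vv
  split_ifs with h
  · have h2 : ‖((LamK a : ℝ) : ℂ)‖ = |LamK a| := by
      rw [Complex.norm_real, Real.norm_eq_abs]
    rw [norm_mul, h2, mul_pow, sq_abs]
  · have h5 : (0 : ℝ) ≤ LamK a ^ 2 * ‖bn T u t (nrm a)‖ ^ 2 := by positivity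
    rw [norm_zero, zero_pow two_ne_zero]
    exact h5

theorem vv_cont (q : ZI) (T u : ℝ) (a : ZI) : Continuous (vv q T u a) := by
  unfold vv bn
  split_ifs
  · have := (bt_cont T (Real.log (nrm a))).comp (Continuous.prodMk_right (X := ℝ) (Y := ℝ) u)
    exact continuous_const.mul (continuous_const.mul this)
  · exact continuous_const

theorem LamK_le {N : ℕ} {a : ZI} (ha : a ∈ BX N) : 0 ≤ LamK a ∧ LamK a ≤ 2 * Lg N := by
  rw [H385.HE4.mem_BX] at ha
  have h1 : a.norm = ((nrm a : ℕ) : ℤ) := by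
    unfold nrm
    rw [Int.natCast_natAbs, abs_of_nonneg (GaussianInt.norm_nonneg a)]
  obtain ⟨h2, h3, -⟩ := HE6.lamK_val h1
  refine ⟨h2, h3.trans ?_⟩
  have h4 : ArithmeticFunction.vonMangoldt (nrm a) ≤ Real.log (nrm a) :=
    ArithmeticFunction.vonMangoldt_le_log
  have h5 : Real.log (nrm a) ≤ Real.log N := by
    apply Real.log_le_log
    · exact_mod_cast ha.1
    · exact_mod_cast ha.2
  unfold Lg
  linarith

/-- products of the coefficients -/
theorem vv_pair : ∃ C : ℝ, 0 < C ∧ ∀ (q : ZI) (N : ℕ) (T u : ℝ) (a b : ZI), 1 ≤ N → 1 ≤ T →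
    a ∈ BX N → b ∈ BX N →
    Integrable (fun t : ℝ => vv q T u a t * (starRingEnd ℂ) (vv q T u b t)) ∧
    ‖∫ t : ℝ, vv q T u a t * (starRingEnd ℂ) (vv q T u b t)‖ ≤
      C * Lg N ^ 2 * (mi T (xx a b) / (‖tc a‖ * ‖tc b‖)) := by
  obtain ⟨C, hC, h⟩ := bt_pair
  refine ⟨4 * C, by positivity, ?_⟩
  intro q N T u a b hN hT ha hb
  obtain ⟨h1, h2⟩ := h T u (Real.log (nrm a)) (Real.log (nrm b)) hT
  have hmi : 0 ≤ mi T (xx a b) := mi_nonneg (by linarith) (xx_nonneg a b)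
  have hL := Lg_one hN
  have ha0 := (norm_BX ha).1
  have hb0 := (norm_BX hb).1
  have hA := tc_pos ha0
  have hB := tc_pos hb0
  have hs : ∀ x : ZI, Real.sqrt (nrm x) = ‖tc x‖ := by
    intro x
    rw [nrm_real, Real.sqrt_sq (norm_nonneg _)]
  by_cases h3 : IsCoprime a q ∧ IsCoprime b q
  · have e : (fun t : ℝ => vv q T u a t * (starRingEnd ℂ) (vv q T u b t)) = fun t : ℝ =>
        ((LamK a : ℂ) * (LamK b : ℂ) * ((‖tc a‖ : ℂ)⁻¹ * (‖tc b‖ : ℂ)⁻¹)) *
          (bt T u t (Real.log (nrm a)) * (starRingEnd ℂ) (bt T u t (Real.log (nrm b)))) := by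
      funext t
      unfold vv bn
      rw [if_pos h3.1, if_pos h3.2]
      simp only [map_mul, map_inv₀, Complex.conj_ofReal]
      rw [hs a, hs b]
      ring
    rw [e]
    refine ⟨h1.const_mul _, ?_⟩
    rw [integral_const_mul, norm_mul]
    have e2 : ‖((LamK a : ℂ) * (LamK b : ℂ) * ((‖tc a‖ : ℂ)⁻¹ * (‖tc b‖ : ℂ)⁻¹))‖ ≤
        4 * Lg N ^ 2 / (‖tc a‖ * ‖tc b‖) := by
      obtain ⟨p1, p2⟩ := LamK_le ha
      obtain ⟨p3, p4⟩ := LamK_le hb
      simp only [norm_mul, norm_inv, Complex.norm_real, norm_norm]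
      rw [Real.norm_of_nonneg p1, Real.norm_of_nonneg p3, ← mul_inv, ← div_eq_mul_inv]
      have p5 : LamK a * LamK b ≤ 4 * Lg N ^ 2 := by
        calc LamK a * LamK b ≤ (2 * Lg N) * (2 * Lg N) := mul_le_mul p2 p4 p3 (by linarith)
          _ = _ := by ring
      gcongr
    calc _ ≤ (4 * Lg N ^ 2 / (‖tc a‖ * ‖tc b‖)) * (C * mi T (xx a b)) :=
          mul_le_mul e2 h2 (norm_nonneg _) (by positivity)
      _ = _ := by ring
  · have e : (fun t : ℝ => vv q T u a t * (starRingEnd ℂ) (vv q T u b t)) = fun _ => 0 := by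
      funext t
      unfold vv
      by_cases h4 : IsCoprime a q
      · rw [if_neg (c := IsCoprime b q) (fun h5 => h3 ⟨h4, h5⟩)]
        simp
      · rw [if_neg h4]
        simp
    rw [e]
    refine ⟨integrable_zero _ _ _, ?_⟩
    simp only [integral_zero, norm_zero]
    positivity

open Classical in
/-- the mean square of the short sums -/
theorem short_ms : ∃ C : ℝ, 0 < C ∧ ∀ (q : ZI) (r K N : ℕ) (T κ u : ℝ), q ≠ 0 → 1 ≤ N →
    1 ≤ κ → 1 ≤ T → T ≤ Real.exp (κ ^ 2) → 0 ≤ u →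
    Integrable (fun t : ℝ => PP q r K N T u t) ∧
    ∫ t : ℝ, PP q r K N T u t ≤ (phiQ q : ℝ) * K / 4 *
      (T / (2 * Real.pi) * SW cK u + C * κ * (u + 1)) +
      C * (phiQ q : ℝ) * Lg N ^ 2 *
        ∑ a ∈ BX N, ∑ b ∈ BX N, (if a ≠ b ∧ q ∣ a - b then tm T K a b else 0) := by
  obtain ⟨CS0, hCS0, hS, hcK, hlam⟩ := selb_cK
  obtain ⟨C1, hC1, h1⟩ := btc_sum_int cK CS0 hS
  obtain ⟨C3, hC3, h3⟩ := vv_pair
  refine ⟨C1 + C3, by positivity, ?_⟩
  intro q r K N T κ u hq hN hκ hT hTκ hu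
  have hT0 : 0 ≤ T := by linarith
  have hK0 : (0 : ℝ) ≤ K := Nat.cast_nonneg K
  have hφ0 : (0 : ℝ) ≤ phiQ q := Nat.cast_nonneg _
  have hL := Lg_one hN
  obtain ⟨a1, a2⟩ := h1 T κ u N hκ hT hTκ hu
  have e : (fun t : ℝ => ∑ n ∈ Finset.Icc 1 N, lamK2 n * ‖bn T u t n‖ ^ 2) =
      fun t => ∑ n ∈ Finset.Icc 1 N, (ArithmeticFunction.vonMangoldt n) ^ 2 *
        ‖cK n * ((Real.sqrt n : ℂ)⁻¹ * bt T u t (Real.log n))‖ ^ 2 := by
    funext t
    refine Finset.sum_congr rfl (fun n _ => ?_)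
    rw [hlam n, norm_mul (cK n), mul_pow]
    unfold bn
    ring
  rw [← e] at a1
  have a2' : ∫ t : ℝ, ∑ n ∈ Finset.Icc 1 N, lamK2 n * ‖bn T u t n‖ ^ 2 ≤
      T / (2 * Real.pi) * SW cK u + C1 * κ * (u + 1) := by
    rw [e]
    exact a2
  set O : ℝ → ℂ := fun t => ∑ a ∈ BX N, ∑ b ∈ BX N, (if a ≠ b ∧ q ∣ a - b then
      (vv q T u a t * (starRingEnd ℂ) (vv q T u b t)) * Dk r K a b else 0) with hO
  set V : ℝ → ℝ := fun t => ∑ a ∈ BX N, ‖vv q T u a t‖ ^ 2 with hV
  have hid : ∀ t : ℝ, PP q r K N T u t =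
      (phiQ q : ℝ) / 16 * (K * V t + (O t).re) := by
    intro t
    have e1 := PP_eq q hq r K N T u t
    have e2 : ∑ a ∈ BX N, ∑ b ∈ BX N,
      (if q ∣ a - b then (vv q T u a t * (starRingEnd ℂ) (vv q T u b t)) * Dk r K a b else 0) =
        ((K * V t : ℝ) : ℂ) + O t := by
      simp only [hO, hV]
      push_cast
      rw [Finset.mul_sum, ← Finset.sum_add_distrib]
      refine Finset.sum_congr rfl fun a ha => ?_
      have e3 : (K : ℂ) * ((‖vv q T u a t‖ : ℂ)) ^ 2 = ∑ b ∈ BX N,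
          (if a = b then (vv q T u a t * (starRingEnd ℂ) (vv q T u b t)) * Dk r K a b
            else 0) := by
        rw [Finset.sum_ite_eq, if_pos ha, Dk_self (norm_BX ha).1, Complex.mul_conj', mul_comm]
      rw [e3, ← Finset.sum_add_distrib]
      refine Finset.sum_congr rfl fun b _ => ?_
      by_cases hab : a = b
      · subst hab
        rw [if_pos (by rw [sub_self]; exact dvd_zero _), if_pos rfl, if_neg (fun h => h.1 rfl),
          add_zero]
      · by_cases hr : q ∣ a - b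
        · rw [if_pos hr, if_neg hab, if_pos ⟨hab, hr⟩, zero_add]
        · rw [if_neg hr, if_neg hab, if_neg (fun h => hr h.2), zero_add]
    rw [e2] at e1
    have e4 := congrArg Complex.re e1
    rw [Complex.ofReal_re] at e4
    have e5 : (phiQ q : ℂ) / 16 = (((phiQ q : ℝ) / 16 : ℝ) : ℂ) := by push_cast; rfl
    rw [e4, e5, Complex.re_ofReal_mul, Complex.add_re, Complex.ofReal_re]
  have hV1 : ∀ t, V t ≤ 4 * ∑ n ∈ Finset.Icc 1 N, lamK2 n * ‖bn T u t n‖ ^ 2 := by
    intro t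
    rw [← HE4.group]
    exact Finset.sum_le_sum fun a _ => vv_norm q T u a t
  have hV0 : ∀ t, 0 ≤ V t := fun t => Finset.sum_nonneg fun a _ => sq_nonneg _
  have hVi : Integrable V := by
    refine (a1.const_mul 4).mono' ?_ (Eventually.of_forall fun t => ?_)
    · exact (continuous_finsetSum _ fun a _ =>
        ((vv_cont q T u a).norm.pow 2)).aestronglyMeasurable
    · rw [Real.norm_of_nonneg (hV0 t)]
      exact hV1 t
  have hOab : ∀ a ∈ BX N, ∀ b ∈ BX N, Integrable (fun t : ℝ => (if a ≠ b ∧ q ∣ a - b then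
      (vv q T u a t * (starRingEnd ℂ) (vv q T u b t)) * Dk r K a b else 0)) := by
    intro a ha b hb
    by_cases h : a ≠ b ∧ q ∣ a - b
    · simp only [if_pos h]
      exact (h3 q N T u a b hN hT ha hb).1.mul_const _
    · simp only [if_neg h]
      exact integrable_zero _ _ _
  have hOi : Integrable O :=
    integrable_finsetSum _ fun a ha => integrable_finsetSum _ fun b hb => hOab a ha b hb
  have hfun : (fun t : ℝ => PP q r K N T u t) = fun t =>
      (phiQ q : ℝ) / 16 * (K * V t + (O t).re) := funext hid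
  have hVK : Integrable (fun t => (K : ℝ) * V t) := hVi.const_mul _
  have hOre : Integrable (fun t => (O t).re) := hOi.re
  constructor
  · rw [hfun]
    exact (hVK.add hOre).const_mul _
  · rw [hfun, integral_const_mul, integral_add hVK hOre, integral_const_mul]
    have k1 : ∫ t : ℝ, V t ≤ 4 * (T / (2 * Real.pi) * SW cK u + C1 * κ * (u + 1)) := by
      refine (integral_mono hVi (a1.const_mul 4) hV1).trans ?_
      rw [integral_const_mul]
      exact mul_le_mul_of_nonneg_left a2' (by norm_num)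
    have k2 : ∫ t : ℝ, (O t).re ≤ 2 * C3 * Lg N ^ 2 * ∑ a ∈ BX N, ∑ b ∈ BX N,
        (if a ≠ b ∧ q ∣ a - b then tm T K a b else 0) := by
      have r1 : ∫ t : ℝ, (O t).re = (∫ t : ℝ, O t).re := integral_re hOi
      rw [r1]
      refine (Complex.re_le_norm _).trans ?_
      simp only [hO]
      rw [integral_finsetSum _ (fun a ha => integrable_finsetSum _ fun b hb => hOab a ha b hb)]
      refine (norm_sum_le _ _).trans ?_
      rw [Finset.mul_sum]
      refine Finset.sum_le_sum fun a ha => ?_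
      rw [integral_finsetSum _ (fun b hb => hOab a ha b hb)]
      refine (norm_sum_le _ _).trans ?_
      rw [Finset.mul_sum]
      refine Finset.sum_le_sum fun b hb => ?_
      by_cases h : a ≠ b ∧ q ∣ a - b
      · simp only [if_pos h]
        rw [integral_mul_const, norm_mul]
        have e1 := (h3 q N T u a b hN hT ha hb).2
        have e2 := Dk_le (norm_BX ha).1 (norm_BX hb).1 r K
        have e3 := mul_le_mul e1 e2 (norm_nonneg _) (by
          have := mi_nonneg hT0 (xx_nonneg a b)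
          positivity)
        refine e3.trans (le_of_eq ?_)
        unfold tm
        ring
      · simp only [if_neg h]
        simp
    set S : ℝ := ∑ a ∈ BX N, ∑ b ∈ BX N, (if a ≠ b ∧ q ∣ a - b then tm T K a b else 0) with hSd
    have hS0 : 0 ≤ S := Finset.sum_nonneg fun a _ => Finset.sum_nonneg fun b _ => by
      split_ifs
      · exact tm_nonneg hT0 hK0 a b
      · exact le_rfl
    have hκ0 : 0 ≤ κ := by linarith
    have m1 : C1 * κ * (u + 1) ≤ (C1 + C3) * κ * (u + 1) := by gcongr; linarith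
    have m2 : (phiQ q : ℝ) / 16 * (2 * C3 * Lg N ^ 2 * S) ≤ (C1 + C3) * phiQ q * Lg N ^ 2 * S := by
      have : 0 ≤ (phiQ q : ℝ) * Lg N ^ 2 * S := by positivity
      nlinarith
    have m3 := add_le_add (mul_le_mul_of_nonneg_left k1 hK0) k2
    have m4 := mul_le_mul_of_nonneg_left m3 (show 0 ≤ (phiQ q : ℝ) / 16 by positivity)
    refine m4.trans ?_
    have m5 : (phiQ q : ℝ) / 16 * (K * (4 * (T / (2 * Real.pi) * SW cK u + C1 * κ * (u + 1))) +
          2 * C3 * Lg N ^ 2 * S) =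
        (phiQ q : ℝ) * K / 4 * (T / (2 * Real.pi) * SW cK u + C1 * κ * (u + 1)) +
          (phiQ q : ℝ) / 16 * (2 * C3 * Lg N ^ 2 * S) := by ring
    rw [m5]
    refine add_le_add (mul_le_mul_of_nonneg_left ?_ (by positivity)) m2
    linarith

end Pool.Agent.Y762.HK
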