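import Pool.Agent.H385R5.HE10B
import Pool.Agent.W354.MS.Sep

/-!
All characters modulo `q` and the pairs `(k, χ)` with `χ(i) = (-i)^k`.
-/

open Complex Finset

set_option autoImplicit false

namespace Pool.Agent.Y762.HK

open H385 hiding ee ee_norm ee_add SS
open Pool.Agent.H304R3.HK (tc LamK bb)
open Pool.Agent.W354.MS (uu uu_norm)

/-- all characters modulo `q` as a finite set -/
noncomputable def AllC (q : ZI) : Finset (MulChar (RQ q) ℂ) := by
  classical
  exact if h : Finite (MulChar (RQ q) ℂ) then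
    (@Set.toFinite _ (Set.univ : Set (MulChar (RQ q) ℂ)) (Set.finite_univ)).toFinset else ∅

theorem mem_AllC (q : ZI) (hq : q ≠ 0) (χ : MulChar (RQ q) ℂ) : χ ∈ AllC q := by
  obtain ⟨h1, -, -⟩ := fq_finite q hq
  unfold AllC
  rw [dif_pos h1, Set.Finite.mem_toFinset]
  exact Set.mem_univ _

open Classical in
/-- the pairs `(k, χ)` with `χ(i) = (-i)^k` and `r ≤ k < r + K` -/
noncomputable def Fam (q : ZI) (r K : ℕ) : Finset (ℕ × MulChar (RQ q) ℂ) :=
  ((Ico r (r + K)) ×ˢ AllC q).filter (fun x => chiZ q x.2 im1 = (-I) ^ x.1)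

theorem mem_Fam (q : ZI) (hq : q ≠ 0) (r K : ℕ) (x : ℕ × MulChar (RQ q) ℂ) :
    x ∈ Fam q r K ↔ (r ≤ x.1 ∧ x.1 < r + K) ∧ chiZ q x.2 im1 = (-I) ^ x.1 := by
  classical
  unfold Fam
  rw [mem_filter, mem_product, mem_Ico]
  constructor
  · rintro ⟨⟨h1, -⟩, h2⟩
    exact ⟨h1, h2⟩
  · rintro ⟨h1, h2⟩
    exact ⟨⟨h1, mem_AllC q hq _⟩, h2⟩

open Classical in
/-- orthogonality of all the characters -/
theorem all_orth (q : ZI) (hq : q ≠ 0) (a b : ZI) (hb : IsCoprime b q) :
    ∑ χ ∈ AllC q, chiZ q χ a * (starRingEnd ℂ) (chiZ q χ b) =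
      if q ∣ a - b then (phiQ q : ℂ) else 0 := by
  obtain ⟨h2, -, -⟩ := fq_finite q hq
  have h0 := he1_finite hq
  have hft : Fintype (MulChar (RQ q) ℂ) := Fintype.ofFinite _
  have hub := he2_unit hb
  obtain ⟨c, hc⟩ : ∃ c : RQ q, c = Ring.inverse (Ideal.Quotient.mk (Ideal.span {q}) b) := ⟨_, rfl⟩
  have hbc : Ideal.Quotient.mk (Ideal.span {q}) b * c = 1 := by
    rw [hc]
    exact Ring.mul_inverse_cancel _ hub
  have hval : ∀ (χ : MulChar (RQ q) ℂ) (x : ZI),
      chiZ q χ x = χ (Ideal.Quotient.mk (Ideal.span {q}) x) := fun _ _ => rfl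
  have hconj : ∀ χ : MulChar (RQ q) ℂ, (starRingEnd ℂ) (chiZ q χ b) = χ c := by
    intro χ
    rw [hval]
    have h3 := MulChar.star_apply' χ (Ideal.Quotient.mk (Ideal.span {q}) b)
    rw [MulChar.inv_apply, ← hc] at h3
    exact h3
  have h5 : AllC q = Finset.univ := by
    ext χ
    simp [mem_AllC q hq χ]
  rw [h5]
  have h6 : ∀ χ : MulChar (RQ q) ℂ, chiZ q χ a * (starRingEnd ℂ) (chiZ q χ b) =
      χ (Ideal.Quotient.mk (Ideal.span {q}) a * c) := by
    intro χ
    rw [hconj, map_mul χ, hval χ a]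
  simp only [h6]
  rw [he2_sum_all]
  have h10 : Ideal.Quotient.mk (Ideal.span {q}) a * c = 1 ↔ q ∣ a - b := by
    rw [← Ideal.mem_span_singleton, ← Ideal.Quotient.eq]
    constructor
    · intro h
      calc Ideal.Quotient.mk (Ideal.span {q}) a =
          Ideal.Quotient.mk (Ideal.span {q}) a * c *
            Ideal.Quotient.mk (Ideal.span {q}) b := by
            rw [mul_assoc, mul_comm c, hbc, mul_one]
        _ = _ := by rw [h, one_mul]
    · intro h
      rw [h, hbc]
  unfold phiQ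
  by_cases h11 : q ∣ a - b
  · rw [if_pos h11, if_pos (h10.2 h11)]
  · rw [if_neg h11, if_neg (fun h => h11 (h10.1 h))]

theorem card_AllC (q : ZI) (hq : q ≠ 0) : (AllC q).card = phiQ q := by
  classical
  have h := all_orth q hq 1 1 isCoprime_one_left
  rw [if_pos (by rw [sub_self]; exact dvd_zero _)] at h
  simp only [map_one, mul_one, Finset.sum_const, nsmul_eq_mul] at h
  exact_mod_cast h

theorem im1_pow4 (q : ZI) (χ : MulChar (RQ q) ℂ) : (chiZ q χ im1) ^ 4 = 1 := by
  rw [← map_pow, he2_im4, map_one]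

/-- number of the pairs, general lower bound -/
theorem card_Fam_ge (q : ZI) (hq : q ≠ 0) (r K : ℕ) :
    (phiQ q : ℝ) * ((K : ℝ) - 3) / 4 ≤ (Fam q r K).card := by
  classical
  have h1 : (Fam q r K).card = ∑ χ ∈ AllC q, ((Ico r (r + K)).filter
      (fun k => chiZ q χ im1 = (-I) ^ k)).card := by
    unfold Fam
    rw [Finset.card_filter, Finset.sum_product_right]
    refine Finset.sum_congr rfl fun χ _ => ?_
    rw [Finset.card_filter]
  have h2 : ∀ χ ∈ AllC q, ((K : ℝ) - 3) / 4 ≤ (((Ico r (r + K)).filter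
      (fun k => chiZ q χ im1 = (-I) ^ k)).card : ℝ) := by
    intro χ _
    -- the residue class
    have hz := im1_pow4 q χ
    obtain ⟨j, hj, hj2⟩ := Pool.Agent.W354.MS.root_four (z := (chiZ q χ im1 * I ^ r))
      (by rw [mul_pow, hz, one_mul, ← pow_mul, mul_comm r 4, pow_mul, I_pow_four, one_pow])
    rw [mem_range] at hj
    have h3 : ∀ m : ℕ, chiZ q χ im1 = (-I) ^ (r + j + 4 * m) := by
      intro m
      have e1 : (-I : ℂ) ^ 4 = 1 := by
        rw [neg_pow, I_pow_four]
        norm_num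
      rw [pow_add _ _ (4 * m), pow_mul, e1, one_pow, mul_one]
      have e2 : (-I : ℂ) ^ (r + j) * I ^ (r + j) = 1 := by
        rw [← mul_pow]
        have : -I * I = (1 : ℂ) := by rw [neg_mul, I_mul_I, neg_neg]
        rw [this, one_pow]
      have e3 : chiZ q χ im1 * I ^ (r + j) = 1 := by
        rw [pow_add]
        linear_combination hj2
      have e4 : (I : ℂ) ^ (r + j) ≠ 0 := pow_ne_zero _ I_ne_zero
      exact mul_right_cancel₀ e4 (e3.trans e2.symm)
    have h4 : (range (K / 4)).image (fun m => r + j + 4 * m) ⊆ (Ico r (r + K)).filter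
        (fun k => chiZ q χ im1 = (-I) ^ k) := by
      intro k hk
      rw [mem_image] at hk
      obtain ⟨m, hm, rfl⟩ := hk
      rw [mem_range] at hm
      rw [mem_filter, mem_Ico]
      refine ⟨by omega, h3 m⟩
    have h5 := Finset.card_le_card h4
    rw [Finset.card_image_of_injective _ (fun x y hxy => by
      have hxy' : r + j + 4 * x = r + j + 4 * y := hxy
      omega), card_range] at h5
    have h6 : ((K : ℝ) - 3) / 4 ≤ ((K / 4 : ℕ) : ℝ) := by
      have : K ≤ 4 * (K / 4) + 3 := by omega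
      have h7 : (K : ℝ) ≤ 4 * ((K / 4 : ℕ) : ℝ) + 3 := by exact_mod_cast this
      linarith
    exact h6.trans (by exact_mod_cast h5)
  rw [h1]
  push_cast
  calc (phiQ q : ℝ) * ((K : ℝ) - 3) / 4 = ∑ _χ ∈ AllC q, ((K : ℝ) - 3) / 4 := by
        rw [Finset.sum_const, card_AllC q hq, nsmul_eq_mul]
        ring
    _ ≤ _ := Finset.sum_le_sum h2

/-- number of the characters with given value at `i` -/
theorem card_k (q : ZI) (hq : 4 < nrm q) (k : ℕ) [DecidablePred fun χ : MulChar (RQ q) ℂ =>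
    chiZ q χ im1 = (-I) ^ k] :
    (((AllC q).filter (fun χ => chiZ q χ im1 = (-I) ^ k)).card : ℝ) = (phiQ q : ℝ) / 4 := by
  classical
  have hq0 : q ≠ 0 := by
    rintro rfl
    simp [nrm] at hq
  have h1 : ∀ χ : MulChar (RQ q) ℂ, (if chiZ q χ im1 = (-I) ^ k then (1 : ℂ) else 0) =
      1 / 4 * ∑ j ∈ Finset.range 4, (I ^ k) ^ j * (chiZ q χ im1) ^ j := by
    intro χ
    have hz := im1_pow4 q χ
    have h2 := he2_proj (z := chiZ q χ im1 * (I ^ k * (-I)))
      (by
        rw [mul_pow, hz, one_mul, mul_pow, ← pow_mul, mul_comm k 4, pow_mul, I_pow_four, one_pow,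
          one_mul, neg_pow, I_pow_four]
        norm_num)
    have h3 : (chiZ q χ im1 * (I ^ k * (-I)) = -I) ↔ (chiZ q χ im1 = (-I) ^ k) := by
      have e2 : (-I : ℂ) ^ k * I ^ k = 1 := by
        rw [← mul_pow]
        have : -I * I = (1 : ℂ) := by rw [neg_mul, I_mul_I, neg_neg]
        rw [this, one_pow]
      have hI : (-I : ℂ) ≠ 0 := neg_ne_zero.2 I_ne_zero
      constructor
      · intro h
        have e3 : chiZ q χ im1 * I ^ k = 1 := by
          apply mul_right_cancel₀ hI
          linear_combination h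
        have e4 : (I : ℂ) ^ k ≠ 0 := pow_ne_zero _ I_ne_zero
        exact mul_right_cancel₀ e4 (e3.trans e2.symm)
      · intro h
        rw [h]
        linear_combination (-I) * e2
    have h4 : (if chiZ q χ im1 = (-I) ^ k then (1 : ℂ) else 0) =
        if chiZ q χ im1 * (I ^ k * (-I)) = -I then (1 : ℂ) else 0 := by
      by_cases h5 : chiZ q χ im1 = (-I) ^ k
      · rw [if_pos h5, if_pos (h3.2 h5)]
      · rw [if_neg h5, if_neg (fun h => h5 (h3.1 h))]
    rw [h4, h2]
    congr 1
    refine Finset.sum_congr rfl fun j _ => ?_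
    have e5 : (I * (-I) : ℂ) = 1 := by rw [mul_neg, I_mul_I, neg_neg]
    calc I ^ j * (chiZ q χ im1 * (I ^ k * -I)) ^ j = (I * (-I)) ^ j * ((I ^ k) ^ j * (chiZ q χ im1) ^ j) := by
          rw [mul_pow, mul_pow, mul_pow]
          ring
      _ = _ := by rw [e5, one_pow, one_mul]
  have h2 : ((((AllC q).filter (fun χ => chiZ q χ im1 = (-I) ^ k)).card : ℂ)) =
      1 / 4 * ∑ j ∈ Finset.range 4, (I ^ k) ^ j * ∑ χ ∈ AllC q, (chiZ q χ im1) ^ j := by
    have e1 : ((((AllC q).filter (fun χ => chiZ q χ im1 = (-I) ^ k)).card : ℂ)) =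
        ∑ χ ∈ AllC q, if chiZ q χ im1 = (-I) ^ k then (1 : ℂ) else 0 := by
      rw [Finset.card_filter]
      push_cast
      rfl
    rw [e1, Finset.sum_congr rfl fun χ _ => h1 χ, ← Finset.mul_sum, Finset.sum_comm]
    congr 1
    refine Finset.sum_congr rfl fun j _ => ?_
    rw [Finset.mul_sum]
  have h3 : ∀ j ∈ Finset.range 4, j ≠ 0 → ∑ χ ∈ AllC q, (chiZ q χ im1) ^ j = 0 := by
    intro j hj hj0
    have h4 := all_orth q hq0 (im1 ^ j) 1 isCoprime_one_left
    rw [if_neg] at h4
    · simp only [map_one, mul_one, map_pow] at h4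
      exact h4
    · intro hd
      rw [Finset.mem_range] at hj
      have h3 := he3_nrm hd (by
        interval_cases j
        · exact absurd rfl hj0
        · decide
        · decide
        · decide)
      have h4 : nrm (im1 ^ j - 1) ≤ 4 := by
        interval_cases j
        · decide
        · decide
        · decide
        · decide
      omega
  rw [Finset.sum_eq_single 0 (fun j hj hj0 => by rw [h3 j hj hj0, mul_zero]) (by simp)] at h2
  simp only [pow_zero, one_mul, Finset.sum_const, nsmul_eq_mul, mul_one, card_AllC q hq0] at h2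
  have h5 : (((((AllC q).filter (fun χ => chiZ q χ im1 = (-I) ^ k)).card : ℝ)) : ℂ) =
      (((phiQ q : ℝ) / 4 : ℝ) : ℂ) := by
    push_cast
    rw [h2]
    ring
  exact_mod_cast h5

/-- number of the pairs -/
theorem card_Fam (q : ZI) (hq : 4 < nrm q) (r K : ℕ) :
    ((Fam q r K).card : ℝ) = (phiQ q : ℝ) * K / 4 := by
  classical
  have h1 : (Fam q r K).card = ∑ k ∈ Ico r (r + K), ((AllC q).filter
      (fun χ => chiZ q χ im1 = (-I) ^ k)).card := by
    unfold Fam
    rw [Finset.card_filter, Finset.sum_product]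
    refine Finset.sum_congr rfl fun χ _ => ?_
    rw [Finset.card_filter]
  rw [h1]
  push_cast
  rw [Finset.sum_congr rfl fun k _ => card_k q hq k, Finset.sum_const, Nat.card_Ico, nsmul_eq_mul]
  have : r + K - r = K := by omega
  rw [this]
  ring

end Pool.Agent.Y762.HK
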