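import Pool.Agent.Y762.HK.Lines

/-!
Pairs of Gaussian integers with a given difference.
-/

open Finset

set_option autoImplicit false

namespace Pool.Agent.Y762.HK

open H385 (ZI im1 BX nrm)
open Pool.Agent.H304R3.HK (tc tc_star_mul tc_ne_zero one_le_norm_tc)
open Pool.Agent.W354.MS (nrm_real ne_zero_of_nrm tc_sub uu uu_norm)

/-- `min(M, 1/x)` -/
noncomputable def mi (M x : ℝ) : ℝ := if x = 0 then M else min M x⁻¹

theorem mi_nonneg {M x : ℝ} (hM : 0 ≤ M) (hx : 0 ≤ x) : 0 ≤ mi M x := by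
  unfold mi
  split_ifs
  · exact hM
  · exact le_min hM (inv_nonneg.2 hx)

theorem mi_le (M x : ℝ) : mi M x ≤ M := by
  unfold mi
  split_ifs
  · exact le_rfl
  · exact min_le_left _ _

theorem mi_le_inv {M x : ℝ} (hx : 0 < x) : mi M x ≤ 1 / x := by
  unfold mi
  rw [if_neg hx.ne', one_div]
  exact min_le_right _ _

theorem mi_prod {M M' x y : ℝ} (hM : 0 ≤ M) (hM' : 0 ≤ M') (hx : 0 ≤ x) (hy : 0 ≤ y)
    (hxy : 0 < x + y) : mi M x * mi M' y ≤ 2 / (x + y) * (mi M x + mi M' y) := by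
  have h1 := mi_nonneg hM hx
  have h2 := mi_nonneg hM' hy
  have h3 : 0 < 2 / (x + y) := by positivity
  rcases le_total x y with h | h
  · have hy0 : 0 < y := by linarith
    have h4 : mi M' y ≤ 2 / (x + y) := by
      refine (mi_le_inv hy0).trans ?_
      rw [div_le_div_iff₀ hy0 hxy]
      linarith
    calc mi M x * mi M' y ≤ mi M x * (2 / (x + y)) := mul_le_mul_of_nonneg_left h4 h1
      _ = 2 / (x + y) * mi M x := mul_comm _ _
      _ ≤ _ := mul_le_mul_of_nonneg_left (by linarith) h3.le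
  · have hx0 : 0 < x := by linarith
    have h4 : mi M x ≤ 2 / (x + y) := by
      refine (mi_le_inv hx0).trans ?_
      rw [div_le_div_iff₀ hx0 hxy]
      linarith
    calc mi M x * mi M' y ≤ (2 / (x + y)) * mi M' y := mul_le_mul_of_nonneg_right h4 h2
      _ ≤ _ := mul_le_mul_of_nonneg_left (by linarith) h3.le

theorem tc_pos {a : ZI} (ha : a ≠ 0) : 0 < ‖tc a‖ := by
  have := one_le_norm_tc ha
  linarith

theorem log_nrm {a : ZI} : Real.log (nrm a) = 2 * Real.log ‖tc a‖ := by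
  rw [nrm_real, Real.log_pow]
  push_cast
  ring

theorem tc_uu {a : ZI} (ha : a ≠ 0) : tc a = (‖tc a‖ : ℂ) * uu a := by
  unfold uu
  rw [mul_div_cancel₀]
  exact_mod_cast (tc_pos ha).ne'

theorem dist_le {a b : ZI} (ha : a ≠ 0) (hb : b ≠ 0) (hab : ‖tc b‖ ≤ ‖tc a‖) :
    ‖tc (a - b)‖ ≤ ‖tc a‖ * (|Real.log (nrm a) - Real.log (nrm b)| + ‖uu a - uu b‖) := by
  have hA := tc_pos ha
  have hB := tc_pos hb
  have e : tc (a - b) = ((‖tc a‖ - ‖tc b‖ : ℝ) : ℂ) * uu a + (‖tc b‖ : ℂ) * (uu a - uu b) := by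
    rw [tc_sub]
    conv_lhs => rw [tc_uu ha, tc_uu hb]
    push_cast
    ring
  rw [e]
  refine (norm_add_le _ _).trans ?_
  rw [norm_mul, norm_mul, uu_norm ha, mul_one, Complex.norm_real, Complex.norm_real,
    Real.norm_of_nonneg (sub_nonneg.2 hab), norm_norm]
  have h1 : ‖tc a‖ - ‖tc b‖ ≤ ‖tc a‖ * |Real.log (nrm a) - Real.log (nrm b)| := by
    rw [log_nrm, log_nrm]
    have h2 := Real.one_sub_inv_le_log_of_pos (div_pos hA hB)
    rw [inv_div, Real.log_div hA.ne' hB.ne'] at h2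
    have h3 : 0 ≤ 1 - ‖tc b‖ / ‖tc a‖ := by
      rw [sub_nonneg, div_le_one hA]
      exact hab
    have h4 : 1 - ‖tc b‖ / ‖tc a‖ ≤ |2 * Real.log ‖tc a‖ - 2 * Real.log ‖tc b‖| := by
      refine le_trans ?_ (le_abs_self _)
      linarith
    calc ‖tc a‖ - ‖tc b‖ = ‖tc a‖ * (1 - ‖tc b‖ / ‖tc a‖) := by field_simp
      _ ≤ _ := mul_le_mul_of_nonneg_left h4 hA.le
  have h2 : ‖tc b‖ * ‖uu a - uu b‖ ≤ ‖tc a‖ * ‖uu a - uu b‖ :=
    mul_le_mul_of_nonneg_right hab (norm_nonneg _)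
  rw [mul_add]
  linarith

theorem x_low {a b : ZI} (ha : a ≠ 0) (hb : b ≠ 0) (_hab : ‖tc b‖ ≤ ‖tc a‖) :
    (nrm a : ℝ) - nrm b ≤ nrm a * |Real.log (nrm a) - Real.log (nrm b)| := by
  have hA : (0 : ℝ) < nrm a := by exact_mod_cast nrm_pos ha
  have hB : (0 : ℝ) < nrm b := by exact_mod_cast nrm_pos hb
  have h2 := Real.one_sub_inv_le_log_of_pos (div_pos hA hB)
  rw [inv_div, Real.log_div hA.ne' hB.ne'] at h2
  calc (nrm a : ℝ) - nrm b = nrm a * (1 - nrm b / nrm a) := by field_simp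
    _ ≤ _ := mul_le_mul_of_nonneg_left (h2.trans (le_abs_self _)) hA.le

theorem W2_tc (a b : ZI) : (W2 a b : ℝ) = (tc a * (starRingEnd ℂ) (tc b)).im := by
  unfold W2 tc
  simp only [map_add, map_mul, Complex.conj_I, Complex.add_im, Complex.add_re,
    Complex.mul_im, Complex.mul_re, Complex.neg_im, Complex.neg_re, Complex.I_re, Complex.I_im,
    Complex.conj_re, Complex.conj_im, Complex.intCast_re, Complex.intCast_im]
  push_cast
  ring

theorem y_low {a b : ZI} (ha : a ≠ 0) (hb : b ≠ 0) :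
    |(W2 (a - b) b : ℝ)| ≤ ‖tc a‖ * ‖tc b‖ * ‖uu a - uu b‖ := by
  have h1 : (W2 (a - b) b : ℝ) = (((‖tc a‖ * ‖tc b‖ : ℝ) : ℂ) *
      ((uu a - uu b) * (starRingEnd ℂ) (uu b))).im := by
    have h2 : (W2 (a - b) b : ℝ) = (W2 a b : ℝ) := by
      unfold W2
      simp only [Zsqrtd.re_sub, Zsqrtd.im_sub]
      push_cast
      ring
    rw [h2, W2_tc]
    have h3 : tc a * (starRingEnd ℂ) (tc b) = (((‖tc a‖ * ‖tc b‖ : ℝ) : ℂ) *
        ((uu a - uu b) * (starRingEnd ℂ) (uu b))) + ((‖tc a‖ * ‖tc b‖ : ℝ) : ℂ) := by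
      have h4 : uu b * (starRingEnd ℂ) (uu b) = 1 := by
        rw [Complex.mul_conj', uu_norm hb]
        simp
      conv_lhs => rw [tc_uu ha, tc_uu hb]
      rw [map_mul, Complex.conj_ofReal]
      push_cast
      linear_combination ((‖tc a‖ : ℂ) * ‖tc b‖) * h4
    rw [h3, Complex.add_im, Complex.ofReal_im, add_zero]
  rw [h1]
  refine (Complex.abs_im_le_norm _).trans ?_
  rw [norm_mul, norm_mul, RCLike.norm_conj, uu_norm hb, mul_one, Complex.norm_real,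
    Real.norm_of_nonneg (by positivity)]

theorem nrm_add (b d : ZI) : (nrm (b + d) : ℤ) - nrm b = nrm d + 2 * W1 d b := by
  rw [nrm_int, nrm_int, nrm_int]
  unfold W1
  simp only [Zsqrtd.re_add, Zsqrtd.im_add]
  ring

theorem ct_dvd (d b : ZI) : (ct d : ℤ) ∣ W1 d b ∧ (ct d : ℤ) ∣ W2 d b ∧ (ct d : ℤ) ∣ (nrm d : ℤ) := by
  have hr : (ct d : ℤ) ∣ d.re := Int.gcd_dvd_left ..
  have hi : (ct d : ℤ) ∣ d.im := Int.gcd_dvd_right ..
  refine ⟨?_, ?_, ?_⟩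
  · exact dvd_add (Dvd.dvd.mul_right hr _) (Dvd.dvd.mul_right hi _)
  · exact dvd_sub (Dvd.dvd.mul_right hi _) (Dvd.dvd.mul_right hr _)
  · rw [nrm_int, sq, sq]
    exact dvd_add (Dvd.dvd.mul_right hr _) (Dvd.dvd.mul_right hi _)

theorem W1_im1 (d b : ZI) : W1 (im1 * d) b = -W2 d b := by
  unfold W1 W2 im1
  simp only [Zsqrtd.re_mul, Zsqrtd.im_mul]
  ring

theorem ct_im1 (d : ZI) : ct (im1 * d) = ct d := by
  unfold ct im1
  simp only [Zsqrtd.re_mul, Zsqrtd.im_mul]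
  have e1 : (0 : ℤ) * d.re + -1 * 1 * d.im = -d.im := by ring
  have e2 : (0 : ℤ) * d.im + 1 * d.re = d.re := by ring
  rw [e1, e2, Int.neg_gcd, Int.gcd_comm]

theorem norm_im1 (d : ZI) : ‖tc (im1 * d)‖ = ‖tc d‖ := by
  rw [H385.HE4.tc_im1, norm_mul, Complex.norm_I, one_mul]

theorem im1_ne {d : ZI} (hd : d ≠ 0) : im1 * d ≠ 0 := by
  intro h
  have h1 := norm_im1 d
  rw [h] at h1
  have h2 := tc_pos hd
  rw [← h1] at h2
  simp [tc] at h2

/-- sums over fibres -/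
theorem sum_fib (Fs : Finset ZI) (m : ZI → ℤ) (g : ℕ) (hg : 1 ≤ g) (B : ℝ) (hB : 0 ≤ B) (M : ℕ)
    (hm : ∀ b ∈ Fs, (g : ℤ) ∣ m b ∧ m b ≠ 0 ∧ |m b| ≤ M)
    (hcard : ∀ j : ℤ, ((Fs.filter (fun b => m b = j)).card : ℝ) ≤ B) :
    ∑ b ∈ Fs, 1 / |(m b : ℝ)| ≤ B / g * (4 * (1 + Real.log (M + 1))) := by
  classical
  have hg0 : (0 : ℝ) < g := by exact_mod_cast hg
  have hgi : (g : ℤ) ≠ 0 := by exact_mod_cast (by omega : g ≠ 0)
  set s : Finset ℤ := Fs.image (fun b => m b / (g : ℤ)) with hs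
  rw [← Finset.sum_fiberwise_of_maps_to (s := Fs) (t := s) (g := fun b => m b / (g : ℤ))
    (fun b hb => Finset.mem_image_of_mem _ hb)]
  have hs1 : ∀ j ∈ s, |j| ≤ M ∧ 1 ≤ |j| := by
    intro j hj
    rw [hs, mem_image] at hj
    obtain ⟨b, hb, rfl⟩ := hj
    obtain ⟨⟨k, hk⟩, h2, h3⟩ := hm b hb
    rw [hk, Int.mul_ediv_cancel_left _ hgi]
    have hk0 : k ≠ 0 := by
      rintro rfl
      rw [mul_zero] at hk
      exact h2 hk
    have hk1 : 1 ≤ |k| := Int.one_le_abs hk0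
    refine ⟨?_, hk1⟩
    rw [hk, abs_mul] at h3
    have : (1 : ℤ) ≤ |(g : ℤ)| := by
      rw [Nat.abs_cast]
      exact_mod_cast hg
    nlinarith [abs_nonneg k]
  have h1 : ∀ j ∈ s, ∑ b ∈ Fs with m b / (g : ℤ) = j, 1 / |(m b : ℝ)| ≤
      (2 * B / g) * (1 / (|(j : ℝ)| + 1)) := by
    intro j hj
    obtain ⟨-, h2⟩ := hs1 j hj
    have hj1 : (1 : ℝ) ≤ |(j : ℝ)| := by
      rw [← Int.cast_abs]
      exact_mod_cast h2
    have h3 : ∀ b ∈ Fs.filter (fun b => m b / (g : ℤ) = j), 1 / |(m b : ℝ)| =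
        1 / (g * |(j : ℝ)|) := by
      intro b hb
      rw [mem_filter] at hb
      obtain ⟨⟨k, hk⟩, -, -⟩ := hm b hb.1
      have h4 := hb.2
      rw [hk, Int.mul_ediv_cancel_left _ hgi] at h4
      rw [hk, h4]
      push_cast
      rw [abs_mul, abs_of_nonneg hg0.le]
    rw [Finset.sum_congr rfl h3, Finset.sum_const, nsmul_eq_mul]
    have h5 : Fs.filter (fun b => m b / (g : ℤ) = j) ⊆ Fs.filter (fun b => m b = g * j) := by
      intro b hb
      rw [mem_filter] at hb ⊢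
      refine ⟨hb.1, ?_⟩
      obtain ⟨⟨k, hk⟩, -, -⟩ := hm b hb.1
      have h4 := hb.2
      rw [hk, Int.mul_ediv_cancel_left _ hgi] at h4
      rw [hk, h4]
    have h6 : ((Fs.filter (fun b => m b / (g : ℤ) = j)).card : ℝ) ≤ B := by
      refine le_trans ?_ (hcard (g * j))
      exact_mod_cast Finset.card_le_card h5
    calc ((Fs.filter (fun b => m b / (g : ℤ) = j)).card : ℝ) * (1 / (g * |(j : ℝ)|)) ≤
        B * (1 / (g * |(j : ℝ)|)) := mul_le_mul_of_nonneg_right h6 (by positivity)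
      _ = (B / g) * (1 / |(j : ℝ)|) := by field_simp
      _ ≤ (B / g) * (2 / (|(j : ℝ)| + 1)) := by
        refine mul_le_mul_of_nonneg_left ?_ (by positivity)
        rw [div_le_div_iff₀ (by linarith) (by linarith)]
        linarith
      _ = _ := by ring
  refine (Finset.sum_le_sum h1).trans ?_
  rw [← Finset.mul_sum]
  have h7 := sumZ s M (fun j hj => (hs1 j hj).1)
  calc (2 * B / g) * ∑ j ∈ s, (1 : ℝ) / (|(j : ℝ)| + 1) ≤
      (2 * B / g) * (2 * (1 + Real.log (M + 1))) := by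
        refine mul_le_mul_of_nonneg_left h7 (by positivity)
    _ = _ := by ring

/-- the sum of the reciprocals of the norms -/
theorem sum_BX_inv (N : ℕ) :
    ∑ a ∈ BX N, 1 / (nrm a : ℝ) ≤ 10 * (1 + Real.log (N + 1)) ^ 2 := by
  classical
  have h1 : ∀ a ∈ BX N, 1 / (nrm a : ℝ) ≤
      5 / 2 * ((1 / (|(a.re : ℝ)| + 1)) * (1 / (|(a.im : ℝ)| + 1))) := by
    intro a ha
    rw [H385.HE4.mem_BX] at ha
    have h2 : (nrm a : ℝ) = (a.re : ℝ) ^ 2 + (a.im : ℝ) ^ 2 := by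
      have := nrm_int a
      exact_mod_cast this
    have h3 : (1 : ℝ) ≤ nrm a := by exact_mod_cast ha.1
    have h4 : ∀ x : ℤ, |(x : ℝ)| ≤ (x : ℝ) ^ 2 := by
      intro x
      rcases eq_or_ne x 0 with h | h
      · subst h; simp
      · have h5 : (1 : ℤ) ≤ |x| := Int.one_le_abs h
        have h6 : (1 : ℝ) ≤ |(x : ℝ)| := by rw [← Int.cast_abs]; exact_mod_cast h5
        rw [← sq_abs]
        nlinarith
    have h5 := h4 a.re
    have h6 := h4 a.im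
    have h7 : |(a.re : ℝ)| * |(a.im : ℝ)| ≤ ((a.re : ℝ) ^ 2 + (a.im : ℝ) ^ 2) / 2 := by
      nlinarith [sq_nonneg (|(a.re : ℝ)| - |(a.im : ℝ)|), sq_abs (a.re : ℝ), sq_abs (a.im : ℝ)]
    have h8 : (0 : ℝ) < (|(a.re : ℝ)| + 1) * (|(a.im : ℝ)| + 1) := by positivity
    have e : 5 / 2 * ((1 / (|(a.re : ℝ)| + 1)) * (1 / (|(a.im : ℝ)| + 1))) =
        (5 / 2) / ((|(a.re : ℝ)| + 1) * (|(a.im : ℝ)| + 1)) := by
      field_simp
    rw [e, div_le_div_iff₀ (by linarith) h8]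
    nlinarith
  refine (Finset.sum_le_sum h1).trans ?_
  rw [← Finset.mul_sum]
  set s : Finset ℤ := Icc (-(N : ℤ)) N with hs
  have h2 : ∑ a ∈ BX N, (1 / (|(a.re : ℝ)| + 1)) * (1 / (|(a.im : ℝ)| + 1)) ≤
      ∑ p ∈ s ×ˢ s, (1 / (|(p.1 : ℝ)| + 1)) * (1 / (|(p.2 : ℝ)| + 1)) := by
    have hinj : Set.InjOn (fun a : ZI => (a.re, a.im)) (BX N : Set ZI) := by
      intro a _ b _ hab
      rw [Prod.mk.injEq] at hab
      ext
      · exact hab.1
      · exact hab.2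
    rw [← Finset.sum_image (f := fun p : ℤ × ℤ =>
      (1 / (|(p.1 : ℝ)| + 1)) * (1 / (|(p.2 : ℝ)| + 1))) hinj]
    refine Finset.sum_le_sum_of_subset_of_nonneg ?_ (fun _ _ _ => by positivity)
    intro p hp
    rw [mem_image] at hp
    obtain ⟨a, ha, rfl⟩ := hp
    rw [H385.HE4.mem_BX] at ha
    have h2 := nrm_int a
    have h3 : a.re ^ 2 + a.im ^ 2 ≤ (N : ℤ) := by rw [← h2]; exact_mod_cast ha.2
    rw [mem_product, hs, mem_Icc, mem_Icc]
    have h4 : ∀ x : ℤ, |x| ≤ x ^ 2 := by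
      intro x
      rcases eq_or_ne x 0 with h | h
      · subst h; simp
      · have : 1 ≤ |x| := Int.one_le_abs h
        rw [← sq_abs]
        nlinarith
    have h5 := abs_le.1 (h4 a.re)
    have h6 := abs_le.1 (h4 a.im)
    have h7 := sq_nonneg a.re
    have h8 := sq_nonneg a.im
    refine ⟨⟨?_, ?_⟩, ?_, ?_⟩ <;> simp only <;> linarith
  have h2' : ∑ p ∈ s ×ˢ s, (1 / (|(p.1 : ℝ)| + 1)) * (1 / (|(p.2 : ℝ)| + 1)) =
      (∑ j ∈ s, (1 : ℝ) / (|(j : ℝ)| + 1)) * ∑ j ∈ s, (1 : ℝ) / (|(j : ℝ)| + 1) := by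
    rw [Finset.sum_product, Finset.sum_mul_sum]
  rw [h2'] at h2
  have h3 := sumZ s N (fun j hj => by
    rw [hs, mem_Icc] at hj
    exact abs_le.2 hj)
  have h4 : 0 ≤ ∑ j ∈ s, (1 : ℝ) / (|(j : ℝ)| + 1) := Finset.sum_nonneg fun _ _ => by positivity
  calc _ ≤ 5 / 2 * ((∑ j ∈ s, (1 : ℝ) / (|(j : ℝ)| + 1)) * ∑ j ∈ s, (1 : ℝ) / (|(j : ℝ)| + 1)) :=
        mul_le_mul_of_nonneg_left h2 (by norm_num)
    _ ≤ 5 / 2 * ((2 * (1 + Real.log (N + 1))) * (2 * (1 + Real.log (N + 1)))) := by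
        refine mul_le_mul_of_nonneg_left ?_ (by norm_num)
        exact mul_le_mul h3 h3 h4 (h4.trans h3)
    _ = _ := by ring

end Pool.Agent.Y762.HK
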