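import Pool.Agent.Y762.HK.Full

/-!
The parameters of the family.
-/

open Complex Filter Topology Set MeasureTheory

set_option autoImplicit false
set_option maxHeartbeats 4000000

namespace Pool.Agent.Y762.HK

open H385 hiding ee ee_norm ee_add SS
open Pool.Agent.H304R3.HK (tc LamK bb one_le_norm_tc)
open Pool.Agent.W354.MS (nrm_real)

theorem exp_small (A c ε' : ℝ) (hc : 0 < c) (hε : 0 < ε') :
    ∀ᶠ x : ℝ in atTop, A * x ^ 7 * Real.exp (-(c * x)) ≤ ε' := by
  have h1 : Tendsto (fun x : ℝ => x ^ 7 / Real.exp (c * x)) atTop (𝓝 0) := by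
    have h2 := (isLittleO_pow_exp_pos_mul_atTop 7 hc).tendsto_div_nhds_zero
    exact h2
  have h2 : Tendsto (fun x : ℝ => A * (x ^ 7 / Real.exp (c * x))) atTop (𝓝 (A * 0)) :=
    h1.const_mul A
  rw [mul_zero] at h2
  filter_upwards [h2.eventually_le_const hε] with x hx
  refine le_trans (le_of_eq ?_) hx
  rw [Real.exp_neg]
  ring

/-- the conditions for a small mean square of the off-diagonal terms -/
theorem hk_param (h s ε' : ℝ) (hh : 1 / 2 < h) (hh1 : h ≤ 1) (hs : 0 < s) (hε : 0 < ε') :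
    ∃ L0 : ℝ, 1 ≤ L0 ∧ ∀ (q : ZI) (r K N : ℕ) (T ℒ : ℝ), q ≠ 0 → 1 ≤ K → 1 ≤ T → L0 ≤ ℒ →
      ℒ = Real.log (‖tc q‖ * (r + K + T)) →
      Real.exp (2 * h * ℒ) ≤ ‖tc q‖ ^ 2 * K * T → 1 ≤ N →
      (N : ℝ) ≤ 2 * Real.exp ((2 * h - 4 * s) * ℒ + s * ℒ) →
      Lg N ^ 2 * OD q N T K ≤ ε' * (T * K) ∧
      (phiQ q : ℝ) * K / 4 ≤ (1 + ε') * (Fam q r K).card ∧
      (phiQ q : ℝ) * K / 8 ≤ (Fam q r K).card ∧ 0 < (Fam q r K).card ∧
      Real.exp ((2 * h - 1) * ℒ) ≤ ‖tc q‖ * K := by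
  classical
  obtain ⟨C, hC, hpair⟩ := pairs_le
  set δ : ℝ := (2 * h - 1) / 4 with hδ
  have hδ0 : 0 < δ := by rw [hδ]; linarith
  obtain ⟨C1, hC1, hdiv⟩ := Pool.Agent.H369R2.divisor_bound δ hδ0
  set M0 : ℝ := 3 * (1 + ε') / ε' + 6 with hM0
  have hM00 : 0 < M0 := by positivity
  have e1 := exp_small (C * 4 ^ 7 * (2 * C1)) (2 * δ) (ε' / 2) (by positivity) (by positivity)
  have e2 := exp_small (C * 4 ^ 7 * 2) (3 * s) (ε' / 2) (by positivity) (by positivity)
  have e3 : ∀ᶠ x : ℝ in atTop, 2 * M0 ≤ Real.exp ((2 * h - 1) * x) := by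
    have h1 : Tendsto (fun x : ℝ => (2 * h - 1) * x) atTop atTop :=
      tendsto_id.const_mul_atTop (by linarith)
    exact (Real.tendsto_exp_atTop.comp h1).eventually_ge_atTop _
  obtain ⟨L1, hL1⟩ := (e1.and (e2.and e3)).exists_forall_of_atTop
  refine ⟨max 1 L1, le_max_left _ _, ?_⟩
  intro q r K N T ℒ hq hK hT hℒ hℒd hX hN hNb
  have hℒ1 : 1 ≤ ℒ := (le_max_left _ _).trans hℒ
  obtain ⟨f1, f2, f3⟩ := hL1 ℒ ((le_max_right _ _).trans hℒ)
  have hℒ0 : 0 < ℒ := by linarith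
  set Q : ℝ := ‖tc q‖ with hQ
  have hQ1 : 1 ≤ Q := one_le_norm_tc hq
  have hQ0 : 0 < Q := by linarith
  have hK1 : (1 : ℝ) ≤ K := by exact_mod_cast hK
  have hr0 : (0 : ℝ) ≤ r := Nat.cast_nonneg r
  have hT0 : 0 < T := by linarith
  have hexp : Real.exp ℒ = Q * (r + K + T) := by
    rw [hℒd, Real.exp_log (by positivity)]
  have hQT : Q * T ≤ Real.exp ℒ := by
    rw [hexp]
    exact mul_le_mul_of_nonneg_left (by linarith) hQ0.le
  have hQK : Q * K ≤ Real.exp ℒ := by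
    rw [hexp]
    exact mul_le_mul_of_nonneg_left (by linarith) hQ0.le
  have hsplit : Real.exp (2 * h * ℒ) = Real.exp ((2 * h - 1) * ℒ) * Real.exp ℒ := by
    rw [← Real.exp_add]
    congr 1
    ring
  rw [hsplit] at hX
  have hE := Real.exp_pos ℒ
  have gK : Real.exp ((2 * h - 1) * ℒ) ≤ Q * K := by
    have h1 : Real.exp ((2 * h - 1) * ℒ) * Real.exp ℒ ≤ (Q * K) * Real.exp ℒ := by
      calc _ ≤ Q ^ 2 * K * T := hX
        _ = (Q * K) * (Q * T) := by ring
        _ ≤ _ := mul_le_mul_of_nonneg_left hQT (by positivity)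
    exact le_of_mul_le_mul_right h1 hE
  have gT : Real.exp ((2 * h - 1) * ℒ) ≤ Q * T := by
    have h1 : Real.exp ((2 * h - 1) * ℒ) * Real.exp ℒ ≤ (Q * T) * Real.exp ℒ := by
      calc _ ≤ Q ^ 2 * K * T := hX
        _ = (Q * T) * (Q * K) := by ring
        _ ≤ _ := mul_le_mul_of_nonneg_left hQK (by positivity)
    exact le_of_mul_le_mul_right h1 hE
  have hN1 : (1 : ℝ) ≤ N := by exact_mod_cast hN
  have hLg : Lg N ≤ 4 * ℒ := by
    unfold Lg
    have h1 : Real.log N ≤ Real.log (2 * Real.exp ((2 * h - 4 * s) * ℒ + s * ℒ)) :=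
      Real.log_le_log (by linarith) hNb
    rw [Real.log_mul (by norm_num) (Real.exp_pos _).ne', Real.log_exp] at h1
    have h2 := Real.log_two_lt_d9
    have h3 : (2 * h - 4 * s) * ℒ + s * ℒ ≤ 2 * ℒ := by nlinarith
    linarith
  have hLg0 : 0 ≤ Lg N := by linarith [Lg_one hN]
  -- the divisor function
  have hτ : ((nrm q).divisors.card : ℝ) ≤ C1 * Real.exp (2 * δ * ℒ) := by
    refine (hdiv (nrm q) (nrm_pos hq)).trans ?_
    refine mul_le_mul_of_nonneg_left ?_ hC1.le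
    rw [nrm_real, ← hQ]
    have h1 : Q ≤ Real.exp ℒ := by
      rw [hexp]
      calc Q = Q * 1 := (mul_one Q).symm
        _ ≤ _ := mul_le_mul_of_nonneg_left (by linarith) hQ0.le
    have h2 : Q ^ 2 ≤ Real.exp (2 * ℒ) := by
      have : Real.exp (2 * ℒ) = Real.exp ℒ ^ 2 := by rw [← Real.exp_nat_mul]; norm_num
      rw [this]
      exact pow_le_pow_left₀ hQ0.le h1 2
    calc (Q ^ 2) ^ δ ≤ (Real.exp (2 * ℒ)) ^ δ := Real.rpow_le_rpow (by positivity) h2 hδ0.le
      _ = Real.exp (2 * δ * ℒ) := by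
        rw [← Real.exp_mul]
        congr 1
        ring
  -- the pairs
  have hOD : OD q N T K ≤ C * Lg N ^ 5 * ((T + K) * (nrm q).divisors.card / Q + N / nrm q) := by
    have h1 := hpair q N T K hq hN hT0.le (by linarith)
    exact h1
  have hb1 : (T + K) * ((nrm q).divisors.card : ℝ) / Q ≤
      (T * K) * (2 * C1 * Real.exp (-(2 * δ * ℒ))) := by
    have h1 : (T + K) / Q ≤ (T * K) * (2 * Real.exp (-((2 * h - 1) * ℒ))) := by
      rw [div_le_iff₀ hQ0, Real.exp_neg]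
      have hx := Real.exp_pos ((2 * h - 1) * ℒ)
      have h2 : 1 ≤ Q * K * (Real.exp ((2 * h - 1) * ℒ))⁻¹ := by
        rw [← div_eq_mul_inv, le_div_iff₀ hx, one_mul]
        exact gK
      have h3 : 1 ≤ Q * T * (Real.exp ((2 * h - 1) * ℒ))⁻¹ := by
        rw [← div_eq_mul_inv, le_div_iff₀ hx, one_mul]
        exact gT
      have h4 := mul_le_mul_of_nonneg_left h2 hT0.le
      have h5 := mul_le_mul_of_nonneg_left h3 (show (0 : ℝ) ≤ K by linarith)
      nlinarith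
    calc (T + K) * ((nrm q).divisors.card : ℝ) / Q =
        ((T + K) / Q) * ((nrm q).divisors.card : ℝ) := by ring
      _ ≤ ((T * K) * (2 * Real.exp (-((2 * h - 1) * ℒ)))) * (C1 * Real.exp (2 * δ * ℒ)) :=
        mul_le_mul h1 hτ (by positivity) (by positivity)
      _ = (T * K) * (2 * C1 * (Real.exp (-((2 * h - 1) * ℒ)) * Real.exp (2 * δ * ℒ))) := by ring
      _ = _ := by
        rw [← Real.exp_add]
        congr 3
        rw [hδ]
        ring
  have hb2 : (N : ℝ) / nrm q ≤ (T * K) * (2 * Real.exp (-(3 * s * ℒ))) := by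
    have hn0 : (0 : ℝ) < nrm q := by exact_mod_cast nrm_pos hq
    rw [div_le_iff₀ hn0, nrm_real, ← hQ]
    have h1 : Real.exp ((2 * h - 4 * s) * ℒ + s * ℒ) =
        Real.exp (-(3 * s * ℒ)) * (Real.exp ((2 * h - 1) * ℒ) * Real.exp ℒ) := by
      rw [← Real.exp_add, ← Real.exp_add]
      congr 1
      ring
    rw [h1] at hNb
    refine hNb.trans ?_
    have h2 := mul_le_mul_of_nonneg_left hX (Real.exp_pos (-(3 * s * ℒ))).le
    calc 2 * (Real.exp (-(3 * s * ℒ)) * (Real.exp ((2 * h - 1) * ℒ) * Real.exp ℒ)) ≤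
        2 * (Real.exp (-(3 * s * ℒ)) * (Q ^ 2 * K * T)) := by linarith
      _ = _ := by ring
  have hmain : Lg N ^ 2 * OD q N T K ≤ ε' * (T * K) := by
    have hTK : 0 < T * K := by positivity
    have hbr : 0 ≤ (T + K) * ((nrm q).divisors.card : ℝ) / Q + N / nrm q := by positivity
    calc Lg N ^ 2 * OD q N T K ≤ Lg N ^ 2 * (C * Lg N ^ 5 *
          ((T + K) * (nrm q).divisors.card / Q + N / nrm q)) :=
          mul_le_mul_of_nonneg_left hOD (by positivity)
      _ = C * Lg N ^ 7 * ((T + K) * (nrm q).divisors.card / Q + N / nrm q) := by ring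
      _ ≤ C * (4 * ℒ) ^ 7 * ((T * K) * (2 * C1 * Real.exp (-(2 * δ * ℒ))) +
          (T * K) * (2 * Real.exp (-(3 * s * ℒ)))) := by
          refine mul_le_mul ?_ (add_le_add hb1 hb2) hbr (by positivity)
          refine mul_le_mul_of_nonneg_left ?_ hC.le
          exact pow_le_pow_left₀ hLg0 hLg 7
      _ = (C * 4 ^ 7 * (2 * C1) * ℒ ^ 7 * Real.exp (-(2 * δ * ℒ)) +
          C * 4 ^ 7 * 2 * ℒ ^ 7 * Real.exp (-(3 * s * ℒ))) * (T * K) := by ring
      _ ≤ (ε' / 2 + ε' / 2) * (T * K) :=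
          mul_le_mul_of_nonneg_right (add_le_add f1 f2) hTK.le
      _ = _ := by ring
  obtain ⟨-, hφ, -⟩ := fq_finite q hq
  have hφ0 : (0 : ℝ) < phiQ q := by exact_mod_cast hφ
  refine ⟨hmain, ?_⟩
  by_cases h4 : 4 < nrm q
  · have hc := card_Fam q h4 r K
    have hpos : (0 : ℝ) < (phiQ q : ℝ) * K := by positivity
    refine ⟨?_, ?_, ?_, gK⟩
    · rw [hc]
      nlinarith
    · rw [hc]
      linarith
    · have : (0 : ℝ) < ((Fam q r K).card : ℝ) := by rw [hc]; positivity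
      exact_mod_cast this
  · have hQ2 : Q ≤ 2 := by
      have h5 : (nrm q : ℝ) ≤ 4 := by
        have : nrm q ≤ 4 := by omega
        exact_mod_cast this
      rw [nrm_real, ← hQ] at h5
      nlinarith
    have hKM : M0 ≤ K := by
      have h5 : 2 * M0 ≤ Q * K := f3.trans gK
      have h6 : Q * K ≤ 2 * K := mul_le_mul_of_nonneg_right hQ2 (by linarith)
      linarith
    have hc := card_Fam_ge q hq r K
    have hK6 : (6 : ℝ) ≤ K := by
      have : 0 ≤ 3 * (1 + ε') / ε' := by positivity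
      linarith
    have hK7 : 3 * (1 + ε') ≤ ε' * K := by
      have h5 : 3 * (1 + ε') / ε' ≤ K := by linarith
      rw [div_le_iff₀ hε] at h5
      linarith
    refine ⟨?_, ?_, ?_, gK⟩
    · have h5 : (phiQ q : ℝ) * K / 4 ≤ (1 + ε') * ((phiQ q : ℝ) * ((K : ℝ) - 3) / 4) := by
        have h6 : (K : ℝ) ≤ (1 + ε') * ((K : ℝ) - 3) := by linarith
        have h7 := mul_le_mul_of_nonneg_left h6 hφ0.le
        linarith
      exact h5.trans (mul_le_mul_of_nonneg_left hc (by linarith))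
    · refine le_trans ?_ hc
      have h6 : (K : ℝ) / 2 ≤ (K : ℝ) - 3 := by linarith
      have h7 := mul_le_mul_of_nonneg_left h6 hφ0.le
      linarith
    · have h5 : (0 : ℝ) < (phiQ q : ℝ) * ((K : ℝ) - 3) / 4 := by
        have : (0 : ℝ) < (K : ℝ) - 3 := by linarith
        positivity
      have : (0 : ℝ) < ((Fam q r K).card : ℝ) := lt_of_lt_of_le h5 hc
      exact_mod_cast this

end Pool.Agent.Y762.HK
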